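import Pool.Agent.Helper553.Orth.StageFinal

set_option autoImplicit false
open MeasureTheory ProbabilityTheory Filter Topology Set Polynomial
open scoped ENNReal NNReal

namespace Pool.Agent.Helper553.Orth

/-- The cone of nonnegative integrable densities. -/
def XX : Set (Lp ℝ 1 m01) := Ici 0

theorem XX_closed : IsClosed XX := isClosed_Ici

instance : CompleteSpace XX := XX_closed.completeSpace_coe

instance : Nonempty XX := ⟨⟨0, mem_Ici.mpr (le_refl _)⟩⟩

theorem l1_integrable (f : Lp ℝ 1 m01) : Integrable (f : ℝ → ℝ) m01 := L1.integrable_coeFn f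

theorem l1_dist (f g : Lp ℝ 1 m01) : dist f g = ∫ x, |f x - g x| ∂m01 := by
  rw [L1.dist_eq_integral_dist]
  rfl

theorem cont_functional {u : ℝ → ℝ} (hu : Measurable u) {M : ℝ} (hM0 : 0 ≤ M)
    (hM : ∀ᵐ x ∂m01, |u x| ≤ M) : Continuous (fun f : Lp ℝ 1 m01 => ∫ x, f x * u x ∂m01) := by
  have hint : ∀ f : Lp ℝ 1 m01, Integrable (fun x => f x * u x) m01 := by
    intro f
    apply (l1_integrable f).mul_bdd (c := M) hu.aestronglyMeasurable
    filter_upwards [hM] with x hx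
    exact hx
  apply LipschitzWith.continuous (K := M.toNNReal)
  apply LipschitzWith.of_dist_le_mul
  intro f g
  rw [Real.dist_eq, ← integral_sub (hint f) (hint g), l1_dist, Real.coe_toNNReal _ hM0,
    ← integral_const_mul, ← Real.norm_eq_abs]
  apply norm_integral_le_of_norm_le
  · exact ((l1_integrable f).sub (l1_integrable g)).abs.const_mul M
  · filter_upwards [hM] with x hx
    rw [← sub_mul, Real.norm_eq_abs, abs_mul, mul_comm]
    exact mul_le_mul_of_nonneg_right hx (abs_nonneg _)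

/-- The robust variance property. -/
def Good (K : ℝ) (f : ℝ → ℝ) : Prop :=
  ∃ (s m : ℕ) (φ : Unit ⊕ (Fin s ⊕ (Fin m ⊕ Fin m)) → ℝ[X]), 1 ≤ s ∧
    (∀ i, (φ i).natDegree ≤ s + 2 * m) ∧ VarGe φ (2 * K * (s + 2 * m)) ∧
    ∀ i j, |∫ x, f x * (φ i * φ j).eval x ∂m01 - (if i = j then 1 else 0)| <
      1 / (8 * ((s : ℝ) + 2 * m + 1) ^ 2)

theorem good_open (K : ℝ) : IsOpen {f : XX | Good K (f : Lp ℝ 1 m01)} := by
  rw [isOpen_iff_mem_nhds]
  rintro f ⟨s, m, φ, h1, h2, h3, h4⟩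
  have key : ∀ i j, ∀ᶠ g : XX in 𝓝 f,
      |∫ x, (g : Lp ℝ 1 m01) x * (φ i * φ j).eval x ∂m01 - (if i = j then 1 else 0)| <
      1 / (8 * ((s : ℝ) + 2 * m + 1) ^ 2) := by
    intro i j
    obtain ⟨M, hM0, hM⟩ := poly_bdd (φ i * φ j)
    have hc := cont_functional (u := fun x => (φ i * φ j).eval x)
      (φ i * φ j).continuous.measurable hM0 (m01_ae.mono (fun x hx => hM x hx))
    have hc' : Continuous (fun g : XX =>
        |∫ x, (g : Lp ℝ 1 m01) x * (φ i * φ j).eval x ∂m01 - (if i = j then 1 else 0)|) :=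
      ((hc.comp continuous_subtype_val).sub continuous_const).abs
    exact hc'.continuousAt.eventually (gt_mem_nhds (h4 i j))
  have key' : ∀ᶠ g : XX in 𝓝 f, ∀ i j,
      |∫ x, (g : Lp ℝ 1 m01) x * (φ i * φ j).eval x ∂m01 - (if i = j then 1 else 0)| <
      1 / (8 * ((s : ℝ) + 2 * m + 1) ^ 2) := by
    rw [eventually_all]; intro i
    rw [eventually_all]; intro j
    exact key i j
  filter_upwards [key'] with g hg
  exact ⟨s, m, φ, h1, h2, h3, hg⟩

theorem toXX {g : ℝ → ℝ} (hg : Integrable g m01) (hg0 : 0 ≤ᵐ[m01] g) :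
    ∃ f : XX, ((f : Lp ℝ 1 m01) : ℝ → ℝ) =ᵐ[m01] g := by
  refine ⟨⟨hg.toL1 g, ?_⟩, hg.coeFn_toL1⟩
  show (0 : Lp ℝ 1 m01) ≤ hg.toL1 g
  rw [← Lp.coeFn_nonneg]
  filter_upwards [hg0, hg.coeFn_toL1] with x hx hx'
  rw [hx']; exact hx

theorem XX_nonneg (f : XX) : 0 ≤ᵐ[m01] ((f : Lp ℝ 1 m01) : ℝ → ℝ) :=
  (Lp.coeFn_nonneg _).mpr f.2

theorem good_dense {K : ℝ} (hK : 0 ≤ K) : Dense {f : XX | Good K (f : Lp ℝ 1 m01)} := by
  rw [Metric.dense_iff]
  intro f ε hε
  obtain ⟨s, m, φ, g, hg1, hg2, hg3, h1, h2, h3, h4⟩ :=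
    stage_final (l1_integrable (f : Lp ℝ 1 m01)) (XX_nonneg f) hε hK
  obtain ⟨g', hg'⟩ := toXX hg1 hg2
  refine ⟨g', ?_, s, m, φ, h1, h2, h3, ?_⟩
  · rw [Metric.mem_ball, Subtype.dist_eq, l1_dist]
    refine lt_of_le_of_lt (le_of_eq ?_) hg3
    apply integral_congr_ae
    filter_upwards [hg'] with x hx
    rw [hx]
  · intro i j
    have e : ∫ x, (g' : Lp ℝ 1 m01) x * (φ i * φ j).eval x ∂m01 =
        ∫ x, g x * (φ i * φ j).eval x ∂m01 := by
      apply integral_congr_ae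
      filter_upwards [hg'] with x hx
      rw [hx]
    rw [e]
    exact h4 i j

/-- Mass on an interval. -/
noncomputable def mJ (a b : ℝ) (f : ℝ → ℝ) : ℝ := ∫ x, f x * (Ioo a b).indicator (fun _ => 1) x ∂m01

theorem ind_bdd (a b x : ℝ) : |(Ioo a b).indicator (fun _ => (1 : ℝ)) x| ≤ 1 := by
  by_cases h : x ∈ Ioo a b
  · rw [indicator_of_mem h, abs_one]
  · rw [indicator_of_notMem h, abs_zero]; exact zero_le_one

theorem ind_nonneg (a b x : ℝ) : 0 ≤ (Ioo a b).indicator (fun _ => (1 : ℝ)) x :=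
  indicator_nonneg (fun _ _ => zero_le_one) x

theorem mJ_open (a b : ℝ) : IsOpen {f : XX | 0 < mJ a b (f : Lp ℝ 1 m01)} := by
  have hc := cont_functional (u := (Ioo a b).indicator (fun _ => (1 : ℝ)))
    (measurable_const.indicator measurableSet_Ioo) zero_le_one
    (Eventually.of_forall (ind_bdd a b))
  have hc' : Continuous (fun g : XX => mJ a b (g : Lp ℝ 1 m01)) := hc.comp continuous_subtype_val
  exact isOpen_Ioi.preimage hc'

theorem mJ_one {a b : ℝ} (ha : 0 ≤ a) (hab : a < b) (hb : b ≤ 1) : mJ a b (fun _ => 1) = b - a := by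
  unfold mJ
  have e : ∀ x : ℝ, (1 : ℝ) * (Ioo a b).indicator (fun _ => (1 : ℝ)) x =
      (Ioo a b).indicator (fun _ => (1 : ℝ)) x := fun x => one_mul _
  simp_rw [e]
  rw [integral_indicator measurableSet_Ioo]
  unfold m01
  rw [Measure.restrict_restrict measurableSet_Ioo,
    inter_eq_self_of_subset_left (Ioo_subset_Icc_self.trans (Icc_subset_Icc ha hb)),
    setIntegral_const, measureReal_def, Real.volume_Ioo, ENNReal.toReal_ofReal (by linarith),
    smul_eq_mul, mul_one]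

theorem mJ_dense {a b : ℝ} (ha : 0 ≤ a) (hab : a < b) (hb : b ≤ 1) :
    Dense {f : XX | 0 < mJ a b (f : Lp ℝ 1 m01)} := by
  rw [Metric.dense_iff]
  intro f ε hε
  have hf := l1_integrable (f : Lp ℝ 1 m01)
  have hf0 := XX_nonneg f
  obtain ⟨g', hg'⟩ := toXX (g := fun x => (f : Lp ℝ 1 m01) x + ε / 2)
    (hf.add (integrable_const _)) (by
      filter_upwards [hf0] with x hx
      exact add_nonneg hx (by linarith))
  refine ⟨g', ?_, ?_⟩
  · rw [Metric.mem_ball, Subtype.dist_eq, l1_dist]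
    have e : ∫ x, |(g' : Lp ℝ 1 m01) x - (f : Lp ℝ 1 m01) x| ∂m01 = ε / 2 := by
      have e1 : ∫ x, |(g' : Lp ℝ 1 m01) x - (f : Lp ℝ 1 m01) x| ∂m01 = ∫ _x, ε / 2 ∂m01 := by
        apply integral_congr_ae
        filter_upwards [hg'] with x hx
        rw [hx, add_sub_cancel_left, abs_of_pos (by linarith)]
      rw [e1]
      unfold m01
      rw [setIntegral_const, measureReal_def, Real.volume_Icc]
      simp
    rw [e]; linarith
  · show 0 < mJ a b (g' : Lp ℝ 1 m01)
    have hi1 : Integrable (fun x => (f : Lp ℝ 1 m01) x * (Ioo a b).indicator (fun _ => (1 : ℝ)) x)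
        m01 := by
      apply hf.mul_bdd (c := 1) (measurable_const.indicator measurableSet_Ioo).aestronglyMeasurable
      exact Eventually.of_forall (ind_bdd a b)
    have hi2 : Integrable (fun x => ε / 2 * (1 * (Ioo a b).indicator (fun _ => (1 : ℝ)) x)) m01 := by
      apply Integrable.const_mul
      simp_rw [one_mul]
      exact (integrable_const _).indicator measurableSet_Ioo
    have e : mJ a b (g' : Lp ℝ 1 m01) = mJ a b (f : Lp ℝ 1 m01) + ε / 2 * mJ a b (fun _ => 1) := by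
      unfold mJ
      rw [← integral_const_mul, ← integral_add hi1 hi2]
      apply integral_congr_ae
      filter_upwards [hg'] with x hx
      rw [hx]; ring
    rw [e, mJ_one ha hab hb]
    have h0 : 0 ≤ mJ a b (f : Lp ℝ 1 m01) := by
      unfold mJ
      apply integral_nonneg_of_ae
      filter_upwards [hf0] with x hx
      exact mul_nonneg hx (ind_nonneg a b x)
    have : 0 < ε / 2 * (b - a) := mul_pos (by linarith) (by linarith)
    linarith

/-- The generic density. -/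
theorem exists_generic : ∃ f : ℝ → ℝ, Integrable f m01 ∧ 0 ≤ᵐ[m01] f ∧ (∀ K : ℕ, Good K f) ∧
    ∀ a b : ℚ, 0 ≤ a → a < b → b ≤ 1 → 0 < mJ a b f := by
  let S : ℕ ⊕ {p : ℚ × ℚ // 0 ≤ p.1 ∧ p.1 < p.2 ∧ p.2 ≤ 1} → Set XX := fun i =>
    Sum.elim (fun K : ℕ => {f : XX | Good K (f : Lp ℝ 1 m01)})
      (fun p => {f : XX | 0 < mJ (p.1.1 : ℝ) (p.1.2 : ℝ) (f : Lp ℝ 1 m01)}) i
  have ho : ∀ i, IsOpen (S i) := by
    rintro (K | p)
    · exact good_open K
    · exact mJ_open _ _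
  have hd : ∀ i, Dense (S i) := by
    rintro (K | p)
    · exact good_dense (Nat.cast_nonneg K)
    · apply mJ_dense
      · exact_mod_cast p.2.1
      · exact_mod_cast p.2.2.1
      · exact_mod_cast p.2.2.2
  obtain ⟨f, hf⟩ := (dense_iInter_of_isOpen ho hd).nonempty
  rw [mem_iInter] at hf
  refine ⟨(f : Lp ℝ 1 m01), l1_integrable _, XX_nonneg f, ?_, ?_⟩
  · intro K
    exact hf (Sum.inl K)
  · intro a b ha hab hb
    exact hf (Sum.inr ⟨(a, b), ha, hab, hb⟩)

end Pool.Agent.Helper553.Orth
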