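import Pool.Agent.Helper553.Orth.Conv

set_option autoImplicit false
open MeasureTheory ProbabilityTheory Filter Topology Set Polynomial
open scoped ENNReal NNReal

namespace Pool.Agent.Helper553.Orth

/-- The k-th node. -/
noncomputable def nd (y0 r : ℝ) (k : ℕ) : ℝ := y0 + 2 * r + 4 * r * k

/-- Quadratic factor of a dipole, as a polynomial. -/
noncomputable def qp (y0 r d : ℝ) (k : ℕ) : ℝ[X] := (X - C (nd y0 r k)) * (X - C (nd y0 r k + d))

/-- Quadratic factor of a dipole, as a function. -/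
noncomputable def qd (y0 r d : ℝ) (k : ℕ) (x : ℝ) : ℝ := (x - nd y0 r k) * (x - (nd y0 r k + d))

/-- Product over all dipoles. -/
noncomputable def Wp (y0 r d : ℝ) (m : ℕ) : ℝ[X] := ∏ k : Fin m, qp y0 r d k

/-- Product over all dipoles but one. -/
noncomputable def Wk (y0 r d : ℝ) (m : ℕ) (k : Fin m) : ℝ[X] :=
  ∏ l ∈ Finset.univ.erase k, qp y0 r d l

/-- Linear polynomial of a dipole. -/
noncomputable def lp (y0 r d : ℝ) {m : ℕ} (g g' : Fin m → ℝ) (k : Fin m) : ℝ[X] :=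
  C (g k) * (X - C (nd y0 r k + d)) + C (g' k) * (X - C (nd y0 r k))

/-- Linear function of a dipole. -/
noncomputable def ld (y0 r d : ℝ) {m : ℕ} (g g' : Fin m → ℝ) (k : Fin m) (x : ℝ) : ℝ :=
  g k * (x - (nd y0 r k + d)) + g' k * (x - nd y0 r k)

theorem eval_qp (y0 r d : ℝ) (k : ℕ) (x : ℝ) : (qp y0 r d k).eval x = qd y0 r d k x := by
  simp [qp, qd]

theorem eval_lp (y0 r d : ℝ) {m : ℕ} (g g' : Fin m → ℝ) (k : Fin m) (x : ℝ) :
    (lp y0 r d g g' k).eval x = ld y0 r d g g' k x := by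
  simp [lp, ld]

theorem Wp_eq (y0 r d : ℝ) (m : ℕ) (k : Fin m) : Wp y0 r d m = qp y0 r d k * Wk y0 r d m k := by
  unfold Wp Wk
  exact (Finset.mul_prod_erase Finset.univ (fun k : Fin m => qp y0 r d k) (Finset.mem_univ k)).symm

/-- The part of the polynomial not containing the switch. -/
noncomputable def Zp (y0 r d : ℝ) {m : ℕ} (Ψ Q : ℝ[X]) (g g' : Fin m → ℝ) (τ : ℝ) : ℝ[X] :=
  Wp y0 r d m * ((X - C y0) * Q) + C τ * (Ψ * ∑ k : Fin m, Wk y0 r d m k * lp y0 r d g g' k)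

/-- The polynomial. -/
noncomputable def Pp (y0 r d : ℝ) {m : ℕ} (Ψ Q : ℝ[X]) (g g' : Fin m → ℝ) (b τ : ℝ) : ℝ[X] :=
  C b * (Wp y0 r d m * Ψ) + Zp y0 r d Ψ Q g g' τ

variable {y0 r d : ℝ} {m : ℕ} {Ψ Q : ℝ[X]} {g g' : Fin m → ℝ} {b τ : ℝ}

theorem eval_Wk_eq {x : ℝ} (k l : Fin m) (hq : qd y0 r d l x ≠ 0) :
    (Wk y0 r d m l).eval x = (Wk y0 r d m k).eval x * qd y0 r d k x / qd y0 r d l x := by
  have h1 := congrArg (fun p => eval x p) (Wp_eq y0 r d m k)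
  have h2 := congrArg (fun p => eval x p) (Wp_eq y0 r d m l)
  simp only [eval_mul, eval_qp] at h1 h2
  rw [eq_div_iff hq]
  linarith

/-- Local form of the polynomial near the dipole k. -/
theorem Pp_local {x : ℝ} (k : Fin m) (hq : ∀ l : Fin m, l ≠ k → qd y0 r d l x ≠ 0) :
    (Pp y0 r d Ψ Q g g' b τ).eval x = (Wk y0 r d m k).eval x *
      (qd y0 r d k x * (b * Ψ.eval x + (x - y0) * Q.eval x + τ * Ψ.eval x *
        ∑ l ∈ Finset.univ.erase k, ld y0 r d g g' l x / qd y0 r d l x) +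
        τ * Ψ.eval x * ld y0 r d g g' k x) := by
  have hW := congrArg (fun p => eval x p) (Wp_eq y0 r d m k)
  simp only [eval_mul, eval_qp] at hW
  unfold Pp Zp
  simp only [eval_add, eval_mul, eval_C, eval_sub, eval_X, eval_finsetSum, eval_lp]
  rw [← Finset.add_sum_erase _ _ (Finset.mem_univ k)]
  have h1 : ∑ l ∈ Finset.univ.erase k, (Wk y0 r d m l).eval x * ld y0 r d g g' l x =
      (Wk y0 r d m k).eval x * qd y0 r d k x *
        ∑ l ∈ Finset.univ.erase k, ld y0 r d g g' l x / qd y0 r d l x := by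
    rw [Finset.mul_sum]
    apply Finset.sum_congr rfl
    intro l hl
    have hlk := (Finset.mem_erase.mp hl).1
    rw [eval_Wk_eq k l (hq l hlk)]
    ring
  rw [h1, hW]
  ring

/-- Global form of the polynomial away from the nodes. -/
theorem Pp_global {x : ℝ} (hq : ∀ l : Fin m, qd y0 r d l x ≠ 0) :
    (Pp y0 r d Ψ Q g g' b τ).eval x = (Wp y0 r d m).eval x *
      (b * Ψ.eval x + (x - y0) * Q.eval x + τ * Ψ.eval x *
        ∑ l : Fin m, ld y0 r d g g' l x / qd y0 r d l x) := by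
  unfold Pp Zp
  simp only [eval_add, eval_mul, eval_C, eval_sub, eval_X, eval_finsetSum, eval_lp]
  have h1 : ∑ l : Fin m, (Wk y0 r d m l).eval x * ld y0 r d g g' l x =
      (Wp y0 r d m).eval x * ∑ l : Fin m, ld y0 r d g g' l x / qd y0 r d l x := by
    rw [Finset.mul_sum]
    apply Finset.sum_congr rfl
    intro l _
    have hW := congrArg (fun p => eval x p) (Wp_eq y0 r d m l)
    simp only [eval_mul, eval_qp] at hW
    rw [hW]
    have := hq l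
    field_simp
  rw [h1]
  ring

theorem ld_div_qd {x : ℝ} (k : Fin m) (hq : qd y0 r d k x ≠ 0) :
    ld y0 r d g g' k x / qd y0 r d k x = g k / (x - nd y0 r k) + g' k / (x - (nd y0 r k + d)) := by
  unfold qd at hq ⊢
  unfold ld
  have h1 : x - nd y0 r k ≠ 0 := left_ne_zero_of_mul hq
  have h2 : x - (nd y0 r k + d) ≠ 0 := right_ne_zero_of_mul hq
  field_simp

/-- Standing hypotheses of the deterministic part. -/
structure Hyp (m : ℕ) (y0 r d B ε G A lam : ℝ) (Ψ Q : ℝ[X]) (g g' : Fin m → ℝ) : Prop where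
  hr : 0 < r
  hd0 : 0 < d
  hd : d ≤ r / 4
  hm : 1 ≤ m
  hB : 1 ≤ B
  hε : 0 < ε
  hεB : ε * (100 * (B + 1)) ≤ 1
  hlam0 : 0 ≤ lam
  hlam : lam * r ≤ ε
  hA0 : 0 ≤ A
  hA : A * (4 * r * m) ≤ ε
  hG : 0 ≤ G
  hg : ∀ k, |g k| ≤ G
  hg' : ∀ k, |g' k| ≤ G
  hΨ : ∀ x ∈ Icc y0 (y0 + 4 * r * m), 0 < Ψ.eval x ∧ |(derivative Ψ).eval x| ≤ lam * Ψ.eval x ∧
    |(derivative (derivative Ψ)).eval x| ≤ lam ^ 2 * Ψ.eval x
  hQ : ∀ x ∈ Icc y0 (y0 + 4 * r * m), |Q.eval x| ≤ A * Ψ.eval x ∧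
    |(derivative Q).eval x| ≤ A * lam * Ψ.eval x ∧
    |(derivative (derivative Q)).eval x| ≤ A * lam ^ 2 * Ψ.eval x

theorem nd_mem {y0 r : ℝ} (hr : 0 < r) {m : ℕ} (k : Fin m) {x : ℝ}
    (hx : x ∈ Icc (nd y0 r k - r) (nd y0 r k + r)) : x ∈ Icc y0 (y0 + 4 * r * m) := by
  unfold nd at hx
  have h1 : (0 : ℝ) ≤ (k : ℕ) := by positivity
  have h2 : ((k : ℕ) : ℝ) + 1 ≤ m := by exact_mod_cast k.2
  have h3 : 0 ≤ 4 * r * (k : ℕ) := by positivity
  have h4 : 4 * r * (((k : ℕ) : ℝ) + 1) ≤ 4 * r * m := mul_le_mul_of_nonneg_left h2 (by positivity)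
  constructor
  · linarith [hx.1]
  · linarith [hx.2]

/-- Distance to the points of another dipole. -/
theorem nd_dist {y0 r d : ℝ} (hr : 0 < r) (hd0 : 0 < d) (hd : d ≤ r / 4) {m : ℕ} (k l : Fin m)
    (hkl : l ≠ k) {x : ℝ} (hx : x ∈ Icc (nd y0 r k - r) (nd y0 r k + r)) :
    2 * r ≤ |x - nd y0 r l| ∧ 2 * r ≤ |x - (nd y0 r l + d)| := by
  unfold nd at *
  rcases lt_or_gt_of_ne (fun h => hkl (Fin.ext h) : (l : ℕ) ≠ (k : ℕ)) with h | h
  · have h2 : ((l : ℕ) : ℝ) + 1 ≤ (k : ℕ) := by exact_mod_cast h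
    have h4 : 4 * r * (((l : ℕ) : ℝ) + 1) ≤ 4 * r * (k : ℕ) :=
      mul_le_mul_of_nonneg_left h2 (by positivity)
    have h5 := hx.1
    constructor
    · rw [le_abs]; left; linarith
    · rw [le_abs]; left; linarith
  · have h2 : ((k : ℕ) : ℝ) + 1 ≤ (l : ℕ) := by exact_mod_cast h
    have h4 : 4 * r * (((k : ℕ) : ℝ) + 1) ≤ 4 * r * (l : ℕ) :=
      mul_le_mul_of_nonneg_left h2 (by positivity)
    have h5 := hx.2
    constructor
    · rw [le_abs]; right; linarith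
    · rw [le_abs]; right; linarith

theorem qd_ne_of_dist {y0 r d : ℝ} (hr : 0 < r) {l : ℕ} {x : ℝ} {c : ℝ} (hc : 0 < c)
    (h : c * r ≤ |x - nd y0 r l| ∧ c * r ≤ |x - (nd y0 r l + d)|) : qd y0 r d l x ≠ 0 := by
  unfold qd
  have : 0 < c * r := by positivity
  apply mul_ne_zero
  · intro h0; rw [h0, abs_zero] at h; linarith [h.1]
  · intro h0; rw [h0, abs_zero] at h; linarith [h.2]

theorem Wk_eval_ne {y0 r d : ℝ} (hr : 0 < r) (hd0 : 0 < d) (hd : d ≤ r / 4) {m : ℕ} (k : Fin m)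
    {x : ℝ} (hx : x ∈ Icc (nd y0 r k - r) (nd y0 r k + r)) : (Wk y0 r d m k).eval x ≠ 0 := by
  unfold Wk
  rw [eval_prod, Finset.prod_ne_zero_iff]
  intro l hl
  rw [eval_qp]
  exact qd_ne_of_dist hr two_pos (nd_dist hr hd0 hd k l (Finset.mem_erase.mp hl).1 hx)

end Pool.Agent.Helper553.Orth
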