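import Pool.Agent.Helper553.Orth.Band

set_option autoImplicit false
open MeasureTheory ProbabilityTheory Filter Topology Set Polynomial
open scoped ENNReal NNReal

namespace Pool.Agent.Helper553.Orth

theorem card_le_two {J : Set ℝ} (hJ : OrdConnected J) (f f1 f2 : ℝ → ℝ)
    (hf : ∀ x ∈ J, HasDerivAt f (f1 x) x) (hf1 : ∀ x ∈ J, HasDerivAt f1 (f2 x) x)
    (hpos : ∀ x ∈ J, 0 < f2 x) (S : Finset ℝ) (hS : ∀ x ∈ S, x ∈ J ∧ f x = 0) : S.card ≤ 2 := by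
  classical
  by_contra hcon
  push Not at hcon
  have key : ∀ x y z : ℝ, x < y → y < z → x ∈ S → y ∈ S → z ∈ S → False := by
    intro x y z hxy hyz hx hy hz
    have hx' := hS x hx
    have hy' := hS y hy
    have hz' := hS z hz
    have hsub : Icc x z ⊆ J := hJ.out hx'.1 hz'.1
    obtain ⟨u, hu, hu0⟩ := exists_hasDerivAt_eq_zero (f := f) (f' := f1) hxy
      (fun t ht => (hf t (hsub ⟨ht.1, ht.2.trans hyz.le⟩)).continuousAt.continuousWithinAt)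
      (by rw [hx'.2, hy'.2])
      (fun t ht => hf t (hsub ⟨ht.1.le, ht.2.le.trans hyz.le⟩))
    obtain ⟨v, hv, hv0⟩ := exists_hasDerivAt_eq_zero (f := f) (f' := f1) hyz
      (fun t ht => (hf t (hsub ⟨hxy.le.trans ht.1, ht.2⟩)).continuousAt.continuousWithinAt)
      (by rw [hy'.2, hz'.2])
      (fun t ht => hf t (hsub ⟨hxy.le.trans ht.1.le, ht.2.le⟩))
    have huv : u < v := hu.2.trans hv.1
    obtain ⟨w, hw, hw0⟩ := exists_hasDerivAt_eq_zero (f := f1) (f' := f2) huv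
      (fun t ht => (hf1 t (hsub ⟨hu.1.le.trans ht.1, ht.2.trans hv.2.le⟩)).continuousAt.continuousWithinAt)
      (by rw [hu0, hv0])
      (fun t ht => hf1 t (hsub ⟨hu.1.le.trans ht.1.le, ht.2.le.trans hv.2.le⟩))
    have := hpos w (hsub ⟨hu.1.le.trans hw.1.le, hw.2.le.trans hv.2.le⟩)
    linarith
  obtain ⟨x, hx, y, hy, z, hz, hxy, hxz, hyz⟩ := Finset.two_lt_card.mp hcon
  rcases lt_or_gt_of_ne hxy with h1 | h1 <;> rcases lt_or_gt_of_ne hxz with h2 | h2 <;>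
    rcases lt_or_gt_of_ne hyz with h3 | h3
  · exact key x y z h1 h3 hx hy hz
  · exact key x z y h2 h3 hx hz hy
  · linarith
  · exact key z x y h2 h1 hz hx hy
  · exact key y x z h1 h2 hy hx hz
  · linarith
  · exact key y z x h3 h2 hy hz hx
  · exact key z y x h3 h1 hz hy hx

theorem am {x y a b : ℝ} (hx : |x| ≤ a) (hy : |y| ≤ b) : |x * y| ≤ a * b := by
  rw [abs_mul]
  exact mul_le_mul hx hy (abs_nonneg _) ((abs_nonneg _).trans hx)

/-- The normalised second derivative inequality. -/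
theorem norm_ineq {b B ε u1 u2 v0 v1 x0 x1 x2 F0 F1 F2 L L' q1 q0 : ℝ} (hb1 : 1 ≤ b) (hbB : b ≤ B)
    (hε : 0 < ε) (hεB : ε * (100 * (B + 1)) ≤ 1) (hu1 : |u1| ≤ ε) (hu2 : |u2| ≤ ε) (hv0 : |v0| ≤ ε)
    (hv1 : |v1| ≤ ε) (hx0 : |x0| ≤ ε) (hx1 : |x1| ≤ ε) (hx2 : |x2| ≤ ε) (hF0 : |F0| ≤ ε)
    (hF1 : |F1| ≤ ε) (hF2 : |F2| ≤ ε) (hL : |L| ≤ 3 * ε) (hL' : |L'| ≤ 2 * ε) (hq1 : |q1| ≤ 3)
    (hq0 : |q0| ≤ 2) :
    0 < 2 * (b + x0 + F0) + 2 * q1 * (b * u1 + v0 + x1 + u1 * F0 + F1) +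
      q0 * (b * u2 + 2 * v1 + x2 + u2 * F0 + 2 * u1 * F1 + F2) + (u2 * L + 2 * u1 * L') := by
  have hB : 1 ≤ B := hb1.trans hbB
  have hε1 : ε ≤ 1 := by nlinarith
  have hbabs : |b| ≤ B := by rw [abs_of_pos (by linarith)]; exact hbB
  have e1 := abs_le.mp (am hbabs hu1)
  have e2 := abs_le.mp (am hbabs hu2)
  have e3 := abs_le.mp (am hu1 hF0)
  have e4 := abs_le.mp (am hu2 hF0)
  have e5 := abs_le.mp (am hu1 hF1)
  have hεε : ε * ε ≤ ε := by nlinarith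
  have g1 : |b * u1 + v0 + x1 + u1 * F0 + F1| ≤ (B + 4) * ε := by
    have d1 := abs_le.mp hv0
    have d2 := abs_le.mp hx1
    have d3 := abs_le.mp hF1
    rw [abs_le]
    constructor
    · linarith [d1.1, d2.1, d3.1, e1.1, e3.1]
    · linarith [d1.2, d2.2, d3.2, e1.2, e3.2]
  have g2 : |b * u2 + 2 * v1 + x2 + u2 * F0 + 2 * u1 * F1 + F2| ≤ (B + 7) * ε := by
    have d1 := abs_le.mp hv1
    have d2 := abs_le.mp hx2
    have d3 := abs_le.mp hF2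
    rw [abs_le]
    constructor
    · linarith [d1.1, d2.1, d3.1, e2.1, e4.1, e5.1]
    · linarith [d1.2, d2.2, d3.2, e2.2, e4.2, e5.2]
  have h1 := abs_le.mp (am hq1 g1)
  have h2 := abs_le.mp (am hq0 g2)
  have h3 := abs_le.mp (am hu2 hL)
  have h4 := abs_le.mp (am hu1 hL')
  have h5 := abs_le.mp hx0
  have h6 := abs_le.mp hF0
  have h7 : 0 ≤ B * ε := by positivity
  linarith [h1.1, h2.1, h3.1, h4.1, h5.1, h6.1]

end Pool.Agent.Helper553.Orth
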