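import Pool.Agent.Helper553.Orth.Dip

set_option autoImplicit false
open MeasureTheory ProbabilityTheory Filter Topology Set Polynomial
open scoped ENNReal NNReal

namespace Pool.Agent.Helper553.Orth

variable {y0 r d : ℝ} {m : ℕ} {Ψ Q : ℝ[X]} {g g' : Fin m → ℝ} {b τ B ε G A lam : ℝ}

theorem eps_small (h : Hyp m y0 r d B ε G A lam Ψ Q g g') : ε ≤ 1 / 200 := by
  have h1 := h.hεB
  have h2 := h.hB
  have h3 := h.hε
  nlinarith

theorem V_bounds (h : Hyp m y0 r d B ε G A lam Ψ Q g g') (hτ0 : 0 ≤ τ) (hτ : τ * (m * G) ≤ ε * r)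
    (hb1 : 1 ≤ b) (k : Fin m) {x : ℝ} (hx : x ∈ Icc (nd y0 r k - r) (nd y0 r k + r)) :
    (99 / 100 * b) * Ψ.eval x ≤
      b * Ψ.eval x + (x - y0) * Q.eval x + τ * (Ψ.eval x * fa y0 r d g g' k x) ∧
    b * Ψ.eval x + (x - y0) * Q.eval x + τ * (Ψ.eval x * fa y0 r d g g' k x) ≤
      (b + 1 / 100) * Ψ.eval x := by
  obtain ⟨h1, h2⟩ := norm_bounds h hτ0 hτ k hx
  have hΨ := (h.hΨ x (nd_mem h.hr k hx)).1
  have hε := eps_small h
  rw [abs_le] at h1 h2
  have e1 : τ * (Ψ.eval x * fa y0 r d g g' k x) = (τ * fa y0 r d g g' k x) * Ψ.eval x := by ring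
  rw [e1]
  have e2 : (τ * fa y0 r d g g' k x) * Ψ.eval x ≤ ε * Ψ.eval x :=
    mul_le_mul_of_nonneg_right h2.2 hΨ.le
  have e3 : -ε * Ψ.eval x ≤ (τ * fa y0 r d g g' k x) * Ψ.eval x :=
    mul_le_mul_of_nonneg_right h2.1 hΨ.le
  have e4 : ε * Ψ.eval x ≤ 1 / 200 * Ψ.eval x := mul_le_mul_of_nonneg_right hε hΨ.le
  have e5 : 1 * Ψ.eval x ≤ b * Ψ.eval x := mul_le_mul_of_nonneg_right hb1 hΨ.le
  constructor <;> nlinarith [h1.1, h1.2]

theorem zc_zero (h : Hyp m y0 r d B ε G A lam Ψ Q g g') (hτ : d * (m * G) ≤ ε * r)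
    (hb1 : 1 ≤ b) (hb2 : b ≤ 11 / 10) (k : Fin m) (hg1 : |g k + 1| ≤ 1 / 10)
    (hg2 : |g' k - 2| ≤ 1 / 10) :
    zc y0 r (Pp y0 r d Ψ Q g g' b d) k = 0 := by
  unfold zc
  rw [Finset.card_eq_zero, Finset.filter_eq_empty_iff]
  intro x hx hxJ
  rw [Multiset.mem_toFinset] at hx
  have hroot := isRoot_of_mem_roots hx
  rw [IsRoot, Pp_eq_Tf h k hxJ] at hroot
  have hT := (mul_eq_zero.mp hroot).resolve_left (Wk_eval_ne h.hr h.hd0 h.hd k hxJ)
  obtain ⟨v1, v2⟩ := V_bounds h h.hd0.le hτ hb1 k hxJ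
  have hΨ := (h.hΨ x (nd_mem h.hr k hxJ)).1
  unfold Tf at hT
  set V := b * Ψ.eval x + (x - y0) * Q.eval x + d * (Ψ.eval x * fa y0 r d g g' k x) with hV
  unfold qd ld at hT
  set u := x - nd y0 r k with hu
  have hu2 : x - (nd y0 r k + d) = u - d := by rw [hu]; ring
  rw [hu2] at hT
  rw [abs_le] at hg1 hg2
  set P := Ψ.eval x with hP
  -- write V = v * P
  obtain ⟨v, hv⟩ : ∃ v, V = v * P := ⟨V / P, by field_simp⟩
  rw [hv] at hT v1 v2
  have hv1 : 99 / 100 * b ≤ v := le_of_mul_le_mul_right v1 hΨ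
  have hv2 : v ≤ b + 1 / 100 := le_of_mul_le_mul_right v2 hΨ
  have hd0 := h.hd0
  have key : 0 < v * u ^ 2 + d * (g k + g' k - v) * u + d ^ 2 * (-(g k)) := by
    have w1 : |g k + g' k - v| ≤ 31 / 100 := by
      rw [abs_le]; constructor <;> linarith
    have w2 : |d * (g k + g' k - v) * u| ≤ 31 / 100 * ((u ^ 2 + d ^ 2) / 2) := by
      have : d * (g k + g' k - v) * u = (g k + g' k - v) * (d * u) := by ring
      rw [this]
      apply am w1
      rw [abs_le]
      constructor <;> nlinarith [sq_nonneg (u + d), sq_nonneg (u - d)]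
    have w3 := (abs_le.mp w2).1
    have w4 : 99 / 100 * u ^ 2 ≤ v * u ^ 2 := mul_le_mul_of_nonneg_right (by linarith) (sq_nonneg _)
    have w5 : d ^ 2 * (9 / 10) ≤ d ^ 2 * (-(g k)) := mul_le_mul_of_nonneg_left (by linarith) (sq_nonneg _)
    have w6 : 0 < d ^ 2 := by positivity
    nlinarith [sq_nonneg u]
  have hT2 : P * (v * u ^ 2 + d * (g k + g' k - v) * u + d ^ 2 * (-(g k))) = 0 := by
    rw [← hT]; ring
  have := mul_pos hΨ key
  linarith

theorem Tf_continuousOn (h : Hyp m y0 r d B ε G A lam Ψ Q g g') (k : Fin m) :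
    ContinuousOn (Tf y0 r d Ψ Q g g' b τ k) (Icc (nd y0 r k - r) (nd y0 r k + r)) := by
  have hr := h.hr
  have hfa : ContinuousOn (fa y0 r d g g' k) (Icc (nd y0 r k - r) (nd y0 r k + r)) := by
    intro x hx
    have hne : ∀ l : Fin m, l ≠ k → x - nd y0 r l ≠ 0 ∧ x - (nd y0 r l + d) ≠ 0 := by
      intro l hl
      have hd := nd_dist h.hr h.hd0 h.hd k l hl hx
      constructor
      · intro h0; rw [h0, abs_zero] at hd; linarith [hd.1]
      · intro h0; rw [h0, abs_zero] at hd; linarith [hd.2]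
    exact (fa_hasDeriv k hne).1.continuousAt.continuousWithinAt
  unfold Tf qd ld
  have hΨc := Ψ.continuous
  have hQc := Q.continuous
  apply ContinuousOn.add
  · apply ContinuousOn.mul (by fun_prop)
    apply ContinuousOn.add (by fun_prop)
    exact continuousOn_const.mul (hΨc.continuousOn.mul hfa)
  · fun_prop

theorem zc_ge_two (h : Hyp m y0 r d B ε G A lam Ψ Q g g') (hτ0 : 0 ≤ τ)
    (hτ : τ * (m * G) ≤ ε * r) (hb1 : 1 ≤ b) (k : Fin m) (hg1 : τ * |g k| ≤ b * d / 10)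
    (hg2 : τ * |g' k| ≤ b * d / 10) :
    2 ≤ zc y0 r (Pp y0 r d Ψ Q g g' b τ) k := by
  have hr := h.hr
  have hd0 := h.hd0
  have hd := h.hd
  set a := nd y0 r k with ha
  have m1 : a - d ∈ Icc (a - r) (a + r) := ⟨by linarith, by linarith⟩
  have m2 : a + d / 2 ∈ Icc (a - r) (a + r) := ⟨by linarith, by linarith⟩
  have m3 : a + 2 * d ∈ Icc (a - r) (a + r) := ⟨by linarith, by linarith⟩
  have hτg : |τ * g k| ≤ b * d / 10 := by rw [abs_mul, abs_of_nonneg hτ0]; exact hg1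
  have hτg' : |τ * g' k| ≤ b * d / 10 := by rw [abs_mul, abs_of_nonneg hτ0]; exact hg2
  rw [abs_le] at hτg hτg'
  have hbd : 0 < b * d ^ 2 := by positivity
  -- values of Tf
  have t1 : 0 < Tf y0 r d Ψ Q g g' b τ k (a - d) := by
    have hΨ := (h.hΨ _ (nd_mem h.hr k m1)).1
    have hV := (V_bounds h hτ0 hτ hb1 k m1).1
    unfold Tf qd ld
    rw [← ha]
    set V := b * Ψ.eval (a - d) + (a - d - y0) * Q.eval (a - d) +
      τ * (Ψ.eval (a - d) * fa y0 r d g g' k (a - d))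
    set P := Ψ.eval (a - d)
    have e : (a - d - a) * (a - d - (a + d)) * V + τ * (P * (g k * (a - d - (a + d)) + g' k * (a - d - a)))
        = 2 * d ^ 2 * V + P * (-(2 * d) * (τ * g k) - d * (τ * g' k)) := by ring
    rw [e]
    have e1 : 2 * d ^ 2 * (99 / 100 * b * P) ≤ 2 * d ^ 2 * V :=
      mul_le_mul_of_nonneg_left hV (by positivity)
    have e2 : -(3 / 10 * (b * d ^ 2)) ≤ -(2 * d) * (τ * g k) - d * (τ * g' k) := by
      have w1 : d * (τ * g k) ≤ d * (b * d / 10) := mul_le_mul_of_nonneg_left hτg.2 hd0.le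
      have w2 : d * (τ * g' k) ≤ d * (b * d / 10) := mul_le_mul_of_nonneg_left hτg'.2 hd0.le
      nlinarith
    have e3 : P * (-(3 / 10 * (b * d ^ 2))) ≤ P * (-(2 * d) * (τ * g k) - d * (τ * g' k)) :=
      mul_le_mul_of_nonneg_left e2 hΨ.le
    have e4 : 0 < P * (b * d ^ 2) := mul_pos hΨ hbd
    nlinarith
  have t2 : Tf y0 r d Ψ Q g g' b τ k (a + d / 2) < 0 := by
    have hΨ := (h.hΨ _ (nd_mem h.hr k m2)).1
    have hV := (V_bounds h hτ0 hτ hb1 k m2).1
    unfold Tf qd ld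
    rw [← ha]
    set V := b * Ψ.eval (a + d / 2) + (a + d / 2 - y0) * Q.eval (a + d / 2) +
      τ * (Ψ.eval (a + d / 2) * fa y0 r d g g' k (a + d / 2))
    set P := Ψ.eval (a + d / 2)
    have e : (a + d / 2 - a) * (a + d / 2 - (a + d)) * V +
        τ * (P * (g k * (a + d / 2 - (a + d)) + g' k * (a + d / 2 - a)))
        = -(d ^ 2 / 4 * V) + P * (-(d / 2) * (τ * g k) + d / 2 * (τ * g' k)) := by ring
    rw [e]
    have e1 : d ^ 2 / 4 * (99 / 100 * b * P) ≤ d ^ 2 / 4 * V :=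
      mul_le_mul_of_nonneg_left hV (by positivity)
    have e2 : -(d / 2) * (τ * g k) + d / 2 * (τ * g' k) ≤ 1 / 10 * (b * d ^ 2) := by
      have w1 : d * (-(b * d / 10)) ≤ d * (τ * g k) := mul_le_mul_of_nonneg_left hτg.1 hd0.le
      have w2 : d * (τ * g' k) ≤ d * (b * d / 10) := mul_le_mul_of_nonneg_left hτg'.2 hd0.le
      nlinarith
    have e3 : P * (-(d / 2) * (τ * g k) + d / 2 * (τ * g' k)) ≤ P * (1 / 10 * (b * d ^ 2)) :=
      mul_le_mul_of_nonneg_left e2 hΨ.le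
    have e4 : 0 < P * (b * d ^ 2) := mul_pos hΨ hbd
    nlinarith
  have t3 : 0 < Tf y0 r d Ψ Q g g' b τ k (a + 2 * d) := by
    have hΨ := (h.hΨ _ (nd_mem h.hr k m3)).1
    have hV := (V_bounds h hτ0 hτ hb1 k m3).1
    unfold Tf qd ld
    rw [← ha]
    set V := b * Ψ.eval (a + 2 * d) + (a + 2 * d - y0) * Q.eval (a + 2 * d) +
      τ * (Ψ.eval (a + 2 * d) * fa y0 r d g g' k (a + 2 * d))
    set P := Ψ.eval (a + 2 * d)
    have e : (a + 2 * d - a) * (a + 2 * d - (a + d)) * V +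
        τ * (P * (g k * (a + 2 * d - (a + d)) + g' k * (a + 2 * d - a)))
        = 2 * d ^ 2 * V + P * (d * (τ * g k) + 2 * d * (τ * g' k)) := by ring
    rw [e]
    have e1 : 2 * d ^ 2 * (99 / 100 * b * P) ≤ 2 * d ^ 2 * V :=
      mul_le_mul_of_nonneg_left hV (by positivity)
    have e2 : -(3 / 10 * (b * d ^ 2)) ≤ d * (τ * g k) + 2 * d * (τ * g' k) := by
      have w1 : d * (-(b * d / 10)) ≤ d * (τ * g k) := mul_le_mul_of_nonneg_left hτg.1 hd0.le
      have w2 : d * (-(b * d / 10)) ≤ d * (τ * g' k) := mul_le_mul_of_nonneg_left hτg'.1 hd0.le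
      nlinarith
    have e3 : P * (-(3 / 10 * (b * d ^ 2))) ≤ P * (d * (τ * g k) + 2 * d * (τ * g' k)) :=
      mul_le_mul_of_nonneg_left e2 hΨ.le
    have e4 : 0 < P * (b * d ^ 2) := mul_pos hΨ hbd
    nlinarith
  have hcont := Tf_continuousOn (b := b) (τ := τ) h k
  rw [← ha] at hcont
  obtain ⟨z1, hz1, hz1'⟩ := intermediate_value_Icc' (by linarith : a - d ≤ a + d / 2)
    (hcont.mono (fun x hx => ⟨m1.1.trans hx.1, hx.2.trans m2.2⟩)) ⟨t2.le, t1.le⟩
  obtain ⟨z2, hz2, hz2'⟩ := intermediate_value_Icc (by linarith : a + d / 2 ≤ a + 2 * d)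
    (hcont.mono (fun x hx => ⟨m2.1.trans hx.1, hx.2.trans m3.2⟩)) ⟨t2.le, t3.le⟩
  have n1 : z1 ≠ a + d / 2 := by
    rintro rfl; rw [hz1'] at t2; exact lt_irrefl _ t2
  have n2 : z2 ≠ a + d / 2 := by
    rintro rfl; rw [hz2'] at t2; exact lt_irrefl _ t2
  have hlt : z1 < z2 := by
    have h1 : z1 < a + d / 2 := lt_of_le_of_ne hz1.2 n1
    have h2 : a + d / 2 < z2 := lt_of_le_of_ne hz2.1 (Ne.symm n2)
    linarith
  have hm1 : z1 ∈ Icc (a - r) (a + r) := ⟨m1.1.trans hz1.1, hz1.2.trans m2.2⟩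
  have hm2 : z2 ∈ Icc (a - r) (a + r) := ⟨m2.1.trans hz2.1, hz2.2.trans m3.2⟩
  have hP0 : Pp y0 r d Ψ Q g g' b τ ≠ 0 := by
    intro h0
    have h1 := Pp_eq_Tf (b := b) (τ := τ) h k m1
    rw [h0, eval_zero] at h1
    have h2 := Wk_eval_ne h.hr h.hd0 h.hd k m1
    rcases mul_eq_zero.mp h1.symm with h3 | h3
    · exact h2 h3
    · rw [h3] at t1; exact lt_irrefl _ t1
  unfold zc
  have hsub : ({z1, z2} : Finset ℝ) ⊆ (Pp y0 r d Ψ Q g g' b τ).roots.toFinset.filter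
      (fun x => x ∈ Icc (nd y0 r k - r) (nd y0 r k + r)) := by
    intro z hz
    rw [Finset.mem_insert, Finset.mem_singleton] at hz
    rw [Finset.mem_filter, Multiset.mem_toFinset, mem_roots hP0, IsRoot]
    rcases hz with rfl | rfl
    · exact ⟨by rw [Pp_eq_Tf h k hm1, hz1', mul_zero], hm1⟩
    · exact ⟨by rw [Pp_eq_Tf h k hm2, hz2', mul_zero], hm2⟩
  have := Finset.card_le_card hsub
  rw [Finset.card_pair hlt.ne] at this
  exact this

/-- No zeros in the cluster away from the dipoles. -/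
theorem no_zero_between (h : Hyp m y0 r d B ε G A lam Ψ Q g g') (hτ0 : 0 ≤ τ)
    (hτ : τ * (m * G) ≤ ε * r) (hb1 : 1 ≤ b) {x : ℝ} (hx : x ∈ Icc y0 (y0 + 4 * r * m))
    (hxn : ∀ k : Fin m, x ∉ Icc (nd y0 r k - r) (nd y0 r k + r)) :
    (Pp y0 r d Ψ Q g g' b τ).eval x ≠ 0 := by
  have hr := h.hr
  have hd0 := h.hd0
  have hd := h.hd
  have hG := h.hG
  have hdist : ∀ k : Fin m, 3 / 4 * r ≤ |x - nd y0 r k| ∧ 3 / 4 * r ≤ |x - (nd y0 r k + d)| := by
    intro k
    have h1 := hxn k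
    rw [mem_Icc, not_and_or, not_le, not_le] at h1
    rcases h1 with h1 | h1
    · constructor
      · rw [le_abs]; right; linarith
      · rw [le_abs]; right; linarith
    · constructor
      · rw [le_abs]; left; linarith
      · rw [le_abs]; left; linarith
  have hq : ∀ k : Fin m, qd y0 r d k x ≠ 0 := fun k =>
    qd_ne_of_dist hr (by norm_num : (0 : ℝ) < 3 / 4) (hdist k)
  rw [Pp_global hq]
  apply mul_ne_zero
  · unfold Wp
    rw [eval_prod, Finset.prod_ne_zero_iff]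
    intro k _
    rw [eval_qp]
    exact hq k
  · have hsum : |∑ l : Fin m, ld y0 r d g g' l x / qd y0 r d l x| ≤ m * (3 * G / r) := by
      calc |∑ l : Fin m, ld y0 r d g g' l x / qd y0 r d l x|
          ≤ ∑ l : Fin m, |ld y0 r d g g' l x / qd y0 r d l x| := Finset.abs_sum_le_sum_abs _ _
        _ ≤ ∑ _l : Fin m, 3 * G / r := by
            apply Finset.sum_le_sum
            intro l _
            rw [ld_div_qd l (hq l)]
            have h1 := (div_bd hG (h.hg l) (by positivity : 0 < 3 / 4 * r) (hdist l).1).1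
            have h2 := (div_bd hG (h.hg' l) (by positivity : 0 < 3 / 4 * r) (hdist l).2).1
            refine (abs_add_le _ _).trans ((add_le_add h1 h2).trans ?_)
            have e : G / (3 / 4 * r) + G / (3 / 4 * r) = 8 / 3 * (G / r) := by field_simp; ring
            rw [e]
            have e2 : 3 * G / r = 3 * (G / r) := by ring
            rw [e2]
            have : 0 ≤ G / r := by positivity
            linarith
        _ = m * (3 * G / r) := by rw [Finset.sum_const, nsmul_eq_mul, Finset.card_univ, Fintype.card_fin]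
    set S := ∑ l : Fin m, ld y0 r d g g' l x / qd y0 r d l x
    have hΨ := (h.hΨ x hx).1
    have hQ := (h.hQ x hx).1
    have hτS : |τ * S| ≤ 3 * ε := by
      rw [abs_mul, abs_of_nonneg hτ0]
      calc τ * |S| ≤ τ * (m * (3 * G / r)) := mul_le_mul_of_nonneg_left hsum hτ0
        _ = 3 * (τ * (m * G)) / r := by ring
        _ ≤ 3 * ε := by rw [div_le_iff₀ hr]; linarith
    have h1 : |x - y0| ≤ 4 * r * m := by
      rw [abs_of_nonneg (by linarith [hx.1])]; linarith [hx.2]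
    have h2 : |(x - y0) * Q.eval x| ≤ ε * Ψ.eval x := by
      refine (am h1 hQ).trans ?_
      have h2 : 4 * r * m * (A * Ψ.eval x) = (A * (4 * r * m)) * Ψ.eval x := by ring
      rw [h2]
      exact mul_le_mul_of_nonneg_right h.hA hΨ.le
    have hε := eps_small h
    have e1 : τ * Ψ.eval x * S = (τ * S) * Ψ.eval x := by ring
    rw [e1]
    rw [abs_le] at hτS h2
    have e2 : -(3 * ε) * Ψ.eval x ≤ (τ * S) * Ψ.eval x := mul_le_mul_of_nonneg_right hτS.1 hΨ.le
    have e4 : ε * Ψ.eval x ≤ 1 / 200 * Ψ.eval x := mul_le_mul_of_nonneg_right hε hΨ.le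
    have e5 : 1 * Ψ.eval x ≤ b * Ψ.eval x := mul_le_mul_of_nonneg_right hb1 hΨ.le
    apply ne_of_gt
    nlinarith [h2.1]

theorem nr_split (h : Hyp m y0 r d B ε G A lam Ψ Q g g') (hτ0 : 0 ≤ τ)
    (hτ : τ * (m * G) ≤ ε * r) (hb1 : 1 ≤ b) :
    nr (Pp y0 r d Ψ Q g g' b τ) = nro y0 (y0 + 4 * r * m) (Pp y0 r d Ψ Q g g' b τ) +
      ∑ k : Fin m, zc y0 r (Pp y0 r d Ψ Q g g' b τ) k := by
  classical
  have hr := h.hr
  set P := Pp y0 r d Ψ Q g g' b τ with hP
  unfold nr nro zc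
  rw [← Finset.card_filter_add_card_filter_not (s := P.roots.toFinset)
    (fun x => x ∉ Icc y0 (y0 + 4 * r * m))]
  congr 1
  rw [← Finset.card_biUnion]
  · congr 1
    ext x
    rw [Finset.mem_filter, Finset.mem_biUnion]
    constructor
    · rintro ⟨h1, h2⟩
      rw [not_not] at h2
      have hroot : P.eval x = 0 := isRoot_of_mem_roots (Multiset.mem_toFinset.mp h1)
      by_contra hcon
      push Not at hcon
      apply no_zero_between h hτ0 hτ hb1 h2 _ hroot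
      intro k hk
      exact hcon k (Finset.mem_univ k) (Finset.mem_filter.mpr ⟨h1, hk⟩)
    · rintro ⟨k, _, hk⟩
      rw [Finset.mem_filter] at hk
      exact ⟨hk.1, not_not.mpr (nd_mem hr k hk.2)⟩
  · intro k _ l _ hkl
    rw [Function.onFun, Finset.disjoint_left]
    intro x hx1 hx2
    rw [Finset.mem_filter] at hx1 hx2
    have hd := (nd_dist hr h.hd0 h.hd k l (Ne.symm hkl) hx1.2).1
    have h3 : |x - nd y0 r l| ≤ r := by
      rw [abs_le]; constructor <;> linarith [hx2.2.1, hx2.2.2]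
    linarith

end Pool.Agent.Helper553.Orth
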