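import Pool.Agent.Helper553.Orth.VarSum

set_option autoImplicit false
open MeasureTheory ProbabilityTheory Filter Topology Set Polynomial
open scoped ENNReal NNReal

namespace Pool.Agent.Helper553.Orth

/-- Lebesgue measure on the unit interval. -/
noncomputable def m01 : Measure ℝ := volume.restrict (Icc (0 : ℝ) 1)

instance : IsFiniteMeasure m01 := by unfold m01; infer_instance

/-- The measure with density f on the unit interval. -/
noncomputable def dens (f : ℝ → ℝ) : Measure ℝ := m01.withDensity (fun x => ENNReal.ofReal (f x))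

theorem m01_ae : ∀ᵐ x ∂m01, x ∈ Icc (0 : ℝ) 1 := ae_restrict_mem measurableSet_Icc

theorem m01_compl : m01 (Icc (0 : ℝ) 1)ᶜ = 0 := by
  unfold m01
  rw [Measure.restrict_apply measurableSet_Icc.compl, compl_inter_self, measure_empty]

theorem dens_UMeas {f : ℝ → ℝ} (hf : Integrable f m01) : UMeas (dens f) := by
  refine ⟨isFiniteMeasure_withDensity_ofReal hf.2, ?_⟩
  exact (withDensity_absolutelyContinuous _ _) m01_compl

theorem dens_integral {f : ℝ → ℝ} (hf : Integrable f m01) (hf0 : 0 ≤ᵐ[m01] f) (g : ℝ → ℝ) :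
    ∫ x, g x ∂(dens f) = ∫ x, f x * g x ∂m01 := by
  unfold dens
  rw [integral_withDensity_eq_integral_toReal_smul₀ hf.1.aemeasurable.ennreal_ofReal
    (Eventually.of_forall (fun x => ENNReal.ofReal_lt_top))]
  apply integral_congr_ae
  filter_upwards [hf0] with x hx
  rw [ENNReal.toReal_ofReal hx, smul_eq_mul]

theorem poly_bdd (p : ℝ[X]) : ∃ M : ℝ, 0 ≤ M ∧ ∀ x ∈ Icc (0 : ℝ) 1, |p.eval x| ≤ M := by
  obtain ⟨M, hM⟩ := isCompact_Icc.exists_bound_of_continuousOn
    (s := Icc (0 : ℝ) 1) p.continuous.continuousOn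
  refine ⟨max M 0, le_max_right _ _, fun x hx => (hM x hx).trans (le_max_left _ _)⟩

theorem integrable_mul_poly {f : ℝ → ℝ} (hf : Integrable f m01) (p : ℝ[X]) :
    Integrable (fun x => f x * p.eval x) m01 := by
  obtain ⟨M, hM0, hM⟩ := poly_bdd p
  apply hf.mul_bdd (c := M)
  · exact p.continuous.aestronglyMeasurable
  · filter_upwards [m01_ae] with x hx
    exact hM x hx

theorem dens_ip {f : ℝ → ℝ} (hf : Integrable f m01) (hf0 : 0 ≤ᵐ[m01] f) (p q : ℝ[X]) :
    ip (dens f) p q = ∫ x, f x * (p * q).eval x ∂m01 := by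
  unfold ip
  rw [dens_integral hf hf0]
  simp only [eval_mul]

/-- A nonzero polynomial that is nonnegative has a positive integral against a density bounded
below on an initial interval. -/
theorem dens_base {f : ℝ → ℝ} (hf : Integrable f m01) (hf0 : 0 ≤ᵐ[m01] f) {η : ℝ} (hη : 0 < η)
    (hη1 : η ≤ 1 / 4) (hlow : ∀ᵐ x ∂m01, x ∈ Icc (0 : ℝ) (1 - 2 * η) → η ≤ f x)
    (hsupp : ∀ᵐ x ∂m01, x ∉ Icc (0 : ℝ) (1 - 2 * η) → f x = 0) : Base (dens f) η := by
  refine ⟨dens_UMeas hf, hη, hη1, ?_, ?_⟩
  · have hms : MeasurableSet (Icc (0 : ℝ) (1 - 2 * η))ᶜ := measurableSet_Icc.compl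
    unfold dens
    rw [withDensity_apply _ hms, lintegral_eq_zero_iff']
    · rw [EventuallyEq, ae_restrict_iff' hms]
      filter_upwards [hsupp] with x hx hx'
      rw [hx hx', ENNReal.ofReal_zero]
      rfl
    · exact hf.1.aemeasurable.restrict.ennreal_ofReal
  · intro p hp hpn
    rw [dens_integral hf hf0]
    set c := 1 - 2 * η with hc
    have hc1 : c ≤ 1 := by linarith
    have hc0 : 1 / 2 ≤ c := by linarith
    have hIcc : Icc (0 : ℝ) c ⊆ Icc 0 1 := Icc_subset_Icc_right hc1
    have hcont : ContinuousOn (fun x => η * p.eval x) (Icc (0 : ℝ) c) := by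
      have := p.continuous
      fun_prop
    have h1 : ∫ x in Icc (0 : ℝ) c, η * p.eval x ≤ ∫ x, f x * p.eval x ∂m01 := by
      have e1 : ∫ x, f x * p.eval x ∂m01 = ∫ x in Icc (0 : ℝ) c, f x * p.eval x ∂m01 := by
        rw [← integral_indicator measurableSet_Icc]
        apply integral_congr_ae
        filter_upwards [hsupp] with x hx
        by_cases h : x ∈ Icc (0 : ℝ) c
        · rw [indicator_of_mem h]
        · rw [indicator_of_notMem h, hx h, zero_mul]
      have e2 : m01.restrict (Icc (0 : ℝ) c) = volume.restrict (Icc (0 : ℝ) c) := by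
        unfold m01
        rw [Measure.restrict_restrict measurableSet_Icc, inter_eq_self_of_subset_left hIcc]
      rw [e1, e2]
      apply setIntegral_mono_ae_restrict
      · exact hcont.integrableOn_Icc
      · have := (integrable_mul_poly hf p).restrict (s := Icc (0 : ℝ) c)
        rw [e2] at this
        exact this
      · rw [← e2]
        rw [EventuallyLE, ae_restrict_iff' measurableSet_Icc]
        filter_upwards [hlow] with x hx hx'
        exact mul_le_mul_of_nonneg_right (hx hx') (hpn x hx')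
    refine lt_of_lt_of_le ?_ h1
    rw [integral_Icc_eq_integral_Ioc, ← intervalIntegral.integral_of_le (by linarith)]
    -- positivity of the integral of a nonzero nonnegative polynomial
    have hp' : ∃ x ∈ Ioo (0 : ℝ) c, p.eval x ≠ 0 := by
      by_contra hcon
      push Not at hcon
      apply hp
      apply Polynomial.eq_zero_of_infinite_isRoot
      apply Set.Infinite.mono _ (Ioo_infinite (by linarith : (0 : ℝ) < c))
      intro x hx
      exact hcon x hx
    obtain ⟨x0, hx0, hx0'⟩ := hp'
    apply intervalIntegral.integral_pos (by linarith) hcont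
    · intro x hx
      exact mul_nonneg hη.le (hpn x ⟨hx.1.le, hx.2⟩)
    · exact ⟨x0, ⟨hx0.1.le, hx0.2.le⟩, mul_pos hη
        (lt_of_le_of_ne (hpn x0 ⟨hx0.1.le, hx0.2.le⟩) (Ne.symm hx0'))⟩

end Pool.Agent.Helper553.Orth
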