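import Pool.Agent.Helper553.Orth.Count

set_option autoImplicit false
open MeasureTheory ProbabilityTheory Filter Topology Set Polynomial
open scoped ENNReal NNReal

namespace Pool.Agent.Helper553.Orth

variable {y0 r d : ℝ} {m : ℕ} {Ψ Q : ℝ[X]} {g g' : Fin m → ℝ} {b τ B ε G A lam : ℝ}

theorem natDegree_qp (y0 r d : ℝ) (k : ℕ) : (qp y0 r d k).natDegree ≤ 2 := by
  unfold qp
  apply natDegree_mul_le.trans
  have h1 : (X - C (nd y0 r k) : ℝ[X]).natDegree = 1 := natDegree_X_sub_C _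
  have h2 : (X - (C (nd y0 r k + d)) : ℝ[X]).natDegree = 1 := natDegree_X_sub_C _
  rw [h1, h2]

theorem natDegree_Wp (y0 r d : ℝ) (m : ℕ) : (Wp y0 r d m).natDegree ≤ 2 * m := by
  unfold Wp
  apply (natDegree_prod_le _ _).trans
  calc ∑ i : Fin m, (qp y0 r d i).natDegree ≤ ∑ _i : Fin m, 2 :=
        Finset.sum_le_sum (fun i _ => natDegree_qp y0 r d i)
    _ = 2 * m := by rw [Finset.sum_const, Finset.card_univ, Fintype.card_fin, smul_eq_mul]; ring

theorem natDegree_Wk (y0 r d : ℝ) (m : ℕ) (k : Fin m) :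
    (Wk y0 r d m k).natDegree ≤ 2 * (m - 1) := by
  unfold Wk
  apply (natDegree_prod_le _ _).trans
  calc ∑ i ∈ Finset.univ.erase k, (qp y0 r d i).natDegree ≤ ∑ _i ∈ Finset.univ.erase k, 2 :=
        Finset.sum_le_sum (fun i _ => natDegree_qp y0 r d i)
    _ = 2 * (m - 1) := by
        rw [Finset.sum_const, Finset.card_erase_of_mem (Finset.mem_univ k), Finset.card_univ,
          Fintype.card_fin, smul_eq_mul]; ring

theorem natDegree_lp (y0 r d : ℝ) (g g' : Fin m → ℝ) (k : Fin m) :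
    (lp y0 r d g g' k).natDegree ≤ 1 := by
  unfold lp
  apply (natDegree_add_le _ _).trans
  apply max_le
  · exact (natDegree_C_mul_le _ _).trans (natDegree_X_sub_C_le _)
  · exact (natDegree_C_mul_le _ _).trans (natDegree_X_sub_C_le _)

theorem natDegree_Zp {s : ℕ} (hm : 1 ≤ m) (hΨd : Ψ.natDegree ≤ s) (hQd : Q.natDegree + 1 ≤ s) :
    (Zp y0 r d Ψ Q g g' τ).natDegree ≤ s + 2 * m := by
  unfold Zp
  apply (natDegree_add_le _ _).trans
  apply max_le
  · apply natDegree_mul_le.trans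
    have h1 := natDegree_Wp y0 r d m
    have h2 : ((X - C y0) * Q).natDegree ≤ 1 + Q.natDegree :=
      natDegree_mul_le.trans (add_le_add (natDegree_X_sub_C_le _) le_rfl)
    omega
  · apply (natDegree_C_mul_le _ _).trans
    apply natDegree_mul_le.trans
    have h3 : (∑ k : Fin m, Wk y0 r d m k * lp y0 r d g g' k).natDegree ≤ 2 * (m - 1) + 1 := by
      apply natDegree_sum_le_of_forall_le
      intro k _
      exact natDegree_mul_le.trans (add_le_add (natDegree_Wk y0 r d m k) (natDegree_lp y0 r d g g' k))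
    omega

theorem far_dist (hr : 0 < r) (hd0 : 0 < d) (hd : d ≤ r / 4) {x : ℝ}
    (hx : x ∉ Icc y0 (y0 + 4 * r * m)) (k : Fin m) :
    3 / 4 * r ≤ |x - nd y0 r k| ∧ 3 / 4 * r ≤ |x - (nd y0 r k + d)| := by
  have h1 : (0 : ℝ) ≤ (k : ℕ) := by positivity
  have h2 : ((k : ℕ) : ℝ) + 1 ≤ m := by exact_mod_cast k.2
  have h3 : 0 ≤ 4 * r * (k : ℕ) := by positivity
  have h4 : 4 * r * (((k : ℕ) : ℝ) + 1) ≤ 4 * r * m := mul_le_mul_of_nonneg_left h2 (by positivity)
  rw [mem_Icc, not_and_or, not_le, not_le] at hx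
  unfold nd
  rcases hx with hx | hx
  · constructor
    · rw [le_abs]; right; linarith
    · rw [le_abs]; right; linarith
  · constructor
    · rw [le_abs]; left; linarith
    · rw [le_abs]; left; linarith

theorem sumWk_eq {x : ℝ} (hq : ∀ l : Fin m, qd y0 r d l x ≠ 0) :
    (∑ k : Fin m, Wk y0 r d m k * lp y0 r d g g' k).eval x =
      (Wp y0 r d m).eval x * ∑ l : Fin m, ld y0 r d g g' l x / qd y0 r d l x := by
  rw [eval_finsetSum, Finset.mul_sum]
  apply Finset.sum_congr rfl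
  intro l _
  have hW := congrArg (fun p => eval x p) (Wp_eq y0 r d m l)
  simp only [eval_mul, eval_qp] at hW
  rw [hW, eval_mul, eval_lp]
  have := hq l
  field_simp

theorem Zp_close (h : Hyp m y0 r d B ε G A lam Ψ Q g g') (τ1 τ2 : ℝ) {x : ℝ}
    (hx : x ∉ Icc y0 (y0 + 4 * r * m)) :
    |(Zp y0 r d Ψ Q g g' τ1).eval x - (Zp y0 r d Ψ Q g g' τ2).eval x| ≤
      (|τ1 - τ2| * (m * (3 * G / r))) * |(Wp y0 r d m * Ψ).eval x| := by
  have hr := h.hr
  have hG := h.hG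
  have hdist := far_dist (m := m) h.hr h.hd0 h.hd hx
  have hq : ∀ k : Fin m, qd y0 r d k x ≠ 0 := fun k =>
    qd_ne_of_dist h.hr (by norm_num : (0 : ℝ) < 3 / 4) (hdist k)
  have hsum : |∑ l : Fin m, ld y0 r d g g' l x / qd y0 r d l x| ≤ m * (3 * G / r) := by
    calc |∑ l : Fin m, ld y0 r d g g' l x / qd y0 r d l x|
        ≤ ∑ l : Fin m, |ld y0 r d g g' l x / qd y0 r d l x| := Finset.abs_sum_le_sum_abs _ _
      _ ≤ ∑ _l : Fin m, 3 * G / r := by
          apply Finset.sum_le_sum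
          intro l _
          rw [ld_div_qd l (hq l)]
          have h1 := (div_bd hG (h.hg l) (by positivity : 0 < 3 / 4 * r) (hdist l).1).1
          have h2 := (div_bd hG (h.hg' l) (by positivity : 0 < 3 / 4 * r) (hdist l).2).1
          refine (abs_add_le _ _).trans ((add_le_add h1 h2).trans ?_)
          have e : G / (3 / 4 * r) + G / (3 / 4 * r) = 8 / 3 * (G / r) := by field_simp; ring
          rw [e]
          have e2 : 3 * G / r = 3 * (G / r) := by ring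
          rw [e2]
          have : 0 ≤ G / r := by positivity
          linarith
      _ = m * (3 * G / r) := by rw [Finset.sum_const, nsmul_eq_mul, Finset.card_univ, Fintype.card_fin]
  have e : (Zp y0 r d Ψ Q g g' τ1).eval x - (Zp y0 r d Ψ Q g g' τ2).eval x =
      (τ1 - τ2) * (∑ l : Fin m, ld y0 r d g g' l x / qd y0 r d l x) * (Wp y0 r d m * Ψ).eval x := by
    unfold Zp
    simp only [eval_add, eval_mul, eval_C, sumWk_eq hq]
    ring
  rw [e, abs_mul, abs_mul]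
  apply mul_le_mul_of_nonneg_right _ (abs_nonneg _)
  exact mul_le_mul_of_nonneg_left hsum (abs_nonneg _)

theorem nd0_mem (h : Hyp m y0 r d B ε G A lam Ψ Q g g') (k : Fin m) :
    nd y0 r k ∈ Icc (nd y0 r k - r) (nd y0 r k + r) :=
  ⟨by linarith [h.hr], by linarith [h.hr]⟩

theorem num_ne (h : Hyp m y0 r d B ε G A lam Ψ Q g g') (k : Fin m) (hg : g k ≠ 0) (hτ : τ ≠ 0) :
    derivative (Zp y0 r d Ψ Q g g' τ) * (Wp y0 r d m * Ψ) -
      Zp y0 r d Ψ Q g g' τ * derivative (Wp y0 r d m * Ψ) ≠ 0 := by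
  intro h0
  have h1 := congrArg (fun p => eval (nd y0 r k) p) h0
  have hmem := nd0_mem h k
  have hWk := Wk_eval_ne h.hr h.hd0 h.hd k hmem
  have hΨ := (h.hΨ _ (nd_mem h.hr k hmem)).1
  have hqp : (qp y0 r d k).eval (nd y0 r k) = 0 := by rw [eval_qp]; simp [qd]
  have hWp0 : (Wp y0 r d m).eval (nd y0 r k) = 0 := by
    rw [Wp_eq y0 r d m k, eval_mul, hqp, zero_mul]
  have hqp' : (derivative (qp y0 r d k)).eval (nd y0 r k) = -d := by
    unfold qp
    simp only [derivative_mul, derivative_sub, derivative_X, derivative_C, sub_zero, one_mul,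
      eval_add, eval_mul, eval_sub, eval_X, eval_C, sub_self, zero_mul, add_zero]
    simp
  have hY' : (derivative (Wp y0 r d m * Ψ)).eval (nd y0 r k) =
      -d * (Wk y0 r d m k).eval (nd y0 r k) * Ψ.eval (nd y0 r k) := by
    rw [derivative_mul, eval_add, eval_mul, eval_mul, hWp0, zero_mul, add_zero,
      Wp_eq y0 r d m k, derivative_mul, eval_add, eval_mul, eval_mul, hqp', hqp]
    ring
  have hZ : (Zp y0 r d Ψ Q g g' τ).eval (nd y0 r k) =
      τ * (Ψ.eval (nd y0 r k) * ((Wk y0 r d m k).eval (nd y0 r k) * (g k * (-d)))) := by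
    unfold Zp
    rw [eval_add, eval_mul, hWp0, zero_mul, zero_add, eval_mul, eval_C, eval_mul, eval_finsetSum]
    rw [Finset.sum_eq_single k]
    · rw [eval_mul, eval_lp]
      unfold ld
      ring
    · intro l _ hlk
      have : (Wk y0 r d m l).eval (nd y0 r k) = 0 := by
        unfold Wk
        rw [eval_prod]
        exact Finset.prod_eq_zero (Finset.mem_erase.mpr ⟨Ne.symm hlk, Finset.mem_univ _⟩) hqp
      rw [eval_mul, this, zero_mul]
    · intro h; exact absurd (Finset.mem_univ _) h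
  simp only [eval_sub, eval_mul, eval_zero] at h1
  rw [hY', hZ, hWp0] at h1
  have hd0 := h.hd0.ne'
  have : τ * (Ψ.eval (nd y0 r k) * ((Wk y0 r d m k).eval (nd y0 r k) * (g k * (-d)))) *
      (-d * (Wk y0 r d m k).eval (nd y0 r k) * Ψ.eval (nd y0 r k)) ≠ 0 := by
    have h2 := hΨ.ne'
    have h3 : -d ≠ 0 := neg_ne_zero.mpr hd0
    exact mul_ne_zero (mul_ne_zero hτ (mul_ne_zero h2 (mul_ne_zero hWk (mul_ne_zero hg h3))))
      (mul_ne_zero (mul_ne_zero h3 hWk) h2)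
  apply this
  linarith

/-- Outside the cluster the two polynomials have the same number of zeros, for most b. -/
theorem outside_eq (h : Hyp m y0 r d B ε G A lam Ψ Q g g') {s : ℕ} (hΨd : Ψ.natDegree ≤ s)
    (hQd : Q.natDegree + 1 ≤ s) (k0 : Fin m) (hg0 : g k0 ≠ 0) {τ1 τ2 δ : ℝ} (hτ1 : τ1 ≠ 0)
    (hτ2 : τ2 ≠ 0) (hδ : |τ1 - τ2| * (m * (3 * G / r)) ≤ δ) :
    ∃ F : Finset ℝ, F.card ≤ 18 * (s + 2 * m) + 16 ∧ ∀ b : ℝ, (∀ f ∈ F, δ < |b - f|) →
      nro y0 (y0 + 4 * r * m) (Pp y0 r d Ψ Q g g' b τ1) =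
        nro y0 (y0 + 4 * r * m) (Pp y0 r d Ψ Q g g' b τ2) := by
  classical
  have hr := h.hr
  have hG := h.hG
  have hδ0 : 0 ≤ δ := le_trans (by positivity) hδ
  have hY : Wp y0 r d m * Ψ ≠ 0 := by
    intro h0
    have hn := num_ne h k0 hg0 hτ1
    rw [h0] at hn
    simp at hn
  have hYd : (Wp y0 r d m * Ψ).natDegree ≤ s + 2 * m := by
    apply natDegree_mul_le.trans
    have := natDegree_Wp y0 r d m
    omega
  have hcl : ∀ τ1 τ2 : ℝ, |τ1 - τ2| * (m * (3 * G / r)) ≤ δ → ∀ x, x ∉ Icc y0 (y0 + 4 * r * m) →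
      |(Zp y0 r d Ψ Q g g' τ1).eval x - (Zp y0 r d Ψ Q g g' τ2).eval x| ≤
        δ * |(Wp y0 r d m * Ψ).eval x| := by
    intro τ1 τ2 h1 x hx
    exact (Zp_close h τ1 τ2 hx).trans (mul_le_mul_of_nonneg_right h1 (abs_nonneg _))
  obtain ⟨F1, hF1, hF1'⟩ := band (n := s + 2 * m) hδ0 (hcl τ1 τ2 hδ) hY hYd
    (natDegree_Zp h.hm hΨd hQd) (num_ne h k0 hg0 hτ1) (num_ne h k0 hg0 hτ2)
  obtain ⟨F2, hF2, hF2'⟩ := band (n := s + 2 * m) hδ0 (hcl τ2 τ1 (by rw [abs_sub_comm]; exact hδ))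
    hY hYd (natDegree_Zp h.hm hΨd hQd) (num_ne h k0 hg0 hτ2) (num_ne h k0 hg0 hτ1)
  refine ⟨F1 ∪ F2, (Finset.card_union_le _ _).trans (by omega), ?_⟩
  intro b hb
  apply le_antisymm
  · exact hF1' b (fun f hf => hb f (Finset.mem_union_left _ hf))
  · exact hF2' b (fun f hf => hb f (Finset.mem_union_right _ hf))

/-- Comparison of the two polynomials when the switch is near 1. -/
theorem compare_low (h : Hyp m y0 r d B ε G A lam Ψ Q g g') (hB : 11 / 10 ≤ B)
    (hd : d * (m * G) ≤ ε * r) {τ2 : ℝ} (hτ0 : 0 ≤ τ2) (hτd : τ2 ≤ d) (hτG : τ2 * G ≤ d / 10)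
    (hb1 : 1 ≤ b) (hb2 : b ≤ 11 / 10)
    (hout : nro y0 (y0 + 4 * r * m) (Pp y0 r d Ψ Q g g' b d) =
        nro y0 (y0 + 4 * r * m) (Pp y0 r d Ψ Q g g' b τ2)) :
    nr (Pp y0 r d Ψ Q g g' b d) +
      2 * (Finset.univ.filter (fun k : Fin m => |g k + 1| ≤ 1 / 10 ∧ |g' k - 2| ≤ 1 / 10)).card ≤
      nr (Pp y0 r d Ψ Q g g' b τ2) := by
  classical
  have hG := h.hG
  have hmG : 0 ≤ (m : ℝ) * G := by positivity
  have hτ' : τ2 * (m * G) ≤ ε * r := (mul_le_mul_of_nonneg_right hτd hmG).trans hd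
  rw [nr_split h h.hd0.le hd hb1, nr_split h hτ0 hτ' hb1, hout, add_assoc]
  apply Nat.add_le_add_left
  have hge : ∀ k : Fin m, 2 ≤ zc y0 r (Pp y0 r d Ψ Q g g' b τ2) k := by
    intro k
    have hbd : d / 10 ≤ b * d / 10 := by nlinarith [h.hd0]
    apply zc_ge_two h hτ0 hτ' hb1 k
    · exact ((mul_le_mul_of_nonneg_left (h.hg k) hτ0).trans hτG).trans hbd
    · exact ((mul_le_mul_of_nonneg_left (h.hg' k) hτ0).trans hτG).trans hbd
  have hle : ∀ k : Fin m, zc y0 r (Pp y0 r d Ψ Q g g' b d) k +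
      2 * (if |g k + 1| ≤ 1 / 10 ∧ |g' k - 2| ≤ 1 / 10 then 1 else 0) ≤ 2 := by
    intro k
    split_ifs with hk
    · rw [zc_zero h hd hb1 hb2 k hk.1 hk.2]
    · have := zc_le_two h h.hd0.le hd hb1 (hb2.trans hB) k
      omega
  rw [Finset.card_filter, Finset.mul_sum, ← Finset.sum_add_distrib]
  apply Finset.sum_le_sum
  intro k _
  exact (hle k).trans (hge k)

/-- Comparison of the two polynomials when the switch is large. -/
theorem compare_high (h : Hyp m y0 r d B ε G A lam Ψ Q g g')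
    (hd : d * (m * G) ≤ ε * r) {τ2 : ℝ} (hτ0 : 0 ≤ τ2) (hτd : τ2 ≤ d) {B0 : ℝ} (hB0 : 1 ≤ B0)
    (hb1 : B0 ≤ b) (hb2 : b ≤ B)
    (hout : nro y0 (y0 + 4 * r * m) (Pp y0 r d Ψ Q g g' b d) =
        nro y0 (y0 + 4 * r * m) (Pp y0 r d Ψ Q g g' b τ2)) :
    nr (Pp y0 r d Ψ Q g g' b τ2) ≤ nr (Pp y0 r d Ψ Q g g' b d) +
      2 * (Finset.univ.filter (fun k : Fin m => ¬ (|g k| ≤ B0 / 10 ∧ |g' k| ≤ B0 / 10))).card := by
  classical
  have hG := h.hG
  have hmG : 0 ≤ (m : ℝ) * G := by positivity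
  have hτ' : τ2 * (m * G) ≤ ε * r := (mul_le_mul_of_nonneg_right hτd hmG).trans hd
  have hb : 1 ≤ b := hB0.trans hb1
  rw [nr_split h h.hd0.le hd hb, nr_split h hτ0 hτ' hb, hout, add_assoc]
  apply Nat.add_le_add_left
  have hle : ∀ k : Fin m, zc y0 r (Pp y0 r d Ψ Q g g' b τ2) k ≤ 2 := fun k =>
    zc_le_two h hτ0 hτ' hb hb2 k
  have hge : ∀ k : Fin m, 2 ≤ zc y0 r (Pp y0 r d Ψ Q g g' b d) k +
      2 * (if ¬ (|g k| ≤ B0 / 10 ∧ |g' k| ≤ B0 / 10) then 1 else 0) := by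
    intro k
    by_cases hk : |g k| ≤ B0 / 10 ∧ |g' k| ≤ B0 / 10
    · rw [if_neg (not_not.mpr hk)]
      have h1 : d * (B0 / 10) ≤ b * d / 10 := by nlinarith [h.hd0]
      have := zc_ge_two h h.hd0.le hd hb k
        ((mul_le_mul_of_nonneg_left hk.1 h.hd0.le).trans h1)
        ((mul_le_mul_of_nonneg_left hk.2 h.hd0.le).trans h1)
      omega
    · rw [if_pos hk]; omega
  rw [Finset.card_filter, Finset.mul_sum, ← Finset.sum_add_distrib]
  apply Finset.sum_le_sum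
  intro k _
  exact (hle k).trans (hge k)

end Pool.Agent.Helper553.Orth
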