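import Pool.Agent.Helper553.Orth.Cfg

set_option autoImplicit false
open MeasureTheory ProbabilityTheory Filter Topology Set Polynomial
open scoped ENNReal NNReal

namespace Pool.Agent.Helper553.Orth

variable {y0 r d : ℝ} {m : ℕ} {Ψ Q : ℝ[X]} {g g' : Fin m → ℝ} {b τ B ε G A lam : ℝ}

/-- Far field and its derivatives. -/
noncomputable def fa (y0 r d : ℝ) {m : ℕ} (g g' : Fin m → ℝ) (k : Fin m) (x : ℝ) : ℝ :=
  ∑ l ∈ Finset.univ.erase k, (g l / (x - nd y0 r l) + g' l / (x - (nd y0 r l + d)))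
noncomputable def fa1 (y0 r d : ℝ) {m : ℕ} (g g' : Fin m → ℝ) (k : Fin m) (x : ℝ) : ℝ :=
  ∑ l ∈ Finset.univ.erase k, (-(g l) / (x - nd y0 r l) ^ 2 + -(g' l) / (x - (nd y0 r l + d)) ^ 2)
noncomputable def fa2 (y0 r d : ℝ) {m : ℕ} (g g' : Fin m → ℝ) (k : Fin m) (x : ℝ) : ℝ :=
  ∑ l ∈ Finset.univ.erase k, (2 * g l / (x - nd y0 r l) ^ 3 + 2 * g' l / (x - (nd y0 r l + d)) ^ 3)

theorem hasDerivAt_inv1 (c a x : ℝ) (h : x - a ≠ 0) :
    HasDerivAt (fun x => c / (x - a)) (-c / (x - a) ^ 2) x := by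
  have h1 := ((hasDerivAt_const x c).div ((hasDerivAt_id x).sub_const a) h)
  exact h1.congr_deriv (by simp only [id_eq]; ring)

theorem hasDerivAt_inv2 (c a x : ℝ) (h : x - a ≠ 0) :
    HasDerivAt (fun x => -c / (x - a) ^ 2) (2 * c / (x - a) ^ 3) x := by
  have h1 := ((hasDerivAt_const x (-c)).div (((hasDerivAt_id x).sub_const a).pow 2)
    (pow_ne_zero 2 h))
  exact h1.congr_deriv (by
    simp only [id_eq, Pi.pow_apply, Nat.cast_ofNat]
    field_simp
    ring)

theorem fa_hasDeriv (k : Fin m) {x : ℝ}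
    (h : ∀ l : Fin m, l ≠ k → x - nd y0 r l ≠ 0 ∧ x - (nd y0 r l + d) ≠ 0) :
    HasDerivAt (fa y0 r d g g' k) (fa1 y0 r d g g' k x) x ∧
    HasDerivAt (fa1 y0 r d g g' k) (fa2 y0 r d g g' k x) x := by
  constructor
  · unfold fa fa1
    apply HasDerivAt.fun_sum
    intro l hl
    have := h l (Finset.mem_erase.mp hl).1
    exact (hasDerivAt_inv1 _ _ _ this.1).add (hasDerivAt_inv1 _ _ _ this.2)
  · unfold fa1 fa2
    apply HasDerivAt.fun_sum
    intro l hl
    have := h l (Finset.mem_erase.mp hl).1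
    exact (hasDerivAt_inv2 _ _ _ this.1).add (hasDerivAt_inv2 _ _ _ this.2)

theorem sum_bd (k : Fin m) (t : Fin m → ℝ) (c : ℝ) (hc : 0 ≤ c) (h : ∀ l, l ≠ k → |t l| ≤ c) :
    |∑ l ∈ Finset.univ.erase k, t l| ≤ m * c := by
  calc |∑ l ∈ Finset.univ.erase k, t l| ≤ ∑ l ∈ Finset.univ.erase k, |t l| :=
        Finset.abs_sum_le_sum_abs _ _
    _ ≤ ∑ _l ∈ Finset.univ.erase k, c := Finset.sum_le_sum
        (fun l hl => h l (Finset.mem_erase.mp hl).1)
    _ = ((Finset.univ.erase k).card : ℝ) * c := by rw [Finset.sum_const, nsmul_eq_mul]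
    _ ≤ m * c := by
        apply mul_le_mul_of_nonneg_right _ hc
        have : (Finset.univ.erase k).card ≤ m := by
          have := Finset.card_erase_le (s := (Finset.univ : Finset (Fin m))) (a := k)
          rw [Finset.card_univ, Fintype.card_fin] at this
          exact this
        exact_mod_cast this

theorem div_bd {c G a p : ℝ} (hG : 0 ≤ G) (hc : |c| ≤ G) (hp : 0 < p) (ha : p ≤ |a|) :
    |c / a| ≤ G / p ∧ |(-c) / a ^ 2| ≤ G / p ^ 2 ∧ |2 * c / a ^ 3| ≤ 2 * G / p ^ 3 := by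
  refine ⟨?_, ?_, ?_⟩
  · rw [abs_div]
    exact div_le_div₀ hG hc hp ha
  · rw [abs_div, abs_neg, abs_pow]
    exact div_le_div₀ hG hc (by positivity) (pow_le_pow_left₀ hp.le ha 2)
  · rw [abs_div, abs_mul, abs_two, abs_pow]
    exact div_le_div₀ (by positivity) (by linarith) (by positivity) (pow_le_pow_left₀ hp.le ha 3)

theorem fa_bounds (h : Hyp m y0 r d B ε G A lam Ψ Q g g') (k : Fin m) {x : ℝ}
    (hx : x ∈ Icc (nd y0 r k - r) (nd y0 r k + r)) :
    |fa y0 r d g g' k x| ≤ m * G / r ∧ |fa1 y0 r d g g' k x| ≤ m * G / r ^ 2 ∧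
    |fa2 y0 r d g g' k x| ≤ m * G / r ^ 3 := by
  have hr := h.hr
  have hG := h.hG
  refine ⟨?_, ?_, ?_⟩
  · unfold fa
    refine (sum_bd k _ (G / r) (by positivity) ?_).trans (le_of_eq (by ring))
    intro l hl
    have hd := nd_dist h.hr h.hd0 h.hd k l hl hx
    have h1 := (div_bd hG (h.hg l) (by positivity : 0 < 2 * r) hd.1).1
    have h2 := (div_bd hG (h.hg' l) (by positivity : 0 < 2 * r) hd.2).1
    refine (abs_add_le _ _).trans ((add_le_add h1 h2).trans (le_of_eq ?_))
    field_simp; ring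
  · unfold fa1
    refine (sum_bd k _ (G / r ^ 2) (by positivity) ?_).trans (le_of_eq (by ring))
    intro l hl
    have hd := nd_dist h.hr h.hd0 h.hd k l hl hx
    have h1 := (div_bd hG (h.hg l) (by positivity : 0 < 2 * r) hd.1).2.1
    have h2 := (div_bd hG (h.hg' l) (by positivity : 0 < 2 * r) hd.2).2.1
    refine (abs_add_le _ _).trans ((add_le_add h1 h2).trans ?_)
    have : G / (2 * r) ^ 2 + G / (2 * r) ^ 2 = (G / r ^ 2) * (1 / 2) := by field_simp; ring
    rw [this]
    have : 0 ≤ G / r ^ 2 := by positivity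
    linarith
  · unfold fa2
    refine (sum_bd k _ (G / r ^ 3) (by positivity) ?_).trans (le_of_eq (by ring))
    intro l hl
    have hd := nd_dist h.hr h.hd0 h.hd k l hl hx
    have h1 := (div_bd hG (h.hg l) (by positivity : 0 < 2 * r) hd.1).2.2
    have h2 := (div_bd hG (h.hg' l) (by positivity : 0 < 2 * r) hd.2).2.2
    refine (abs_add_le _ _).trans ((add_le_add h1 h2).trans ?_)
    have : 2 * G / (2 * r) ^ 3 + 2 * G / (2 * r) ^ 3 = (G / r ^ 3) * (1 / 2) := by field_simp; ring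
    rw [this]
    have : 0 ≤ G / r ^ 3 := by positivity
    linarith

/-- The local function near a dipole. -/
noncomputable def Tf (y0 r d : ℝ) {m : ℕ} (Ψ Q : ℝ[X]) (g g' : Fin m → ℝ) (b τ : ℝ) (k : Fin m)
    (x : ℝ) : ℝ :=
  qd y0 r d k x * (b * Ψ.eval x + (x - y0) * Q.eval x + τ * (Ψ.eval x * fa y0 r d g g' k x)) +
        τ * (Ψ.eval x * ld y0 r d g g' k x)

theorem Pp_eq_Tf (h : Hyp m y0 r d B ε G A lam Ψ Q g g') (k : Fin m) {x : ℝ}
    (hx : x ∈ Icc (nd y0 r k - r) (nd y0 r k + r)) :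
    (Pp y0 r d Ψ Q g g' b τ).eval x = (Wk y0 r d m k).eval x * Tf y0 r d Ψ Q g g' b τ k x := by
  have hq : ∀ l : Fin m, l ≠ k → qd y0 r d l x ≠ 0 := fun l hl =>
    qd_ne_of_dist h.hr two_pos (nd_dist h.hr h.hd0 h.hd k l hl hx)
  rw [Pp_local k hq]
  unfold Tf fa
  have : ∑ l ∈ Finset.univ.erase k, ld y0 r d g g' l x / qd y0 r d l x =
      ∑ l ∈ Finset.univ.erase k, (g l / (x - nd y0 r l) + g' l / (x - (nd y0 r l + d))) := by
    apply Finset.sum_congr rfl
    intro l hl
    exact ld_div_qd l (hq l (Finset.mem_erase.mp hl).1)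
  rw [this]
  ring

/-- Number of distinct real roots in the interval around the dipole k. -/
noncomputable def zc (y0 r : ℝ) (P : ℝ[X]) (k : ℕ) : ℕ :=
  (P.roots.toFinset.filter (fun x => x ∈ Icc (nd y0 r k - r) (nd y0 r k + r))).card

/-- Normalised quantities at a point. -/
theorem norm_bounds (h : Hyp m y0 r d B ε G A lam Ψ Q g g') (hτ0 : 0 ≤ τ) (hτ : τ * (m * G) ≤ ε * r)
    (k : Fin m) {x : ℝ} (hx : x ∈ Icc (nd y0 r k - r) (nd y0 r k + r)) :
    |(x - y0) * Q.eval x| ≤ ε * Ψ.eval x ∧ |τ * fa y0 r d g g' k x| ≤ ε := by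
  have hxc := nd_mem h.hr k hx
  have hΨ := (h.hΨ x hxc).1
  have hQ := (h.hQ x hxc).1
  have hr := h.hr
  constructor
  · have h1 : |x - y0| ≤ 4 * r * m := by
      rw [abs_of_nonneg (by linarith [hxc.1])]; linarith [hxc.2]
    refine (am h1 hQ).trans ?_
    have := h.hA
    have h2 : 4 * r * m * (A * Ψ.eval x) = (A * (4 * r * m)) * Ψ.eval x := by ring
    rw [h2]
    exact mul_le_mul_of_nonneg_right h.hA hΨ.le
  · rw [abs_mul, abs_of_nonneg hτ0]
    calc τ * |fa y0 r d g g' k x| ≤ τ * (m * G / r) :=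
          mul_le_mul_of_nonneg_left (fa_bounds h k hx).1 hτ0
      _ = (τ * (m * G)) / r := by ring
      _ ≤ ε := by rw [div_le_iff₀ hr]; exact hτ

theorem zc_le_two (h : Hyp m y0 r d B ε G A lam Ψ Q g g') (hτ0 : 0 ≤ τ)
    (hτ : τ * (m * G) ≤ ε * r) (hb1 : 1 ≤ b) (hbB : b ≤ B) (k : Fin m) :
    zc y0 r (Pp y0 r d Ψ Q g g' b τ) k ≤ 2 := by
  unfold zc
  have hr := h.hr
  let J := Icc (nd y0 r k - r) (nd y0 r k + r)
  let q1 : ℝ → ℝ := fun x => (x - nd y0 r k) + (x - (nd y0 r k + d))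
  let U : ℝ → ℝ := fun x => b * Ψ.eval x + (x - y0) * Q.eval x + τ * (Ψ.eval x * fa y0 r d g g' k x)
  let U1 : ℝ → ℝ := fun x => b * (derivative Ψ).eval x +
    (Q.eval x + (x - y0) * (derivative Q).eval x) +
    τ * ((derivative Ψ).eval x * fa y0 r d g g' k x + Ψ.eval x * fa1 y0 r d g g' k x)
  let U2 : ℝ → ℝ := fun x => b * (derivative (derivative Ψ)).eval x +
    (2 * (derivative Q).eval x + (x - y0) * (derivative (derivative Q)).eval x) +
    τ * ((derivative (derivative Ψ)).eval x * fa y0 r d g g' k x +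
      2 * (derivative Ψ).eval x * fa1 y0 r d g g' k x + Ψ.eval x * fa2 y0 r d g g' k x)
  let f1 : ℝ → ℝ := fun x => q1 x * U x + qd y0 r d k x * U1 x +
    τ * ((derivative Ψ).eval x * ld y0 r d g g' k x + Ψ.eval x * (g k + g' k))
  let f2 : ℝ → ℝ := fun x => 2 * U x + 2 * q1 x * U1 x + qd y0 r d k x * U2 x +
    τ * ((derivative (derivative Ψ)).eval x * ld y0 r d g g' k x +
      2 * (derivative Ψ).eval x * (g k + g' k))
  have hne : ∀ x ∈ J, ∀ l : Fin m, l ≠ k → x - nd y0 r l ≠ 0 ∧ x - (nd y0 r l + d) ≠ 0 := by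
    intro x hx l hl
    have hd := nd_dist h.hr h.hd0 h.hd k l hl hx
    constructor
    · intro h0; rw [h0, abs_zero] at hd; linarith [hd.1]
    · intro h0; rw [h0, abs_zero] at hd; linarith [hd.2]
  have hqd : ∀ x, HasDerivAt (qd y0 r d k) (q1 x) x := by
    intro x
    have h1 := ((hasDerivAt_id x).sub_const (nd y0 r k)).mul
      ((hasDerivAt_id x).sub_const (nd y0 r k + d))
    exact h1.congr_deriv (by simp only [q1, id_eq]; ring)
  have hq1 : ∀ x, HasDerivAt q1 2 x := by
    intro x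
    have h1 := ((hasDerivAt_id x).sub_const (nd y0 r k)).add
      ((hasDerivAt_id x).sub_const (nd y0 r k + d))
    exact h1.congr_deriv (by norm_num)
  have hld : ∀ x, HasDerivAt (ld y0 r d g g' k) (g k + g' k) x := by
    intro x
    have h1 := (((hasDerivAt_id x).sub_const (nd y0 r k + d)).const_mul (g k)).add
      (((hasDerivAt_id x).sub_const (nd y0 r k)).const_mul (g' k))
    exact h1.congr_deriv (by ring)
  have hid : ∀ x, HasDerivAt (fun x => x - y0) 1 x := fun x => (hasDerivAt_id x).sub_const y0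
  have hU : ∀ x ∈ J, HasDerivAt U (U1 x) x := by
    intro x hx
    have hfa := (fa_hasDeriv (g := g) (g' := g') k (hne x hx)).1
    have h1 := (((Ψ.hasDerivAt x).const_mul b).add ((hid x).mul (Q.hasDerivAt x))).add
      (((Ψ.hasDerivAt x).mul hfa).const_mul τ)
    exact h1.congr_deriv (by simp only [U1]; ring)
  have hU1 : ∀ x ∈ J, HasDerivAt U1 (U2 x) x := by
    intro x hx
    have hfa := (fa_hasDeriv (g := g) (g' := g') k (hne x hx)).1
    have hfa1 := (fa_hasDeriv (g := g) (g' := g') k (hne x hx)).2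
    have h1 := ((((derivative Ψ).hasDerivAt x).const_mul b).add
      ((Q.hasDerivAt x).add ((hid x).mul ((derivative Q).hasDerivAt x)))).add
      (((((derivative Ψ).hasDerivAt x).mul hfa).add ((Ψ.hasDerivAt x).mul hfa1)).const_mul τ)
    exact h1.congr_deriv (by simp only [U2]; ring)
  have hf : ∀ x ∈ J, HasDerivAt (Tf y0 r d Ψ Q g g' b τ k) (f1 x) x := by
    intro x hx
    have h1 := ((hqd x).mul (hU x hx)).add (((Ψ.hasDerivAt x).mul (hld x)).const_mul τ)
    exact h1
  have hf1 : ∀ x ∈ J, HasDerivAt f1 (f2 x) x := by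
    intro x hx
    have h1 := (((hq1 x).mul (hU x hx)).add ((hqd x).mul (hU1 x hx))).add
      (((((derivative Ψ).hasDerivAt x).mul (hld x)).add
        ((Ψ.hasDerivAt x).mul_const (g k + g' k))).const_mul τ)
    exact h1.congr_deriv (by simp only [f2]; ring)
  have hpos : ∀ x ∈ J, 0 < f2 x := by
    intro x hx
    have hxc := nd_mem h.hr k hx
    obtain ⟨p0, p1, p2⟩ := h.hΨ x hxc
    obtain ⟨s0, s1, s2⟩ := h.hQ x hxc
    obtain ⟨a0, a1, a2⟩ := fa_bounds h k hx
    have hm1 : (1 : ℝ) ≤ m := by exact_mod_cast h.hm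
    have hε1 : ε ≤ 1 := by nlinarith [h.hε, h.hεB, h.hB]
    have hlr : (lam * r) ^ 2 ≤ ε := by
      have h1 : 0 ≤ lam * r := mul_nonneg h.hlam0 hr.le
      nlinarith [h.hlam, h.hε]
    have hAr : A * r ≤ ε := by
      have h1 : A * r ≤ A * (4 * r * m) := by
        apply mul_le_mul_of_nonneg_left _ h.hA0
        nlinarith
      exact h1.trans h.hA
    have hτG : τ * G ≤ ε * r := by
      refine le_trans ?_ hτ
      apply mul_le_mul_of_nonneg_left _ hτ0
      nlinarith [h.hG]
    have hd4 := h.hd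
    have hd0 := h.hd0
    have hx1 : |x - nd y0 r k| ≤ r := by
      rw [abs_le]; constructor <;> linarith [hx.1, hx.2]
    have hx2 : |x - (nd y0 r k + d)| ≤ (5 / 4) * r := by
      rw [abs_le]; constructor <;> linarith [hx.1, hx.2]
    have hxy : |x - y0| ≤ 4 * r * m := by
      rw [abs_of_nonneg (by linarith [hxc.1])]; linarith [hxc.2]
    have hq1b : |q1 x / r| ≤ 3 := by
      rw [abs_div, abs_of_pos hr, div_le_iff₀ hr]
      refine (abs_add_le _ _).trans ?_
      linarith
    have hq0b : |qd y0 r d k x / r ^ 2| ≤ 2 := by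
      rw [abs_div, abs_of_pos (by positivity : (0 : ℝ) < r ^ 2), div_le_iff₀ (by positivity)]
      unfold qd
      refine (am hx1 hx2).trans ?_
      nlinarith
    have hldb : |ld y0 r d g g' k x| ≤ 3 * (G * r) := by
      unfold ld
      refine (abs_add_le _ _).trans ?_
      have e1 := am (h.hg k) hx2
      have e2 := am (h.hg' k) hx1
      have e3 : 0 ≤ G * r := mul_nonneg h.hG hr.le
      linarith
    have hgg : |g k + g' k| ≤ 2 * G := by
      refine (abs_add_le _ _).trans ?_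
      linarith [h.hg k, h.hg' k]
    set P0 := Ψ.eval x with hP0
    set P1 := (derivative Ψ).eval x with hP1
    set P2 := (derivative (derivative Ψ)).eval x with hP2
    set Q0 := Q.eval x with hQ0
    set Q1 := (derivative Q).eval x with hQ1
    set Q2 := (derivative (derivative Q)).eval x with hQ2
    set A0 := fa y0 r d g g' k x with hA0
    set A1 := fa1 y0 r d g g' k x with hA1
    set A2 := fa2 y0 r d g g' k x with hA2
    have key := norm_ineq (b := b) (B := B) (ε := ε) (u1 := P1 / P0 * r) (u2 := P2 / P0 * r ^ 2)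
      (v0 := Q0 / P0 * r) (v1 := Q1 / P0 * r ^ 2) (x0 := (x - y0) * (Q0 / P0))
      (x1 := (x - y0) * (Q1 / P0) * r) (x2 := (x - y0) * (Q2 / P0) * r ^ 2)
      (F0 := τ * A0) (F1 := τ * A1 * r) (F2 := τ * A2 * r ^ 2)
      (L := τ * ld y0 r d g g' k x / r ^ 2) (L' := τ * (g k + g' k) / r) (q1 := q1 x / r)
      (q0 := qd y0 r d k x / r ^ 2) hb1 hbB h.hε h.hεB
      (by
        rw [abs_mul, abs_div, abs_of_pos p0, abs_of_pos hr, div_mul_eq_mul_div, div_le_iff₀ p0]
        calc |P1| * r ≤ lam * P0 * r := mul_le_mul_of_nonneg_right p1 hr.le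
          _ = lam * r * P0 := by ring
          _ ≤ ε * P0 := mul_le_mul_of_nonneg_right h.hlam p0.le)
      (by
        rw [abs_mul, abs_div, abs_of_pos p0, abs_of_pos (by positivity : (0 : ℝ) < r ^ 2),
          div_mul_eq_mul_div, div_le_iff₀ p0]
        calc |P2| * r ^ 2 ≤ lam ^ 2 * P0 * r ^ 2 := mul_le_mul_of_nonneg_right p2 (by positivity)
          _ = (lam * r) ^ 2 * P0 := by ring
          _ ≤ ε * P0 := mul_le_mul_of_nonneg_right hlr p0.le)
      (by
        rw [abs_mul, abs_div, abs_of_pos p0, abs_of_pos hr, div_mul_eq_mul_div, div_le_iff₀ p0]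
        calc |Q0| * r ≤ A * P0 * r := mul_le_mul_of_nonneg_right s0 hr.le
          _ = A * r * P0 := by ring
          _ ≤ ε * P0 := mul_le_mul_of_nonneg_right hAr p0.le)
      (by
        rw [abs_mul, abs_div, abs_of_pos p0, abs_of_pos (by positivity : (0 : ℝ) < r ^ 2),
          div_mul_eq_mul_div, div_le_iff₀ p0]
        calc |Q1| * r ^ 2 ≤ A * lam * P0 * r ^ 2 := mul_le_mul_of_nonneg_right s1 (by positivity)
          _ = (A * r) * (lam * r) * P0 := by ring
          _ ≤ ε * 1 * P0 := by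
              apply mul_le_mul_of_nonneg_right _ p0.le
              exact mul_le_mul hAr (h.hlam.trans hε1) (mul_nonneg h.hlam0 hr.le) h.hε.le
          _ = ε * P0 := by ring)
      (by
        rw [abs_mul, abs_div, abs_of_pos p0, mul_div_assoc', div_le_iff₀ p0]
        calc |x - y0| * |Q0| ≤ (4 * r * m) * (A * P0) :=
              mul_le_mul hxy s0 (abs_nonneg _) (by positivity)
          _ = A * (4 * r * m) * P0 := by ring
          _ ≤ ε * P0 := mul_le_mul_of_nonneg_right h.hA p0.le)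
      (by
        rw [abs_mul, abs_mul, abs_div, abs_of_pos p0, abs_of_pos hr]
        have e : |x - y0| * (|Q1| / P0) * r = (|x - y0| * |Q1| * r) / P0 := by ring
        rw [e, div_le_iff₀ p0]
        calc |x - y0| * |Q1| * r ≤ (4 * r * m) * (A * lam * P0) * r := by
              apply mul_le_mul_of_nonneg_right _ hr.le
              exact mul_le_mul hxy s1 (abs_nonneg _) (by positivity)
          _ = (A * (4 * r * m)) * (lam * r) * P0 := by ring
          _ ≤ ε * 1 * P0 := by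
              apply mul_le_mul_of_nonneg_right _ p0.le
              exact mul_le_mul h.hA (h.hlam.trans hε1) (mul_nonneg h.hlam0 hr.le) h.hε.le
          _ = ε * P0 := by ring)
      (by
        rw [abs_mul, abs_mul, abs_div, abs_of_pos p0, abs_of_pos (by positivity : (0 : ℝ) < r ^ 2)]
        have e : |x - y0| * (|Q2| / P0) * r ^ 2 = (|x - y0| * |Q2| * r ^ 2) / P0 := by ring
        rw [e, div_le_iff₀ p0]
        calc |x - y0| * |Q2| * r ^ 2 ≤ (4 * r * m) * (A * lam ^ 2 * P0) * r ^ 2 := by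
              apply mul_le_mul_of_nonneg_right _ (by positivity)
              exact mul_le_mul hxy s2 (abs_nonneg _) (by positivity)
          _ = (A * (4 * r * m)) * (lam * r) ^ 2 * P0 := by ring
          _ ≤ ε * 1 * P0 := by
              apply mul_le_mul_of_nonneg_right _ p0.le
              exact mul_le_mul h.hA (hlr.trans hε1) (by positivity) h.hε.le
          _ = ε * P0 := by ring)
      (norm_bounds h hτ0 hτ k hx).2
      (by
        rw [abs_mul, abs_mul, abs_of_nonneg hτ0, abs_of_pos hr]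
        calc τ * |A1| * r ≤ τ * (m * G / r ^ 2) * r := by gcongr
          _ = (τ * (m * G)) / r := by field_simp
          _ ≤ ε := by rw [div_le_iff₀ hr]; exact hτ)
      (by
        rw [abs_mul, abs_mul, abs_of_nonneg hτ0, abs_of_pos (by positivity : (0 : ℝ) < r ^ 2)]
        calc τ * |A2| * r ^ 2 ≤ τ * (m * G / r ^ 3) * r ^ 2 := by gcongr
          _ = (τ * (m * G)) / r := by field_simp
          _ ≤ ε := by rw [div_le_iff₀ hr]; exact hτ)
      (by
        rw [abs_div, abs_mul, abs_of_nonneg hτ0, abs_of_pos (by positivity : (0 : ℝ) < r ^ 2),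
          div_le_iff₀ (by positivity)]
        calc τ * |ld y0 r d g g' k x| ≤ τ * (3 * (G * r)) := by gcongr
          _ = 3 * (τ * G) * r := by ring
          _ ≤ 3 * (ε * r) * r := by gcongr
          _ = 3 * ε * r ^ 2 := by ring)
      (by
        rw [abs_div, abs_mul, abs_of_nonneg hτ0, abs_of_pos hr, div_le_iff₀ hr]
        calc τ * |g k + g' k| ≤ τ * (2 * G) := by gcongr
          _ = 2 * (τ * G) := by ring
          _ ≤ 2 * (ε * r) := by gcongr
          _ = 2 * ε * r := by ring)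
      hq1b hq0b
    have hfin : f2 x = P0 * (2 * (b + (x - y0) * (Q0 / P0) + τ * A0) +
      2 * (q1 x / r) * (b * (P1 / P0 * r) + Q0 / P0 * r + (x - y0) * (Q1 / P0) * r +
        P1 / P0 * r * (τ * A0) + τ * A1 * r) +
      qd y0 r d k x / r ^ 2 * (b * (P2 / P0 * r ^ 2) + 2 * (Q1 / P0 * r ^ 2) +
        (x - y0) * (Q2 / P0) * r ^ 2 + P2 / P0 * r ^ 2 * (τ * A0) +
        2 * (P1 / P0 * r) * (τ * A1 * r) + τ * A2 * r ^ 2) +
      (P2 / P0 * r ^ 2 * (τ * ld y0 r d g g' k x / r ^ 2) +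
        2 * (P1 / P0 * r) * (τ * (g k + g' k) / r))) := by
      simp only [f2, U, U1, U2, ← hP0, ← hP1, ← hP2, ← hQ0, ← hQ1, ← hQ2, ← hA0, ← hA1, ← hA2]
      have := p0.ne'
      have := hr.ne'
      field_simp
      ring
    rw [hfin]
    exact mul_pos p0 key
  apply card_le_two (J := J) ordConnected_Icc (Tf y0 r d Ψ Q g g' b τ k) f1 f2 hf hf1 hpos
  intro x hx
  rw [Finset.mem_filter, Multiset.mem_toFinset] at hx
  refine ⟨hx.2, ?_⟩
  have hroot := isRoot_of_mem_roots hx.1
  rw [IsRoot, Pp_eq_Tf h k hx.2] at hroot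
  exact (mul_eq_zero.mp hroot).resolve_left (Wk_eval_ne h.hr h.hd0 h.hd k hx.2)

end Pool.Agent.Helper553.Orth
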