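import Mathlib

set_option autoImplicit false
open MeasureTheory ProbabilityTheory Filter Topology Set
open scoped ENNReal NNReal

namespace Pool.Agent.Helper553.Orth

variable {ι : Type} [Fintype ι]

/-- Standard Gaussian measure on a finite product. -/
noncomputable def gpi (ι : Type) [Fintype ι] : Measure (ι → ℝ) :=
  Measure.pi (fun _ : ι => gaussianReal 0 1)

noncomputable instance : IsProbabilityMeasure (gpi ι) := by
  unfold gpi; infer_instance

/-- Squared norm. -/
def sqn (x : ι → ℝ) : ℝ := ∑ i, x i ^ 2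

theorem continuous_sqn : Continuous (sqn : (ι → ℝ) → ℝ) := by
  unfold sqn; fun_prop

/-- The Gaussian density. -/
noncomputable def rho (x : ι → ℝ) : ℝ≥0∞ :=
  ENNReal.ofReal ((√(2 * Real.pi))⁻¹ ^ (Fintype.card ι) * Real.exp (-(sqn x) / 2))

theorem measurable_rho : Measurable (rho : (ι → ℝ) → ℝ≥0∞) := by
  unfold rho
  have := (continuous_sqn (ι := ι)).measurable
  fun_prop

theorem prod_pdf (x : ι → ℝ) : ∏ i, gaussianPDFReal 0 1 (x i) =
    (√(2 * Real.pi))⁻¹ ^ (Fintype.card ι) * Real.exp (-(sqn x) / 2) := by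
  unfold gaussianPDFReal sqn
  rw [Finset.prod_mul_distrib, Finset.prod_const, ← Real.exp_sum]
  simp only [NNReal.coe_one, mul_one, sub_zero, Finset.card_univ]
  congr 2
  rw [← Finset.sum_neg_distrib, Finset.sum_div]

theorem gpi_eq : gpi ι = (volume : Measure (ι → ℝ)).withDensity rho := by
  unfold gpi
  apply Measure.pi_eq
  intro s hs
  have hbox : MeasurableSet (univ.pi s) := MeasurableSet.univ_pi hs
  rw [withDensity_apply _ hbox]
  have h1 : ∀ i, gaussianReal 0 1 (s i) =
      ENNReal.ofReal (∫ x, (s i).indicator (gaussianPDFReal 0 1) x) := by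
    intro i
    rw [gaussianReal_apply_eq_integral 0 (by norm_num) (s i), integral_indicator (hs i)]
  simp_rw [h1]
  rw [← ENNReal.ofReal_prod_of_nonneg]
  · rw [← integral_fintype_prod_volume_eq_prod (𝕜 := ℝ)
      (fun i x => (s i).indicator (gaussianPDFReal 0 1) x)]
    have hint : Integrable (fun x : ι → ℝ => ∏ i, (s i).indicator (gaussianPDFReal 0 1) (x i)) := by
      apply Integrable.fintype_prod (f := fun i x => (s i).indicator (gaussianPDFReal 0 1) x)
      intro i
      exact (integrable_gaussianPDFReal 0 1).indicator (hs i)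
    rw [ofReal_integral_eq_lintegral_ofReal hint]
    · rw [← lintegral_indicator hbox]
      apply lintegral_congr
      intro x
      by_cases hx : x ∈ univ.pi s
      · rw [indicator_of_mem hx]
        unfold rho
        rw [← prod_pdf]
        congr 1
        apply Finset.prod_congr rfl
        intro i _
        rw [indicator_of_mem (hx i (mem_univ i))]
      · rw [indicator_of_notMem hx]
        have : ∃ i, x i ∉ s i := by
          by_contra hcon
          push Not at hcon
          exact hx (fun i _ => hcon i)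
        obtain ⟨i, hi⟩ := this
        rw [Finset.prod_eq_zero (Finset.mem_univ i) (indicator_of_notMem hi _)]
        simp
    · apply Eventually.of_forall
      intro x
      apply Finset.prod_nonneg
      intro i _
      exact indicator_nonneg (fun _ _ => gaussianPDFReal_nonneg 0 1 _) _
  · intro i _
    apply integral_nonneg
    intro x
    exact indicator_nonneg (fun _ _ => gaussianPDFReal_nonneg 0 1 _) _

theorem lintegral_gpi (F : (ι → ℝ) → ℝ≥0∞) (hF : Measurable F) :
    ∫⁻ x, F x ∂(gpi ι) = ∫⁻ x, rho x * F x := by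
  rw [gpi_eq, lintegral_withDensity_eq_lintegral_mul _ measurable_rho hF]
  rfl

theorem lintegral_rho : ∫⁻ x : ι → ℝ, rho x = 1 := by
  have h := lintegral_gpi (ι := ι) (fun _ => 1) measurable_const
  simpa using h.symm

theorem lintegral_comp_lin (T : (ι → ℝ) →ₗ[ℝ] (ι → ℝ)) (hT : LinearMap.det T ≠ 0)
    (G : (ι → ℝ) → ℝ≥0∞) (hG : Measurable G) :
    ∫⁻ x, G (T x) = ENNReal.ofReal |(LinearMap.det T)⁻¹| * ∫⁻ x, G x := by
  have h1 := Measure.map_linearMap_addHaar_eq_smul_addHaar (volume : Measure (ι → ℝ)) hT
  have hc : Measurable T := (LinearMap.continuous_of_finiteDimensional T).measurable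
  rw [← lintegral_map hG hc, h1, lintegral_smul_measure]
  rfl

/-- Scaling integral. -/
theorem lintegral_rho_scale (c : ℝ) (hc : 0 < c) :
    ∫⁻ x : ι → ℝ, rho (c • x) = ENNReal.ofReal ((c ^ (Fintype.card ι))⁻¹) := by
  have hdet : LinearMap.det (c • (LinearMap.id : (ι → ℝ) →ₗ[ℝ] (ι → ℝ))) = c ^ (Fintype.card ι) := by
    rw [LinearMap.det_smul, LinearMap.det_id, mul_one, Module.finrank_fintype_fun_eq_card]
  have h := lintegral_comp_lin (c • (LinearMap.id : (ι → ℝ) →ₗ[ℝ] (ι → ℝ)))
    (by rw [hdet]; positivity) rho measurable_rho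
  rw [lintegral_rho, mul_one, hdet, abs_of_pos (by positivity)] at h
  simpa using h

/-- Domination: if T is a contraction with inverse of norm at most L, then the image of the
standard Gaussian measure is at most L^card times the standard Gaussian measure. -/
theorem dom (T : (ι → ℝ) →ₗ[ℝ] (ι → ℝ)) (L : ℝ) (hL : 0 < L)
    (h1 : ∀ x, sqn (T x) ≤ sqn x) (h2 : ∀ x, sqn x ≤ L ^ 2 * sqn (T x))
    (F : (ι → ℝ) → ℝ≥0∞) (hF : Measurable F) :
    ∫⁻ x, F (T x) ∂(gpi ι) ≤ ENNReal.ofReal (L ^ (Fintype.card ι)) * ∫⁻ x, F x ∂(gpi ι) := by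
  have hinj : Function.Injective T := by
    rw [injective_iff_map_eq_zero]
    intro x hx
    have := h2 x
    rw [hx] at this
    have h3 : sqn x ≤ 0 := by
      have h0 : sqn (0 : ι → ℝ) = 0 := by simp [sqn]
      rw [h0, mul_zero] at this
      exact this
    funext i
    have h4 : x i ^ 2 ≤ sqn x := by
      unfold sqn
      exact Finset.single_le_sum (f := fun i => x i ^ 2) (fun _ _ => sq_nonneg _) (Finset.mem_univ i)
    have h5 : x i ^ 2 = 0 := le_antisymm (h4.trans h3) (sq_nonneg _)
    exact pow_eq_zero_iff (two_ne_zero) |>.mp h5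
  have hdet : LinearMap.det T ≠ 0 := by
    intro h0
    have := LinearMap.bot_lt_ker_of_det_eq_zero h0
    rw [LinearMap.ker_eq_bot.mpr hinj] at this
    exact lt_irrefl _ this
  have hTm : Measurable T := (LinearMap.continuous_of_finiteDimensional T).measurable
  -- bound for the determinant
  have hdetb : ENNReal.ofReal |(LinearMap.det T)⁻¹| ≤ ENNReal.ofReal (L ^ (Fintype.card ι)) := by
    have e1 := lintegral_comp_lin T hdet rho measurable_rho
    rw [lintegral_rho, mul_one] at e1
    rw [← e1]
    have e2 : ∀ x : ι → ℝ, rho (T x) ≤ rho ((L⁻¹) • x) := by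
      intro x
      unfold rho
      apply ENNReal.ofReal_le_ofReal
      apply mul_le_mul_of_nonneg_left _ (by positivity)
      apply Real.exp_le_exp.mpr
      have e3 : sqn (L⁻¹ • x) = (L ^ 2)⁻¹ * sqn x := by
        unfold sqn
        rw [Finset.mul_sum]
        apply Finset.sum_congr rfl
        intro i _
        simp only [Pi.smul_apply, smul_eq_mul]
        rw [mul_pow, inv_pow]
      have e4 : sqn (L⁻¹ • x) ≤ sqn (T x) := by
        rw [e3, inv_mul_le_iff₀ (by positivity)]
        exact h2 x
      linarith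
    calc ∫⁻ x, rho (T x) ≤ ∫⁻ x : ι → ℝ, rho (L⁻¹ • x) := lintegral_mono e2
      _ = ENNReal.ofReal (L ^ (Fintype.card ι)) := by
          rw [lintegral_rho_scale _ (by positivity), inv_pow, inv_inv]
  rw [lintegral_gpi (fun x => F (T x)) (hF.comp hTm), lintegral_gpi F hF]
  calc ∫⁻ x, rho x * F (T x) ≤ ∫⁻ x, rho (T x) * F (T x) := by
        apply lintegral_mono
        intro x
        apply mul_le_mul_left
        unfold rho
        apply ENNReal.ofReal_le_ofReal
        apply mul_le_mul_of_nonneg_left _ (by positivity)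
        apply Real.exp_le_exp.mpr
        have := h1 x
        linarith
    _ = ENNReal.ofReal |(LinearMap.det T)⁻¹| * ∫⁻ x, rho x * F x :=
        lintegral_comp_lin T hdet (fun x => rho x * F x) (measurable_rho.mul hF)
    _ ≤ _ := mul_le_mul_left hdetb _

end Pool.Agent.Helper553.Orth
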