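import Pool.Agent.Helper553.Orth.Frame

set_option autoImplicit false
open MeasureTheory ProbabilityTheory Filter Topology Set
open scoped ENNReal NNReal

namespace Pool.Agent.Helper553.Orth

theorem gam_Icc_pos {a b : ℝ} (hab : a < b) : 0 < gaussianReal 0 1 (Icc a b) := by
  rw [pos_iff_ne_zero]
  intro h
  have h1 := gaussianReal_absolutelyContinuous' 0 (one_ne_zero : (1 : ℝ≥0) ≠ 0) h
  rw [Real.volume_Icc, ENNReal.ofReal_eq_zero] at h1
  linarith

theorem gam_small (f δ : ℝ) (_hδ : 0 ≤ δ) :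
    gaussianReal 0 1 {b : ℝ | |b - f| ≤ δ} ≤ ENNReal.ofReal δ := by
  have hset : {b : ℝ | |b - f| ≤ δ} = Icc (f - δ) (f + δ) := by
    ext b
    rw [mem_ofPred_eq, abs_le, mem_Icc]
    constructor <;> intro h <;> constructor <;> linarith [h.1, h.2]
  rw [hset, gaussianReal_apply 0 (one_ne_zero : (1 : ℝ≥0) ≠ 0)]
  have hpdf : ∀ x, gaussianPDF 0 1 x ≤ ENNReal.ofReal (1 / 2) := by
    intro x
    unfold gaussianPDF gaussianPDFReal
    apply ENNReal.ofReal_le_ofReal
    have h1 : (√(2 * Real.pi * ((1 : ℝ≥0) : ℝ)))⁻¹ ≤ 1 / 2 := by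
      rw [NNReal.coe_one, mul_one, one_div]
      apply inv_anti₀ (by norm_num)
      have h0 := Real.pi_gt_three
      apply Real.le_sqrt_of_sq_le
      linarith
    have h2 : Real.exp (-(x - 0) ^ 2 / (2 * ((1 : ℝ≥0) : ℝ))) ≤ 1 := by
      rw [Real.exp_le_one_iff, NNReal.coe_one]
      have := sq_nonneg (x - 0)
      linarith
    calc _ ≤ (1 / 2 : ℝ) * 1 := mul_le_mul h1 h2 (Real.exp_pos _).le (by norm_num)
      _ = 1 / 2 := by norm_num
  calc ∫⁻ x in Icc (f - δ) (f + δ), gaussianPDF 0 1 x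
      ≤ ∫⁻ _x in Icc (f - δ) (f + δ), ENNReal.ofReal (1 / 2) := lintegral_mono hpdf
    _ = ENNReal.ofReal (1 / 2) * ENNReal.ofReal (2 * δ) := by
        rw [setLIntegral_const, Real.volume_Icc]
        congr 2
        ring
    _ = ENNReal.ofReal δ := by
        rw [← ENNReal.ofReal_mul (by norm_num)]
        congr 1
        ring

theorem gam_tail {N : ℝ} (hN : 0 < N) :
    gaussianReal 0 1 {x : ℝ | N < |x|} ≤ ENNReal.ofReal (1 / N ^ 2) := by
  have hmem : MemLp (fun x : ℝ => x) 2 (gaussianReal 0 1) := memLp_id_gaussianReal' 2 (by norm_num)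
  have h1 := meas_ge_le_variance_div_sq hmem hN
  have h2 : Var[fun x : ℝ => x; gaussianReal 0 1] = 1 := by
    have h0 := variance_fun_id_gaussianReal (μ := 0) (v := 1)
    rw [h0, NNReal.coe_one]
  have h3 : ∫ x, x ∂(gaussianReal 0 1) = 0 := integral_id_gaussianReal
  rw [h2, h3] at h1
  refine (measure_mono ?_).trans h1
  intro x hx
  rw [mem_ofPred_eq] at hx ⊢
  rw [sub_zero]
  exact hx.le

theorem gam_finset (F : Finset ℝ) (δ : ℝ) (hδ : 0 ≤ δ) :
    gaussianReal 0 1 {b : ℝ | ∃ f ∈ F, |b - f| ≤ δ} ≤ ENNReal.ofReal (F.card * δ) := by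
  have hset : {b : ℝ | ∃ f ∈ F, |b - f| ≤ δ} = ⋃ f ∈ F, {b : ℝ | |b - f| ≤ δ} := by
    ext b; simp
  rw [hset]
  calc gaussianReal 0 1 (⋃ f ∈ F, {b : ℝ | |b - f| ≤ δ})
      ≤ ∑ f ∈ F, gaussianReal 0 1 {b : ℝ | |b - f| ≤ δ} := measure_biUnion_finset_le _ _
    _ ≤ ∑ _f ∈ F, ENNReal.ofReal δ := Finset.sum_le_sum (fun f _ => gam_small f δ hδ)
    _ = ENNReal.ofReal (F.card * δ) := by
        rw [Finset.sum_const, nsmul_eq_mul, ENNReal.ofReal_mul (by positivity),
          ENNReal.ofReal_natCast]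

/-- Two variables whose difference takes far apart values cannot both be concentrated. -/
theorem inner_bound {N1 N2 : ℝ → ℕ} {S1 S2 : Set ℝ} (hS1 : MeasurableSet S1)
    (hS2 : MeasurableSet S2) {p α β : ℝ}
    (hp1 : ENNReal.ofReal p ≤ gaussianReal 0 1 S1) (hp2 : ENNReal.ofReal p ≤ gaussianReal 0 1 S2)
    (hαβ : β ≤ α) (h1 : ∀ b ∈ S1, (N1 b : ℝ) + α ≤ N2 b)
    (h2 : ∀ b ∈ S2, (N2 b : ℝ) ≤ N1 b + β) (c1 c2 : ℝ) :
    ENNReal.ofReal (p * ((α - β) ^ 2 / 8)) ≤
      ∫⁻ b, ENNReal.ofReal (((N1 b : ℝ) - c1) ^ 2 + ((N2 b : ℝ) - c2) ^ 2) ∂(gaussianReal 0 1) := by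
  have key : ∀ S : Set ℝ, MeasurableSet S → ENNReal.ofReal p ≤ gaussianReal 0 1 S →
      (∀ b ∈ S, (α - β) ^ 2 / 8 ≤ ((N1 b : ℝ) - c1) ^ 2 + ((N2 b : ℝ) - c2) ^ 2) →
      ENNReal.ofReal (p * ((α - β) ^ 2 / 8)) ≤
      ∫⁻ b, ENNReal.ofReal (((N1 b : ℝ) - c1) ^ 2 + ((N2 b : ℝ) - c2) ^ 2) ∂(gaussianReal 0 1) := by
    intro S hS hpS hb
    calc ENNReal.ofReal (p * ((α - β) ^ 2 / 8))
        = ENNReal.ofReal ((α - β) ^ 2 / 8) * ENNReal.ofReal p := by
          rw [← ENNReal.ofReal_mul (by positivity), mul_comm]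
      _ ≤ ENNReal.ofReal ((α - β) ^ 2 / 8) * gaussianReal 0 1 S := mul_le_mul_right hpS _
      _ = ∫⁻ _b in S, ENNReal.ofReal ((α - β) ^ 2 / 8) ∂(gaussianReal 0 1) := by
          rw [setLIntegral_const]
      _ ≤ ∫⁻ b in S, ENNReal.ofReal (((N1 b : ℝ) - c1) ^ 2 + ((N2 b : ℝ) - c2) ^ 2)
            ∂(gaussianReal 0 1) :=
          setLIntegral_mono' hS (fun b hbS => ENNReal.ofReal_le_ofReal (hb b hbS))
      _ ≤ _ := setLIntegral_le_lintegral _ _
  by_cases hc : c2 - c1 ≤ (α + β) / 2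
  · apply key S1 hS1 hp1
    intro b hb
    have e1 := h1 b hb
    have e2 : (α - β) / 2 ≤ ((N2 b : ℝ) - c2) - ((N1 b : ℝ) - c1) := by linarith
    have e3 : 0 ≤ (α - β) / 2 := by linarith
    nlinarith [sq_nonneg (((N2 b : ℝ) - c2) + ((N1 b : ℝ) - c1))]
  · push Not at hc
    apply key S2 hS2 hp2
    intro b hb
    have e1 := h2 b hb
    have e2 : (α - β) / 2 ≤ ((N1 b : ℝ) - c1) - ((N2 b : ℝ) - c2) := by linarith
    have e3 : 0 ≤ (α - β) / 2 := by linarith
    nlinarith [sq_nonneg (((N2 b : ℝ) - c2) + ((N1 b : ℝ) - c1))]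

variable {κ : Type} [Fintype κ]

theorem map_e : ((gaussianReal 0 1).prod (gpi κ)).map
    (fun p : ℝ × (κ → ℝ) => (Sum.elim (fun _ : Unit => p.1) p.2 : Unit ⊕ κ → ℝ)) =
      gpi (Unit ⊕ κ) := by
  symm
  unfold gpi
  apply Measure.pi_eq
  intro s hs
  have hm : Measurable (fun p : ℝ × (κ → ℝ) => (Sum.elim (fun _ : Unit => p.1) p.2 : Unit ⊕ κ → ℝ)) := by
    apply measurable_pi_lambda
    rintro (i | i)
    · exact measurable_fst
    · exact (measurable_pi_apply i).comp measurable_snd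
  rw [Measure.map_apply hm (MeasurableSet.univ_pi hs)]
  have hpre : (fun p : ℝ × (κ → ℝ) => (Sum.elim (fun _ : Unit => p.1) p.2 : Unit ⊕ κ → ℝ)) ⁻¹'
      (univ.pi s) = (s (Sum.inl ())) ×ˢ (univ.pi (fun i => s (Sum.inr i))) := by
    ext p
    simp only [mem_preimage, mem_univ_pi, mem_prod, Sum.forall, Sum.elim_inl, Sum.elim_inr]
    constructor
    · rintro ⟨h1, h2⟩; exact ⟨h1 (), h2⟩
    · rintro ⟨h1, h2⟩; exact ⟨fun _ => h1, h2⟩
  rw [hpre, Measure.prod_prod, Measure.pi_pi, Fintype.prod_sum_type]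
  simp

theorem gpi_eval (i : κ) (S : Set ℝ) (hS : MeasurableSet S) :
    gpi κ {y | y i ∈ S} = gaussianReal 0 1 S := by
  have h := measurePreserving_eval (fun _ : κ => gaussianReal 0 1) i
  exact h.measure_preimage hS.nullMeasurableSet

theorem gpi_pair [DecidableEq κ] {a b : κ} (hab : a ≠ b) (S T : Set ℝ) :
    gpi κ {y | y a ∈ S ∧ y b ∈ T} = gaussianReal 0 1 S * gaussianReal 0 1 T := by
  have hset : {y : κ → ℝ | y a ∈ S ∧ y b ∈ T} =
      univ.pi (fun i => if i = a then S else if i = b then T else univ) := by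
    ext y
    simp only [mem_ofPred_eq, mem_univ_pi]
    constructor
    · rintro ⟨h1, h2⟩ i
      split_ifs with e1 e2
      · rw [e1]; exact h1
      · rw [e2]; exact h2
      · trivial
    · intro h
      have h1 := h a
      have h2 := h b
      rw [if_pos rfl] at h1
      rw [if_neg (Ne.symm hab), if_pos rfl] at h2
      exact ⟨h1, h2⟩
  rw [hset, gpi, Measure.pi_pi]
  rw [← Finset.mul_prod_erase _ _ (Finset.mem_univ a)]
  rw [← Finset.mul_prod_erase (Finset.univ.erase a) _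
    (Finset.mem_erase.mpr ⟨Ne.symm hab, Finset.mem_univ b⟩)]
  rw [if_pos rfl, if_neg (Ne.symm hab), if_pos rfl]
  rw [Finset.prod_eq_one, mul_one]
  intro i hi
  rw [Finset.mem_erase, Finset.mem_erase] at hi
  rw [if_neg hi.2.1, if_neg hi.1, measure_univ]

variable {Ω : Type} [MeasurableSpace Ω]

theorem count_lintegral {m : ℕ} (P : Measure Ω) (E : Fin m → Set Ω)
    (hE : ∀ k, MeasurableSet (E k)) [∀ ω, DecidablePred (fun k => ω ∈ E k)] :
    ∫⁻ ω, ((Finset.univ.filter (fun k => ω ∈ E k)).card : ℝ≥0∞) ∂P = ∑ k, P (E k) := by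
  have h1 : ∀ ω, ((Finset.univ.filter (fun k => ω ∈ E k)).card : ℝ≥0∞) =
      ∑ k, (E k).indicator (fun _ => (1 : ℝ≥0∞)) ω := by
    intro ω
    rw [Finset.card_filter]
    push_cast
    apply Finset.sum_congr rfl
    intro k _
    simp only [indicator]
  simp_rw [h1]
  rw [lintegral_finsetSum _ (fun k _ => measurable_const.indicator (hE k))]
  apply Finset.sum_congr rfl
  intro k _
  rw [lintegral_indicator (hE k)]
  simp

theorem count_measurable {m : ℕ} (E : Fin m → Set Ω)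
    (hE : ∀ k, MeasurableSet (E k)) [∀ ω, DecidablePred (fun k => ω ∈ E k)] :
    Measurable (fun ω => ((Finset.univ.filter (fun k => ω ∈ E k)).card : ℝ)) := by
  have h1 : (fun ω => ((Finset.univ.filter (fun k => ω ∈ E k)).card : ℝ)) =
      fun ω => ∑ k, (E k).indicator (fun _ => (1 : ℝ)) ω := by
    funext ω
    rw [Finset.card_filter]
    push_cast
    apply Finset.sum_congr rfl
    intro k _
    simp only [indicator]
  rw [h1]
  exact Finset.measurable_sum _ (fun k _ => measurable_const.indicator (hE k))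

/-- Many events of probability at least p: at least half the expected number occurs with
probability at least p/2. -/
theorem count_ge {m : ℕ} (hm : 1 ≤ m) (P : Measure Ω) [IsProbabilityMeasure P] (E : Fin m → Set Ω)
    (hE : ∀ k, MeasurableSet (E k)) [∀ ω, DecidablePred (fun k => ω ∈ E k)] {p : ℝ} (hp : 0 ≤ p)
    (hpE : ∀ k, ENNReal.ofReal p ≤ P (E k)) :
    ENNReal.ofReal (p / 2) ≤
      P {ω | p * m / 2 ≤ ((Finset.univ.filter (fun k => ω ∈ E k)).card : ℝ)} := by
  set T := {ω | p * m / 2 ≤ ((Finset.univ.filter (fun k => ω ∈ E k)).card : ℝ)} with hT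
  have hTm : MeasurableSet T := measurableSet_le measurable_const (count_measurable E hE)
  have h1 : ENNReal.ofReal (p * m) ≤ ∑ k, P (E k) := by
    calc ENNReal.ofReal (p * m) = ∑ _k : Fin m, ENNReal.ofReal p := by
          rw [Finset.sum_const, nsmul_eq_mul, Finset.card_univ, Fintype.card_fin,
            ENNReal.ofReal_mul hp, ENNReal.ofReal_natCast, mul_comm]
      _ ≤ _ := Finset.sum_le_sum (fun k _ => hpE k)
  rw [← count_lintegral P E hE] at h1
  have h2 : ∫⁻ ω, ((Finset.univ.filter (fun k => ω ∈ E k)).card : ℝ≥0∞) ∂P ≤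
      ∫⁻ ω, (ENNReal.ofReal (p * m / 2) + T.indicator (fun _ => (m : ℝ≥0∞)) ω) ∂P := by
    apply lintegral_mono
    intro ω
    beta_reduce
    by_cases hω : ω ∈ T
    · rw [indicator_of_mem hω]
      apply le_add_left
      have : (Finset.univ.filter (fun k => ω ∈ E k)).card ≤ m := by
        have := Finset.card_filter_le (Finset.univ : Finset (Fin m)) (fun k => ω ∈ E k)
        rw [Finset.card_univ, Fintype.card_fin] at this
        exact this
      exact_mod_cast this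
    · rw [indicator_of_notMem hω, add_zero]
      rw [hT, mem_ofPred_eq, not_le] at hω
      rw [← ENNReal.ofReal_natCast]
      exact ENNReal.ofReal_le_ofReal hω.le
  rw [lintegral_add_left measurable_const, lintegral_const, measure_univ, mul_one,
    lintegral_indicator hTm, setLIntegral_const] at h2
  have h3 := h1.trans h2
  have hm' : (0 : ℝ) < m := by exact_mod_cast hm
  obtain ⟨q, hq0, hq⟩ : ∃ q : ℝ, 0 ≤ q ∧ P T = ENNReal.ofReal q :=
    ⟨_, ENNReal.toReal_nonneg, (ENNReal.ofReal_toReal (measure_ne_top _ _)).symm⟩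
  rw [hq] at h3 ⊢
  rw [← ENNReal.ofReal_natCast, ← ENNReal.ofReal_mul hm'.le,
    ← ENNReal.ofReal_add (by positivity) (by positivity),
    ENNReal.ofReal_le_ofReal_iff (by positivity)] at h3
  apply ENNReal.ofReal_le_ofReal
  have h4 : p * m / 2 ≤ m * q := by linarith
  have h5 : (p / 2) * m ≤ q * m := by linarith
  exact le_of_mul_le_mul_right h5 hm'

/-- Markov bound for the number of occurring events. -/
theorem count_le {m : ℕ} (hm : 1 ≤ m) (P : Measure Ω) [IsProbabilityMeasure P] (E : Fin m → Set Ω)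
    (hE : ∀ k, MeasurableSet (E k)) [∀ ω, DecidablePred (fun k => ω ∈ E k)] {q θ : ℝ} (hq : 0 ≤ q)
    (hθ : 0 < θ) (hqE : ∀ k, P (E k) ≤ ENNReal.ofReal q) :
    P {ω | θ * m < ((Finset.univ.filter (fun k => ω ∈ E k)).card : ℝ)} ≤
      ENNReal.ofReal (q / θ) := by
  have hm' : (0 : ℝ) < m := by exact_mod_cast hm
  have h1 : ∑ k, P (E k) ≤ ENNReal.ofReal (q * m) := by
    calc ∑ k, P (E k) ≤ ∑ _k : Fin m, ENNReal.ofReal q := Finset.sum_le_sum (fun k _ => hqE k)
      _ = ENNReal.ofReal (q * m) := by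
          rw [Finset.sum_const, nsmul_eq_mul, Finset.card_univ, Fintype.card_fin,
            ENNReal.ofReal_mul hq, ENNReal.ofReal_natCast, mul_comm]
  rw [← count_lintegral P E hE] at h1
  have hmeas : Measurable (fun ω => ENNReal.ofReal
      ((Finset.univ.filter (fun k => ω ∈ E k)).card : ℝ)) :=
    (count_measurable E hE).ennreal_ofReal
  have h2 := mul_meas_ge_le_lintegral (μ := P) hmeas (ENNReal.ofReal (θ * m))
  have h3 : P {ω | θ * m < ((Finset.univ.filter (fun k => ω ∈ E k)).card : ℝ)} ≤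
      P {ω | ENNReal.ofReal (θ * m) ≤ ENNReal.ofReal
        ((Finset.univ.filter (fun k => ω ∈ E k)).card : ℝ)} := by
    apply measure_mono
    intro ω hω
    rw [mem_ofPred_eq] at hω ⊢
    exact ENNReal.ofReal_le_ofReal hω.le
  obtain ⟨x, hx0, hx⟩ : ∃ x : ℝ, 0 ≤ x ∧
      P {ω | θ * m < ((Finset.univ.filter (fun k => ω ∈ E k)).card : ℝ)} = ENNReal.ofReal x :=
    ⟨_, ENNReal.toReal_nonneg, (ENNReal.ofReal_toReal (measure_ne_top _ _)).symm⟩
  have h4 : ENNReal.ofReal (θ * m) * ENNReal.ofReal x ≤ ENNReal.ofReal (q * m) := by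
    rw [← hx]
    refine (mul_le_mul_right h3 _).trans (h2.trans (le_trans (le_of_eq ?_) h1))
    apply lintegral_congr
    intro ω
    rw [ENNReal.ofReal_natCast]
  rw [hx]
  apply ENNReal.ofReal_le_ofReal
  rw [← ENNReal.ofReal_mul (by positivity), ENNReal.ofReal_le_ofReal_iff (by positivity)] at h4
  rw [le_div_iff₀ hθ]
  have h5 : (x * θ) * m ≤ q * m := by linarith
  exact le_of_mul_le_mul_right h5 hm'

end Pool.Agent.Helper553.Orth
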