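import Pool.Agent.Helper553.Orth.Det
import Pool.Agent.Helper553.Orth.Prob

set_option autoImplicit false
open MeasureTheory ProbabilityTheory Filter Topology Set Polynomial
open scoped ENNReal NNReal

namespace Pool.Agent.Helper553.Orth

/-- Integration of polynomials. -/
noncomputable def II {ν : Measure ℝ} (h : UMeas ν) : ℝ[X] →ₗ[ℝ] ℝ where
  toFun f := ∫ t, f.eval t ∂ν
  map_add' f g := by
    simp only [eval_add]
    exact integral_add (h.integrable_poly f) (h.integrable_poly g)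
  map_smul' a f := by
    simp only [eval_smul, smul_eq_mul, RingHom.id_apply]
    exact integral_const_mul a _

theorem ip_eq {ν : Measure ℝ} (h : UMeas ν) (p q : ℝ[X]) : ip ν p q = II h (p * q) := by
  show ∫ t, p.eval t * q.eval t ∂ν = ∫ t, (p * q).eval t ∂ν
  simp only [eval_mul]

/-- Weighted functional. -/
noncomputable def Lw {ν : Measure ℝ} (h : UMeas ν) (w : ℝ[X]) : ℝ[X] →ₗ[ℝ] ℝ :=
  (II h).comp (LinearMap.mulLeft ℝ w)

theorem Lw_apply {ν : Measure ℝ} (h : UMeas ν) (w f : ℝ[X]) : Lw h w f = II h (w * f) := rfl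

/-- The base measure: lives on the interval from 0 to 1-2 eta, and is positive on nonzero
polynomials that are nonnegative there. -/
structure Base (ν : Measure ℝ) (η : ℝ) : Prop where
  hU : UMeas ν
  hη : 0 < η
  hη1 : η ≤ 1 / 4
  supp : ν (Icc (0 : ℝ) (1 - 2 * η))ᶜ = 0
  pos : ∀ f : ℝ[X], f ≠ 0 → (∀ t ∈ Icc (0 : ℝ) (1 - 2 * η), 0 ≤ f.eval t) →
    0 < ∫ t, f.eval t ∂ν

theorem Base.ae {ν : Measure ℝ} {η : ℝ} (hB : Base ν η) : ∀ᵐ t ∂ν, t ∈ Icc (0 : ℝ) (1 - 2 * η) := by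
  have := measure_eq_zero_iff_ae_notMem.mp hB.supp
  filter_upwards [this] with t ht
  exact not_not.mp ht

theorem Base.II_mono {ν : Measure ℝ} {η : ℝ} (hB : Base ν η) {f g : ℝ[X]}
    (h : ∀ t ∈ Icc (0 : ℝ) (1 - 2 * η), f.eval t ≤ g.eval t) : II hB.hU f ≤ II hB.hU g := by
  show ∫ t, f.eval t ∂ν ≤ ∫ t, g.eval t ∂ν
  apply integral_mono_ae (hB.hU.integrable_poly f) (hB.hU.integrable_poly g)
  filter_upwards [hB.ae] with t ht
  exact h t ht

theorem Base.II_pos {ν : Measure ℝ} {η : ℝ} (hB : Base ν η) {f : ℝ[X]} (hf : f ≠ 0)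
    (h : ∀ t ∈ Icc (0 : ℝ) (1 - 2 * η), 0 ≤ f.eval t) : 0 < II hB.hU f := hB.pos f hf h

theorem posF_Lw {ν : Measure ℝ} {η : ℝ} (hB : Base ν η) {w : ℝ[X]} (hw : w ≠ 0)
    (h : ∀ t ∈ Icc (0 : ℝ) (1 - 2 * η), 0 ≤ w.eval t) : PosF (Lw hB.hU w) := by
  intro p hp
  rw [Lw_apply]
  apply hB.II_pos (mul_ne_zero hw (mul_ne_zero hp hp))
  intro t ht
  rw [eval_mul, eval_mul]
  exact mul_nonneg (h t ht) (mul_self_nonneg _)

theorem hc_Lw {ν : Measure ℝ} {η : ℝ} (hB : Base ν η) {w : ℝ[X]} (hw : w ≠ 0)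
    (h : ∀ t ∈ Icc (0 : ℝ) (1 - 2 * η), 0 ≤ w.eval t) (z : ℝ) (hz : 1 - 2 * η < z) (q : ℝ[X])
    (hq : q ≠ 0) : 0 < Lw hB.hU w ((C z - X) * (q * q)) := by
  rw [Lw_apply]
  have hzX : (C z - X : ℝ[X]) ≠ 0 := by
    intro h0
    have : (X - C z : ℝ[X]) = 0 := by rw [← neg_sub, h0, neg_zero]
    exact X_sub_C_ne_zero z this
  apply hB.II_pos (mul_ne_zero hw (mul_ne_zero hzX (mul_ne_zero hq hq)))
  intro t ht
  rw [eval_mul, eval_mul, eval_mul, eval_sub, eval_C, eval_X]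
  exact mul_nonneg (h t ht) (mul_nonneg (by linarith [ht.2]) (mul_self_nonneg _))

/-- Existence of the family. -/
theorem family {ν : Measure ℝ} {η : ℝ} (hB : Base ν η) {W : ℝ[X]} (hW : W ≠ 0) (s : ℕ)
    (hs : 1 ≤ s) : ∃ (Ψ : ℝ[X]) (t : ℕ → ℝ[X]),
      Ψ.natDegree = s ∧ RB (1 - 2 * η) Ψ ∧ 0 < Ψ.leadingCoeff ∧
      II hB.hU (W * Ψ * (W * Ψ)) = 1 ∧
      (∀ f : ℝ[X], f.natDegree < s → II hB.hU (W * Ψ * (W * ((X - C (1 - η)) * f))) = 0) ∧
      (∀ j, (t j).natDegree = j) ∧ (∀ j, RB (1 - 2 * η) (t j)) ∧ (∀ j, 0 < (t j).leadingCoeff) ∧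
      (∀ i j, II hB.hU (W * ((X - C (1 - η)) * t i) * (W * ((X - C (1 - η)) * t j))) =
        if i = j then 1 else 0) := by
  classical
  have hη := hB.hη
  have hXy : (X - C (1 - η) : ℝ[X]) ≠ 0 := X_sub_C_ne_zero _
  have hyX : (C (1 - η) - X : ℝ[X]) ≠ 0 := by
    intro h0; apply hXy; rw [← neg_sub, h0, neg_zero]
  -- the first functional
  set w1 : ℝ[X] := (C (1 - η) - X) * (W * W) with hw1
  have hw1ne : w1 ≠ 0 := mul_ne_zero hyX (mul_ne_zero hW hW)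
  have hw1nn : ∀ t ∈ Icc (0 : ℝ) (1 - 2 * η), 0 ≤ w1.eval t := by
    intro t ht
    rw [hw1, eval_mul, eval_mul, eval_sub, eval_C, eval_X]
    exact mul_nonneg (by linarith [ht.2]) (mul_self_nonneg _)
  set w2 : ℝ[X] := (X - C (1 - η)) * (X - C (1 - η)) * (W * W) with hw2
  have hw2ne : w2 ≠ 0 := mul_ne_zero (mul_ne_zero hXy hXy) (mul_ne_zero hW hW)
  have hw2nn : ∀ t ∈ Icc (0 : ℝ) (1 - 2 * η), 0 ≤ w2.eval t := by
    intro t _
    rw [hw2, eval_mul, eval_mul, eval_mul]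
    exact mul_nonneg (mul_self_nonneg _) (mul_self_nonneg _)
  have hP1 := posF_Lw hB hw1ne hw1nn
  have hP2 := posF_Lw hB hw2ne hw2nn
  set q1 := oq (Lw hB.hU w1) with hq1
  set q2 := oq (Lw hB.hU w2) with hq2
  have hq1m := oq_monic (Lw hB.hU w1)
  have hq2m := oq_monic (Lw hB.hU w2)
  -- normalisations
  set n1 : ℝ := II hB.hU (W * q1 s * (W * q1 s)) with hn1
  have hn1pos : 0 < n1 := by
    have hne : W * q1 s ≠ 0 := mul_ne_zero hW (hq1m s).1.ne_zero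
    apply hB.II_pos (mul_ne_zero hne hne)
    intro t _
    rw [eval_mul]
    exact mul_self_nonneg _
  set a1 : ℝ := (√n1)⁻¹ with ha1
  have ha1pos : 0 < a1 := by rw [ha1]; positivity
  have ha1sq : a1 * a1 * n1 = 1 := by
    rw [ha1, ← mul_inv, Real.mul_self_sqrt hn1pos.le]
    exact inv_mul_cancel₀ hn1pos.ne'
  have hn2pos : ∀ j, 0 < Lw hB.hU w2 (q2 j * q2 j) := fun j => hP2 _ (hq2m j).1.ne_zero
  set a2 : ℕ → ℝ := fun j => (√(Lw hB.hU w2 (q2 j * q2 j)))⁻¹ with ha2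
  have ha2pos : ∀ j, 0 < a2 j := by
    intro j
    have := hn2pos j
    show 0 < (√(Lw hB.hU w2 (q2 j * q2 j)))⁻¹
    positivity
  refine ⟨C a1 * q1 s, fun j => C (a2 j) * q2 j, ?_, ?_, ?_, ?_, ?_, ?_, ?_, ?_, ?_⟩
  · rw [natDegree_C_mul ha1pos.ne', (hq1m s).2]
  · obtain ⟨h1, h2⟩ := oq_RB (Lw hB.hU w1) hP1 (1 - 2 * η) (hc_Lw hB hw1ne hw1nn) s
    refine ⟨mul_ne_zero (C_ne_zero.mpr ha1pos.ne') h1, fun z hz => h2 z ?_⟩
    rw [map_mul, aeval_C, mul_eq_zero] at hz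
    rcases hz with hz | hz
    · exfalso
      have : a1 = 0 := (algebraMap ℝ ℂ).injective (by rw [hz, map_zero])
      exact ha1pos.ne' this
    · exact hz
  · rw [leadingCoeff_mul, leadingCoeff_C, (hq1m s).1.leadingCoeff, mul_one]
    exact ha1pos
  · have e : W * (C a1 * q1 s) * (W * (C a1 * q1 s)) = C (a1 * a1) * (W * q1 s * (W * q1 s)) := by
      rw [C_mul]; ring
    rw [e, ← smul_eq_C_mul, map_smul, smul_eq_mul]
    exact ha1sq
  · intro f hf
    have h1 := oq_orth_poly (Lw hB.hU w1) hP1 s hs f hf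
    rw [Lw_apply] at h1
    have e : W * (C a1 * q1 s) * (W * ((X - C (1 - η)) * f)) =
        C (-a1) * (w1 * (oq (Lw hB.hU w1) s * f)) := by
      rw [hw1, map_neg]
      ring
    rw [e, ← smul_eq_C_mul, map_smul, h1, smul_zero]
  · intro j
    rw [natDegree_C_mul (ha2pos j).ne', (hq2m j).2]
  · intro j
    obtain ⟨h1, h2⟩ := oq_RB (Lw hB.hU w2) hP2 (1 - 2 * η) (hc_Lw hB hw2ne hw2nn) j
    refine ⟨mul_ne_zero (C_ne_zero.mpr (ha2pos j).ne') h1, fun z hz => h2 z ?_⟩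
    rw [map_mul, aeval_C, mul_eq_zero] at hz
    rcases hz with hz | hz
    · exfalso
      have : a2 j = 0 := (algebraMap ℝ ℂ).injective (by rw [hz, map_zero])
      exact (ha2pos j).ne' this
    · exact hz
  · intro j
    rw [leadingCoeff_mul, leadingCoeff_C, (hq2m j).1.leadingCoeff, mul_one]
    exact ha2pos j
  · intro i j
    have e : W * ((X - C (1 - η)) * (C (a2 i) * q2 i)) * (W * ((X - C (1 - η)) * (C (a2 j) * q2 j))) =
        C (a2 i * a2 j) * (w2 * (q2 i * q2 j)) := by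
      rw [hw2, C_mul]; ring
    rw [e, ← smul_eq_C_mul, map_smul, smul_eq_mul, ← Lw_apply]
    split_ifs with hij
    · rw [hij]
      have := hn2pos j
      show (√(Lw hB.hU w2 (q2 j * q2 j)))⁻¹ * (√(Lw hB.hU w2 (q2 j * q2 j)))⁻¹ *
        Lw hB.hU w2 (q2 j * q2 j) = 1
      rw [← mul_inv, Real.mul_self_sqrt this.le]
      exact inv_mul_cancel₀ this.ne'
    · rcases lt_or_gt_of_ne hij with h | h
      · have := oq_orth (Lw hB.hU w2) hP2 j i h
        rw [mul_comm (q2 i) (q2 j), hq2, this, mul_zero]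
      · have := oq_orth (Lw hB.hU w2) hP2 i j h
        rw [hq2, this, mul_zero]

/-- Extremality of Psi. -/
theorem extremal {ν : Measure ℝ} {η : ℝ} (hB : Base ν η) {W Ψ : ℝ[X]} {s : ℕ} (hs : 1 ≤ s)
    (hd : Ψ.natDegree = s) (hΨy : 0 < Ψ.eval (1 - η)) (h1 : II hB.hU (W * Ψ * (W * Ψ)) = 1)
    (h2 : ∀ f : ℝ[X], f.natDegree < s → II hB.hU (W * Ψ * (W * ((X - C (1 - η)) * f))) = 0)
    (F : ℝ[X]) (hF : F.natDegree ≤ s) :
    (F.eval (1 - η)) ^ 2 ≤ (Ψ.eval (1 - η)) ^ 2 * II hB.hU (W * F * (W * F)) := by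
  set a := F.eval (1 - η) / Ψ.eval (1 - η) with ha
  have hroot : (F - C a * Ψ).IsRoot (1 - η) := by
    rw [IsRoot, eval_sub, eval_mul, eval_C, ha, div_mul_cancel₀ _ hΨy.ne', sub_self]
  obtain ⟨G, hG⟩ := dvd_iff_isRoot.mpr hroot
  have hGd : G.natDegree < s := by
    by_cases hG0 : G = 0
    · rw [hG0, natDegree_zero]; omega
    · have e1 : (F - C a * Ψ).natDegree ≤ s := by
        apply (natDegree_sub_le _ _).trans
        exact max_le hF ((natDegree_C_mul_le _ _).trans hd.le)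
      rw [hG, natDegree_mul (X_sub_C_ne_zero _) hG0, natDegree_X_sub_C] at e1
      omega
  have hFe : F = C a * Ψ + (X - C (1 - η)) * G := by rw [← hG]; ring
  have h3 := h2 G hGd
  -- expand the norm
  have e1 : W * F * (W * F) = (a * a) • (W * Ψ * (W * Ψ)) +
      (2 * a) • (W * Ψ * (W * ((X - C (1 - η)) * G))) +
      (W * ((X - C (1 - η)) * G)) * (W * ((X - C (1 - η)) * G)) := by
    rw [hFe, smul_eq_C_mul, smul_eq_C_mul, C_mul, C_mul]
    have : (C 2 : ℝ[X]) = 2 := rfl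
    rw [this]
    ring
  have e2 : 0 ≤ II hB.hU ((W * ((X - C (1 - η)) * G)) * (W * ((X - C (1 - η)) * G))) := by
    have := hB.II_mono (f := 0) (g := (W * ((X - C (1 - η)) * G)) * (W * ((X - C (1 - η)) * G)))
      (by intro t _; rw [eval_zero, eval_mul]; exact mul_self_nonneg _)
    rw [map_zero] at this
    exact this
  have e3 : a * a ≤ II hB.hU (W * F * (W * F)) := by
    rw [e1, map_add, map_add, map_smul, map_smul, h1, h3]
    simp only [smul_eq_mul]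
    linarith
  have e4 : F.eval (1 - η) = a * Ψ.eval (1 - η) := by
    rw [ha, div_mul_cancel₀ _ hΨy.ne']
  rw [e4]
  have : (a * Ψ.eval (1 - η)) ^ 2 = (Ψ.eval (1 - η)) ^ 2 * (a * a) := by ring
  rw [this]
  exact mul_le_mul_of_nonneg_left e3 (sq_nonneg _)

end Pool.Agent.Helper553.Orth
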