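import Pool.Agent.Helper553.Orth.Baire

set_option autoImplicit false
open MeasureTheory ProbabilityTheory Filter Topology Set Polynomial
open scoped ENNReal NNReal

namespace Pool.Agent.Helper553.Orth

/-! ### Support and positivity of a generic density -/

theorem dens_pos_Ioo {f : ℝ → ℝ} (hf : Integrable f m01) (hf0 : 0 ≤ᵐ[m01] f) {a b : ℝ}
    (h : 0 < mJ a b f) : 0 < dens f (Ioo a b) := by
  rw [pos_iff_ne_zero]
  intro h0
  apply h.ne'
  unfold dens at h0
  rw [withDensity_apply _ measurableSet_Ioo, lintegral_eq_zero_iff'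
    hf.1.aemeasurable.restrict.ennreal_ofReal, EventuallyEq,
    ae_restrict_iff' measurableSet_Ioo] at h0
  unfold mJ
  have e : (fun x => f x * (Ioo a b).indicator (fun _ => (1 : ℝ)) x) =ᵐ[m01] fun _ => 0 := by
    filter_upwards [hf0, h0] with x hx hx'
    by_cases hm : x ∈ Ioo a b
    · have h1 : f x ≤ 0 := ENNReal.ofReal_eq_zero.mp (hx' hm)
      have h2 : f x = 0 := le_antisymm h1 hx
      rw [h2, zero_mul]
    · rw [indicator_of_notMem hm, mul_zero]
  rw [integral_congr_ae e, integral_zero]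

theorem dens_ac (f : ℝ → ℝ) : dens f ≪ volume := by
  have h1 : dens f ≪ m01 := withDensity_absolutelyContinuous _ _
  have h2 : m01 ≪ volume := Measure.absolutelyContinuous_of_le Measure.restrict_le_self
  exact h1.trans h2

theorem dens_support {f : ℝ → ℝ} (hf : Integrable f m01) (hf0 : 0 ≤ᵐ[m01] f)
    (hJ : ∀ a b : ℚ, 0 ≤ a → a < b → b ≤ 1 → 0 < mJ a b f) : (dens f).support = Icc 0 1 := by
  apply Subset.antisymm
  · apply Measure.support_subset_of_isClosed isClosed_Icc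
    rw [mem_ae_iff]
    exact (dens_UMeas hf).supp
  · intro x hx
    rw [Measure.mem_support_iff_forall]
    intro U hU
    obtain ⟨δ, hδ, hball⟩ := Metric.mem_nhds_iff.mp hU
    have h1 : max 0 (x - δ) < min 1 (x + δ) := by
      rw [max_lt_iff, lt_min_iff, lt_min_iff]
      refine ⟨⟨by norm_num, by linarith [hx.1]⟩, by linarith [hx.2], by linarith⟩
    obtain ⟨a, ha1, ha2⟩ := exists_rat_btwn h1
    obtain ⟨b, hb1, hb2⟩ := exists_rat_btwn ha2
    have hab : a < b := by exact_mod_cast hb1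
    have ha0 : (0 : ℝ) ≤ a := (le_max_left _ _).trans ha1.le
    have hax : x - δ < a := lt_of_le_of_lt (le_max_right _ _) ha1
    have hb0 : (b : ℝ) ≤ 1 := hb2.le.trans (min_le_left _ _)
    have hbx : (b : ℝ) < x + δ := lt_of_lt_of_le hb2 (min_le_right _ _)
    have hm := hJ a b (by exact_mod_cast ha0) hab (by exact_mod_cast hb0)
    refine lt_of_lt_of_le (dens_pos_Ioo hf hf0 hm) (measure_mono ?_)
    intro y hy
    apply hball
    rw [Metric.mem_ball, Real.dist_eq, abs_lt]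
    constructor <;> linarith [hy.1, hy.2]

theorem dens_posF {f : ℝ → ℝ} (hf : Integrable f m01) (hf0 : 0 ≤ᵐ[m01] f)
    (hJ : 0 < mJ 0 1 f) : PosF (II (dens_UMeas hf)) := by
  intro p hp
  rw [← ip_eq, dens_ip hf hf0]
  have hint := integrable_mul_poly hf (p * p)
  have hnn : 0 ≤ᵐ[m01] fun x => f x * (p * p).eval x := by
    filter_upwards [hf0] with x hx
    apply mul_nonneg hx
    rw [eval_mul]
    exact mul_self_nonneg _
  apply lt_of_le_of_ne (integral_nonneg_of_ae hnn)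
  intro h0
  have h1 := (integral_eq_zero_iff_of_nonneg_ae hnn hint).mp h0.symm
  have hfin : {x : ℝ | p.eval x = 0}.Finite := by
    have : {x : ℝ | p.eval x = 0} = {x | p.IsRoot x} := rfl
    rw [this]
    exact p.finite_setOfPred_isRoot hp
  have hnull : ∀ᵐ x ∂m01, x ∉ {x : ℝ | p.eval x = 0} := by
    have h2 : volume {x : ℝ | p.eval x = 0} = 0 := hfin.measure_zero _
    exact ae_restrict_of_ae (measure_eq_zero_iff_ae_notMem.mp h2)
  apply hJ.ne'
  unfold mJ
  have e : (fun x => f x * (Ioo (0 : ℝ) 1).indicator (fun _ => (1 : ℝ)) x) =ᵐ[m01] fun _ => 0 := by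
    filter_upwards [h1, hnull] with x hx hx'
    have h3 : p.eval x ≠ 0 := hx'
    have h4 : f x * (p * p).eval x = 0 := hx
    rw [eval_mul] at h4
    have h5 : f x = 0 := by
      rcases mul_eq_zero.mp h4 with h | h
      · exact h
      · exact absurd h (mul_self_ne_zero.mpr h3)
    rw [h5, zero_mul]
  rw [integral_congr_ae e, integral_zero]

/-- Existence of the orthonormal polynomials. -/
theorem exists_orthonormal {ν : Measure ℝ} (h : UMeas ν) (hp : PosF (II h)) :
    ∃ p : ℕ → ℝ[X], (∀ k, (p k).natDegree = k ∧ 0 < (p k).leadingCoeff) ∧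
      ∀ j k, ip ν (p j) (p k) = if j = k then 1 else 0 := by
  have hpos : ∀ k, 0 < II h (oq (II h) k * oq (II h) k) := fun k =>
    hp _ (oq_monic (II h) k).1.ne_zero
  refine ⟨fun k => C (√(II h (oq (II h) k * oq (II h) k)))⁻¹ * oq (II h) k, ?_, ?_⟩
  · intro k
    have h0 : 0 < (√(II h (oq (II h) k * oq (II h) k)))⁻¹ :=
      inv_pos.mpr (Real.sqrt_pos.mpr (hpos k))
    constructor
    · rw [natDegree_C_mul h0.ne']
      exact (oq_monic (II h) k).2
    · rw [leadingCoeff_mul, leadingCoeff_C, (oq_monic (II h) k).1.leadingCoeff, mul_one]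
      exact h0
  · intro j k
    rw [ip_eq h]
    have e : C (√(II h (oq (II h) j * oq (II h) j)))⁻¹ * oq (II h) j *
        (C (√(II h (oq (II h) k * oq (II h) k)))⁻¹ * oq (II h) k) =
        ((√(II h (oq (II h) j * oq (II h) j)))⁻¹ * (√(II h (oq (II h) k * oq (II h) k)))⁻¹) •
          (oq (II h) j * oq (II h) k) := by
      rw [smul_eq_C_mul, C_mul]; ring
    rw [e, map_smul, smul_eq_mul]
    by_cases hjk : j = k
    · rw [if_pos hjk, hjk, ← mul_inv, Real.mul_self_sqrt (hpos k).le, inv_mul_cancel₀ (hpos k).ne']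
    · rw [if_neg hjk]
      rcases lt_or_gt_of_ne hjk with hlt | hlt
      · rw [mul_comm (oq (II h) j) (oq (II h) k), oq_orth (II h) hp k j hlt, mul_zero]
      · rw [oq_orth (II h) hp j k hlt, mul_zero]

/-! ### The variance -/

/-- The random polynomial. -/
noncomputable def PP {Ω : Type} (p : ℕ → ℝ[X]) (a : ℕ → Ω → ℝ) (n : ℕ) (ω : Ω) : ℝ[X] :=
  ∑ k ∈ Finset.range (n + 1), C (a k ω) * p k

theorem nr_le {P : ℝ[X]} {n : ℕ} (h : P.natDegree ≤ n) : nr P ≤ n := by
  unfold nr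
  exact (Multiset.toFinset_card_le _).trans ((card_roots' P).trans h)

theorem PP_natDegree {Ω : Type} {p : ℕ → ℝ[X]} (hp : ∀ k, (p k).natDegree = k) (a : ℕ → Ω → ℝ)
    (n : ℕ) (ω : Ω) : (PP p a n ω).natDegree ≤ n := by
  unfold PP
  apply natDegree_sum_le_of_forall_le
  intro k hk
  have h1 := natDegree_C_mul_le (a k ω) (p k)
  rw [hp k] at h1
  have := Finset.mem_range.mp hk
  omega

theorem variance_large {ν : Measure ℝ} (h : UMeas ν) {p : ℕ → ℝ[X]}
    (hdeg : ∀ k, (p k).natDegree = k ∧ 0 < (p k).leadingCoeff)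
    (horth : ∀ j k, ip ν (p j) (p k) = if j = k then 1 else 0)
    {ι : Type} [Fintype ι] [DecidableEq ι] {n : ℕ} (hcard : Fintype.card ι = n + 1)
    (φ : ι → ℝ[X]) (hφ : ∀ i, (φ i).natDegree ≤ n) {v : ℝ} (hv : VarGe φ v)
    (hG : ∀ i j, |ip ν (φ i) (φ j) - (if i = j then 1 else 0)| ≤ 1 / (8 * ((n : ℝ) + 1) ^ 2))
    {Ω : Type} [MeasurableSpace Ω] (μ : Measure Ω) [IsProbabilityMeasure μ] (a : ℕ → Ω → ℝ)
    (hlaw : ∀ k, HasLaw (a k) (gaussianReal 0 1) μ) (hind : iIndepFun a μ) :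
    v / 2 ≤ Var[fun ω => (nr (PP p a n ω) : ℝ); μ] ∧
      Var[fun ω => (nr (PP p a n ω) : ℝ); μ] ≤ (n : ℝ) ^ 2 := by
  let e : ι ≃ Fin (n + 1) := Fintype.equivFinOfCardEq hcard
  let g : ι → ℕ := fun i => (e i : ℕ)
  have hg : Function.Injective g := Fin.val_injective.comp e.injective
  let q : ι → ℝ[X] := fun i => p (g i)
  have hsumι : ∀ F : ℕ → ℝ[X], ∑ i, F (g i) = ∑ k ∈ Finset.range (n + 1), F k := by
    intro F
    rw [Finset.sum_range]
    exact Equiv.sum_comp e (fun i => F i)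
  have hq : ∀ i j, ip ν (q i) (q j) = if i = j then 1 else 0 := by
    intro i j
    show ip ν (p (g i)) (p (g j)) = _
    rw [horth]
    by_cases hij : i = j
    · rw [if_pos hij, if_pos (by rw [hij])]
    · rw [if_neg hij, if_neg (fun h' => hij (hg h'))]
  have hspan : ∀ i, ∃ c : ι → ℝ, φ i = rp q c := by
    intro i
    obtain ⟨c, hc⟩ := exists_coeffs p (fun k => by
      intro h0
      have := (hdeg k).2
      rw [h0, leadingCoeff_zero] at this
      exact lt_irrefl _ this) (fun k => (hdeg k).1) n (φ i) (hφ i)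
    refine ⟨fun i' => c (g i'), ?_⟩
    rw [hc]
    unfold rp
    exact (hsumι (fun k => C (c k) * p k)).symm
  have hV : VarGe q (v / 2) := by
    apply transfer h φ q hq hspan _ hv
    intro i j
    refine (hG i j).trans (le_of_eq ?_)
    rw [hcard]; push_cast; rfl
  have hmap : μ.map (fun ω (i : ι) => a (g i) ω) = gpi ι := by
    have h1 : iIndepFun (fun i : ι => a (g i)) μ := hind.precomp hg
    rw [(iIndepFun_iff_map_fun_eq_pi_map (fun i => (hlaw (g i)).aemeasurable)).mp h1]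
    unfold gpi
    congr 1
    funext i
    exact (hlaw (g i)).map_eq
  have hPP : ∀ ω, PP p a n ω = rp q (fun i => a (g i) ω) := by
    intro ω
    unfold PP rp
    exact (hsumι (fun k => C (a k ω) * p k)).symm
  have ham : AEMeasurable (fun ω (i : ι) => a (g i) ω) μ :=
    aemeasurable_pi_lambda _ (fun i => (hlaw (g i)).aemeasurable)
  have hnm : Measurable (fun y : ι → ℝ => (nr (rp q y) : ℝ)) :=
    (measurable_from_top (f := fun n : ℕ => (n : ℝ))).comp (measurable_nr q)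
  have hXeq : (fun ω => (nr (PP p a n ω) : ℝ)) = fun ω => (nr (rp q (fun i => a (g i) ω)) : ℝ) := by
    funext ω; rw [hPP]
  have hXm : AEMeasurable (fun ω => (nr (PP p a n ω) : ℝ)) μ := by
    rw [hXeq]
    exact hnm.comp_aemeasurable ham
  have hbd : ∀ ω, (nr (PP p a n ω) : ℝ) ∈ Icc (0 : ℝ) n := by
    intro ω
    refine ⟨Nat.cast_nonneg _, ?_⟩
    exact_mod_cast nr_le (PP_natDegree (fun k => (hdeg k).1) a n ω)
  have hL2 : MemLp (fun ω => (nr (PP p a n ω) : ℝ)) 2 μ := by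
    apply MemLp.of_bound hXm.aestronglyMeasurable (n : ℝ)
    apply Eventually.of_forall
    intro ω
    rw [Real.norm_of_nonneg (hbd ω).1]
    exact (hbd ω).2
  constructor
  · obtain ⟨c, hc⟩ : ∃ c : ℝ, c = μ[fun ω => (nr (PP p a n ω) : ℝ)] := ⟨_, rfl⟩
    have h1 := hV c
    rw [← hmap, lintegral_map' (by
      apply Measurable.aemeasurable
      exact ENNReal.measurable_ofReal.comp ((hnm.sub_const c).pow_const 2)) ham] at h1
    have h2 : evariance (fun ω => (nr (PP p a n ω) : ℝ)) μ =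
        ∫⁻ ω, ENNReal.ofReal (((nr (rp q (fun i => a (g i) ω)) : ℝ) - c) ^ 2) ∂μ := by
      unfold evariance
      rw [← hc]
      apply lintegral_congr
      intro ω
      beta_reduce
      rw [hPP, ← ofReal_norm, ← ENNReal.ofReal_pow (norm_nonneg _), Real.norm_eq_abs,
        sq_abs]
    rw [← h2, ← ofReal_variance hL2] at h1
    exact (ENNReal.ofReal_le_ofReal_iff (variance_nonneg _ _)).mp h1
  · have h1 := variance_le_sq_of_bounded (Eventually.of_forall hbd) hXm
    have h2 : ((n : ℝ) - 0) / 2 = n / 2 := by ring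
    rw [h2] at h1
    have h3 : (0 : ℝ) ≤ (n : ℝ) ^ 2 := sq_nonneg _
    have h4 : ((n : ℝ) / 2) ^ 2 = (n : ℝ) ^ 2 / 4 := by ring
    linarith

theorem variance_unbounded {f : ℝ → ℝ} (hf : Integrable f m01) (hf0 : 0 ≤ᵐ[m01] f)
    (hgood : ∀ K : ℕ, Good K f) {p : ℕ → ℝ[X]}
    (hdeg : ∀ k, (p k).natDegree = k ∧ 0 < (p k).leadingCoeff)
    (horth : ∀ j k, ip (dens f) (p j) (p k) = if j = k then 1 else 0)
    {Ω : Type} [MeasurableSpace Ω] (μ : Measure Ω) [IsProbabilityMeasure μ] (a : ℕ → Ω → ℝ)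
    (hlaw : ∀ k, HasLaw (a k) (gaussianReal 0 1) μ) (hind : iIndepFun a μ) (K : ℝ) (n0 : ℕ) :
    ∃ n : ℕ, n0 ≤ n ∧ K < Var[fun ω => (nr (PP p a n ω) : ℝ); μ] / n := by
  classical
  obtain ⟨K1, hK1⟩ := exists_nat_gt (max K n0)
  obtain ⟨s, m, φ, hs, hφ, hv, hG⟩ := hgood K1
  have hcard : Fintype.card (Unit ⊕ (Fin s ⊕ (Fin m ⊕ Fin m))) = (s + 2 * m) + 1 := by
    simp only [Fintype.card_sum, Fintype.card_unit, Fintype.card_fin]
    ring
  obtain ⟨h1, h2⟩ := variance_large (dens_UMeas hf) hdeg horth hcard φ hφ hv (fun i j => by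
    rw [dens_ip hf hf0]
    have := (hG i j).le
    push_cast
    exact this) μ a hlaw hind
  have hn : (1 : ℝ) ≤ ((s + 2 * m : ℕ) : ℝ) := by
    have : 1 ≤ s + 2 * m := by omega
    exact_mod_cast this
  have h3 : 2 * (K1 : ℝ) * ((s : ℝ) + 2 * m) / 2 = K1 * ((s + 2 * m : ℕ) : ℝ) := by
    push_cast; ring
  rw [h3] at h1
  have hKK : K < K1 := lt_of_le_of_lt (le_max_left _ _) hK1
  have hn0 : (n0 : ℝ) < K1 := lt_of_le_of_lt (le_max_right _ _) hK1
  have h4 : (K1 : ℝ) ≤ ((s + 2 * m : ℕ) : ℝ) := by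
    have h5 : (K1 : ℝ) * ((s + 2 * m : ℕ) : ℝ) ≤ ((s + 2 * m : ℕ) : ℝ) * ((s + 2 * m : ℕ) : ℝ) := by
      rw [← sq ((s + 2 * m : ℕ) : ℝ)]
      exact h1.trans h2
    exact le_of_mul_le_mul_right h5 (by linarith)
  refine ⟨s + 2 * m, ?_, ?_⟩
  · have : (n0 : ℝ) ≤ ((s + 2 * m : ℕ) : ℝ) := by linarith
    exact_mod_cast this
  · refine lt_of_lt_of_le hKK ?_
    rw [le_div_iff₀ (by linarith)]
    exact h1

end Pool.Agent.Helper553.Orth
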