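import Pool.Agent.Helper553.Orth.Meas

set_option autoImplicit false
open MeasureTheory ProbabilityTheory Filter Topology Set Polynomial
open scoped ENNReal NNReal

namespace Pool.Agent.Helper553.Orth

variable {ι : Type} [Fintype ι]

/-- The mean square distance of the number of real roots to every constant is at least v. -/
def VarGe (φ : ι → ℝ[X]) (v : ℝ) : Prop :=
  ∀ c : ℝ, ENNReal.ofReal v ≤ ∫⁻ x, ENNReal.ofReal (((nr (rp φ x) : ℝ) - c) ^ 2) ∂(gpi ι)

theorem nr_C_mul (a : ℝ) (ha : a ≠ 0) (P : ℝ[X]) : nr (C a * P) = nr P := by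
  unfold nr
  rw [roots_C_mul P ha]

theorem rp_smul (φ : ι → ℝ[X]) (a : ℝ) (x : ι → ℝ) : rp φ (a • x) = C a * rp φ x := by
  unfold rp
  rw [Finset.mul_sum]
  apply Finset.sum_congr rfl
  intro i _
  simp only [Pi.smul_apply, smul_eq_mul, map_mul]
  ring

/-- Finite measures living on the unit interval. -/
structure UMeas (ν : Measure ℝ) : Prop where
  fin : IsFiniteMeasure ν
  supp : ν (Icc (0 : ℝ) 1)ᶜ = 0

theorem UMeas.integrable {ν : Measure ℝ} (h : UMeas ν) {f : ℝ → ℝ} (hf : ContinuousOn f (Icc 0 1)) :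
    Integrable f ν := by
  have := h.fin
  have h1 : ν.restrict (Icc 0 1) = ν := by
    apply Measure.restrict_eq_self_of_ae_mem
    exact measure_eq_zero_iff_ae_notMem.mp h.supp |>.mono (fun x hx => not_not.mp hx)
  have h2 : IntegrableOn f (Icc 0 1) ν := hf.integrableOn_Icc
  rw [IntegrableOn, h1] at h2
  exact h2

theorem UMeas.integrable_poly {ν : Measure ℝ} (h : UMeas ν) (p : ℝ[X]) :
    Integrable (fun t => p.eval t) ν := h.integrable p.continuous.continuousOn

/-- Inner product of polynomials. -/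
noncomputable def ip (ν : Measure ℝ) (p q : ℝ[X]) : ℝ := ∫ t, p.eval t * q.eval t ∂ν

theorem UMeas.integrable_mul {ν : Measure ℝ} (h : UMeas ν) (p q : ℝ[X]) :
    Integrable (fun t => p.eval t * q.eval t) ν :=
  h.integrable (p.continuous.mul q.continuous).continuousOn

theorem ip_rp {ν : Measure ℝ} (h : UMeas ν) (φ : ι → ℝ[X]) (x : ι → ℝ) :
    ip ν (rp φ x) (rp φ x) = ∑ i, ∑ j, x i * x j * ip ν (φ i) (φ j) := by
  unfold ip
  have e : ∀ t, (rp φ x).eval t * (rp φ x).eval t =
      ∑ i, ∑ j, x i * x j * ((φ i).eval t * (φ j).eval t) := by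
    intro t
    rw [rp_eval, Finset.sum_mul_sum]
    apply Finset.sum_congr rfl; intro i _
    apply Finset.sum_congr rfl; intro j _
    ring
  simp_rw [e]
  rw [integral_finsetSum]
  · apply Finset.sum_congr rfl; intro i _
    rw [integral_finsetSum]
    · apply Finset.sum_congr rfl; intro j _
      rw [integral_const_mul]
    · intro j _
      exact (h.integrable_mul _ _).const_mul _
  · intro i _
    apply integrable_finsetSum
    intro j _
    exact (h.integrable_mul _ _).const_mul _

theorem gram_close {ν : Measure ℝ} (h : UMeas ν) (φ : ι → ℝ[X]) [DecidableEq ι] (ε : ℝ)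
    (hε : 0 ≤ ε)
    (hG : ∀ i j, |ip ν (φ i) (φ j) - (if i = j then 1 else 0)| ≤ ε) (x : ι → ℝ) :
    |ip ν (rp φ x) (rp φ x) - sqn x| ≤ (Fintype.card ι * ε) * sqn x := by
  have e1 : ip ν (rp φ x) (rp φ x) - sqn x =
      ∑ i, ∑ j, x i * x j * (ip ν (φ i) (φ j) - (if i = j then 1 else 0)) := by
    rw [ip_rp h]
    have : sqn x = ∑ i, ∑ j, x i * x j * (if i = j then (1 : ℝ) else 0) := by
      unfold sqn
      apply Finset.sum_congr rfl; intro i _
      simp [sq]
    rw [this, ← Finset.sum_sub_distrib]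
    apply Finset.sum_congr rfl; intro i _
    rw [← Finset.sum_sub_distrib]
    apply Finset.sum_congr rfl; intro j _
    ring
  rw [e1]
  calc |∑ i, ∑ j, x i * x j * (ip ν (φ i) (φ j) - (if i = j then 1 else 0))|
      ≤ ∑ i, ∑ j, |x i| * |x j| * ε := by
        refine (Finset.abs_sum_le_sum_abs _ _).trans (Finset.sum_le_sum fun i _ => ?_)
        refine (Finset.abs_sum_le_sum_abs _ _).trans (Finset.sum_le_sum fun j _ => ?_)
        rw [abs_mul, abs_mul]
        exact mul_le_mul_of_nonneg_left (hG i j) (by positivity)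
    _ = ε * (∑ i, |x i|) ^ 2 := by
        rw [sq, Finset.sum_mul_sum, Finset.mul_sum]
        apply Finset.sum_congr rfl; intro i _
        rw [Finset.mul_sum]
        apply Finset.sum_congr rfl; intro j _
        ring
    _ ≤ ε * (Fintype.card ι * ∑ i, |x i| ^ 2) := by
        apply mul_le_mul_of_nonneg_left _ hε
        have := sq_sum_le_card_mul_sum_sq (s := (Finset.univ : Finset ι)) (f := fun i => |x i|)
        simpa using this
    _ = (Fintype.card ι * ε) * sqn x := by
        unfold sqn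
        simp only [sq_abs]
        ring

theorem transfer {ν : Measure ℝ} (h : UMeas ν) [DecidableEq ι] (φ p : ι → ℝ[X])
    (hp : ∀ i j, ip ν (p i) (p j) = if i = j then 1 else 0)
    (hspan : ∀ i, ∃ c : ι → ℝ, φ i = rp p c)
    (hG : ∀ i j, |ip ν (φ i) (φ j) - (if i = j then 1 else 0)| ≤ 1 / (8 * Fintype.card ι ^ 2))
    {v : ℝ} (hv : VarGe φ v) : VarGe p (v / 2) := by
  rcases isEmpty_or_nonempty ι with hemp | hne
  · -- trivial case
    intro c
    have h1 := hv c
    refine le_trans ?_ (h1.trans (le_of_eq ?_))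
    · rcases le_total 0 v with h0 | h0
      · exact ENNReal.ofReal_le_ofReal (by linarith)
      · rw [ENNReal.ofReal_of_nonpos (by linarith)]; exact bot_le
    · apply lintegral_congr
      intro x
      have : rp φ x = rp p x := by simp [rp]
      rw [this]
  have hN : (1 : ℝ) ≤ Fintype.card ι := by
    have : 1 ≤ Fintype.card ι := Fintype.card_pos
    exact_mod_cast this
  set N : ℕ := Fintype.card ι with hNdef
  set ε : ℝ := 1 / (8 * (N : ℝ)) with hεdef
  have hε0 : 0 < ε := by positivity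
  have hε1 : ε ≤ 1 / 8 := by
    rw [hεdef]
    apply one_div_le_one_div_of_le (by norm_num)
    linarith
  have hgram : ∀ x, |ip ν (rp φ x) (rp φ x) - sqn x| ≤ ε * sqn x := by
    intro x
    have := gram_close h φ (1 / (8 * (N : ℝ) ^ 2)) (by positivity) hG x
    have e : (Fintype.card ι : ℝ) * (1 / (8 * (N : ℝ) ^ 2)) = ε := by
      rw [← hNdef, hεdef]; field_simp
    rw [e] at this
    exact this
  choose c hc using hspan
  let T0 : (ι → ℝ) →ₗ[ℝ] (ι → ℝ) :=
    { toFun := fun x i => ∑ j, x j * c j i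
      map_add' := by
        intro x y; funext i
        simp only [Pi.add_apply, add_mul, Finset.sum_add_distrib]
      map_smul' := by
        intro a x; funext i
        simp only [Pi.smul_apply, smul_eq_mul, RingHom.id_apply, Finset.mul_sum, mul_assoc] }
  have hT0 : ∀ x, rp φ x = rp p (T0 x) := by
    intro x
    show (∑ j, C (x j) * φ j) = ∑ i, C (∑ j, x j * c j i) * p i
    simp_rw [hc]
    unfold rp
    simp_rw [map_sum, Finset.sum_mul, Finset.mul_sum]
    rw [Finset.sum_comm]
    apply Finset.sum_congr rfl; intro i _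
    apply Finset.sum_congr rfl; intro j _
    rw [map_mul, mul_assoc]
  have hsq0 : ∀ x, sqn (T0 x) = ip ν (rp φ x) (rp φ x) := by
    intro x
    rw [hT0, ip_rp h]
    unfold sqn
    apply Finset.sum_congr rfl; intro i _
    simp_rw [hp]
    simp [sq]
  set κ : ℝ := √(1 + ε) with hκ
  have hκpos : 0 < κ := by rw [hκ]; positivity
  have hκsq : κ ^ 2 = 1 + ε := Real.sq_sqrt (by linarith)
  let T : (ι → ℝ) →ₗ[ℝ] (ι → ℝ) := κ⁻¹ • T0
  have hsqT : ∀ x, sqn (T x) = (1 + ε)⁻¹ * ip ν (rp φ x) (rp φ x) := by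
    intro x
    rw [← hsq0, ← hκsq]
    show sqn (κ⁻¹ • T0 x) = _
    unfold sqn
    rw [Finset.mul_sum]
    apply Finset.sum_congr rfl; intro i _
    simp only [Pi.smul_apply, smul_eq_mul]
    rw [mul_pow, inv_pow]
  set L : ℝ := √((1 + ε) / (1 - ε)) with hLdef
  have h1ε : 0 < 1 - ε := by linarith
  have hLsq : L ^ 2 = (1 + ε) / (1 - ε) := Real.sq_sqrt (by positivity)
  have hLpos : 0 < L := by rw [hLdef]; positivity
  have hL1 : 1 ≤ L := by
    rw [hLdef, Real.one_le_sqrt, le_div_iff₀ h1ε]; linarith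
  have hLN : L ^ N ≤ 2 := by
    have e1 : L ^ N ≤ (L ^ 2) ^ N := pow_le_pow_left₀ hLpos.le (by nlinarith) N
    have e2 : L ^ 2 ≤ 1 + 3 * ε := by
      rw [hLsq, div_le_iff₀ h1ε]; nlinarith
    have e3 : (L ^ 2) ^ N ≤ (Real.exp (3 * ε)) ^ N := by
      apply pow_le_pow_left₀ (by positivity)
      have := Real.add_one_le_exp (3 * ε)
      linarith
    have e4 : (Real.exp (3 * ε)) ^ N = Real.exp (3 / 8) := by
      rw [← Real.exp_nat_mul]
      congr 1
      rw [hεdef]; field_simp
    have e5 : Real.exp (3 / 8) ≤ 2 := by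
      have e6 : Real.exp (3 / 8) ≤ Real.exp (Real.log 2) := by
        apply Real.exp_le_exp.mpr
        have := Real.log_two_gt_d9
        linarith
      rwa [Real.exp_log (by norm_num)] at e6
    linarith
  have hsqnn : ∀ x : ι → ℝ, 0 ≤ sqn x := fun x => Finset.sum_nonneg (fun _ _ => sq_nonneg _)
  intro d
  let F : (ι → ℝ) → ℝ≥0∞ := fun y => ENNReal.ofReal (((nr (rp p y) : ℝ) - d) ^ 2)
  have hF : Measurable F := by
    have h1 : Measurable (fun y : ι → ℝ => (nr (rp p y) : ℝ)) :=
      (measurable_from_top (f := fun n : ℕ => (n : ℝ))).comp (measurable_nr p)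
    exact ENNReal.measurable_ofReal.comp ((h1.sub_const d).pow_const 2)
  have hdom := dom T L hLpos
    (by
      intro x
      rw [hsqT, inv_mul_le_iff₀ (by linarith)]
      have := abs_le.mp (hgram x)
      linarith [this.2])
    (by
      intro x
      rw [hsqT, hLsq]
      have h1 := (abs_le.mp (hgram x)).1
      have h2 : (1 + ε) / (1 - ε) * ((1 + ε)⁻¹ * ip ν (rp φ x) (rp φ x)) =
          ip ν (rp φ x) (rp φ x) / (1 - ε) := by
        field_simp
      rw [h2, le_div_iff₀ h1ε]
      linarith)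
    F hF
  have hcomp : ∀ x, F (T x) = ENNReal.ofReal (((nr (rp φ x) : ℝ) - d) ^ 2) := by
    intro x
    show ENNReal.ofReal (((nr (rp p (κ⁻¹ • T0 x)) : ℝ) - d) ^ 2) = _
    rw [rp_smul, nr_C_mul _ (by positivity), ← hT0]
  simp_rw [hcomp] at hdom
  have h3 := (hv d).trans hdom
  have h4 : ENNReal.ofReal v ≤ ENNReal.ofReal 2 * ∫⁻ x, F x ∂(gpi ι) :=
    h3.trans (mul_le_mul_left (ENNReal.ofReal_le_ofReal hLN) _)
  show ENNReal.ofReal (v / 2) ≤ ∫⁻ x, F x ∂(gpi ι)
  rw [ENNReal.ofReal_div_of_pos (by norm_num)]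
  apply ENNReal.div_le_of_le_mul
  rw [mul_comm]
  exact h4

end Pool.Agent.Helper553.Orth
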