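import Pool.Agent.Helper553.Orth.Dens

set_option autoImplicit false
open MeasureTheory ProbabilityTheory Filter Topology Set Polynomial
open scoped ENNReal NNReal

namespace Pool.Agent.Helper553.Orth

/-- The nodes. -/
noncomputable def node (y0 r d : ℝ) (m : ℕ) : Fin m ⊕ Fin m → ℝ
  | Sum.inl k => nd y0 r k
  | Sum.inr k => nd y0 r k + d

theorem node_mem {y0 r d : ℝ} (_hr : 0 < r) (hd0 : 0 < d) (hd : d ≤ r / 4) {m : ℕ}
    (i : Fin m ⊕ Fin m) : ∃ k : Fin m, node y0 r d m i ∈ Icc (nd y0 r k - r) (nd y0 r k + r) := by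
  rcases i with k | k
  · exact ⟨k, by simp only [node]; constructor <;> linarith⟩
  · exact ⟨k, by simp only [node]; constructor <;> linarith⟩

theorem qd_nd (y0 r d : ℝ) (k : ℕ) : qd y0 r d k (nd y0 r k) = 0 := by simp [qd]
theorem qd_nd' (y0 r d : ℝ) (k : ℕ) : qd y0 r d k (nd y0 r k + d) = 0 := by simp [qd]

theorem Wp_node (y0 r d : ℝ) {m : ℕ} (i : Fin m ⊕ Fin m) :
    (Wp y0 r d m).eval (node y0 r d m i) = 0 := by
  rcases i with k | k
  · rw [Wp_eq y0 r d m k, eval_mul, eval_qp]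
    simp only [node, qd_nd, zero_mul]
  · rw [Wp_eq y0 r d m k, eval_mul, eval_qp]
    simp only [node, qd_nd', zero_mul]

theorem Wk_zero (y0 r d : ℝ) {m : ℕ} (k l : Fin m) (hkl : l ≠ k) (x : ℝ) (hx : qd y0 r d l x = 0) :
    (Wk y0 r d m k).eval x = 0 := by
  unfold Wk
  rw [eval_prod]
  apply Finset.prod_eq_zero (Finset.mem_erase.mpr ⟨hkl, Finset.mem_univ l⟩)
  rw [eval_qp, hx]

theorem frame_node {y0 r d : ℝ} {s m : ℕ} {Ψ : ℝ[X]} {t : ℕ → ℝ[X]} {τ : ℝ}
    (a : Unit ⊕ (Fin s ⊕ (Fin m ⊕ Fin m))) (i : Fin m ⊕ Fin m) (h : a ≠ Sum.inr (Sum.inr i)) :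
    (frame y0 r d s m Ψ t τ a).eval (node y0 r d m i) = 0 := by
  rcases a with u | (j | (k | k))
  · simp only [frame, eval_mul, Wp_node, zero_mul]
  · simp only [frame, eval_mul, Wp_node, zero_mul]
  · simp only [frame, eval_mul, eval_C, eval_sub, eval_X]
    rcases i with l | l
    · have hlk : l ≠ k := by rintro rfl; exact h rfl
      rw [Wk_zero y0 r d k l hlk _ (by simp only [node, qd_nd])]
      ring
    · by_cases hlk : l = k
      · simp only [node, hlk, sub_self, mul_zero]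
      · rw [Wk_zero y0 r d k l hlk _ (by simp only [node, qd_nd'])]
        ring
  · simp only [frame, eval_mul, eval_C, eval_sub, eval_X]
    rcases i with l | l
    · by_cases hlk : l = k
      · simp only [node, hlk, sub_self, mul_zero]
      · rw [Wk_zero y0 r d k l hlk _ (by simp only [node, qd_nd])]
        ring
    · have hlk : l ≠ k := by rintro rfl; exact h rfl
      rw [Wk_zero y0 r d k l hlk _ (by simp only [node, qd_nd'])]
      ring

theorem Wk_lower {y0 r d : ℝ} (hr : 0 < r) (hd0 : 0 < d) (hd : d ≤ r / 4) {m : ℕ} (k : Fin m)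
    {x : ℝ} (hx : x ∈ Icc (nd y0 r k - r) (nd y0 r k + r)) :
    ((2 * r) ^ 2) ^ (m - 1) ≤ |(Wk y0 r d m k).eval x| := by
  unfold Wk
  rw [eval_prod, Finset.abs_prod]
  have hcard : (Finset.univ.erase k).card = m - 1 := by
    rw [Finset.card_erase_of_mem (Finset.mem_univ k), Finset.card_univ, Fintype.card_fin]
  rw [← hcard, ← Finset.prod_const]
  apply Finset.prod_le_prod
  · intro l _; positivity
  · intro l hl
    rw [eval_qp]
    unfold qd
    rw [abs_mul, sq]
    have := nd_dist hr hd0 hd k l (Finset.mem_erase.mp hl).1 hx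
    exact mul_le_mul this.1 this.2 (by positivity) (abs_nonneg _)

/-- Lower bound for the value of the local frame members at their node. -/
theorem frame_self {ν : Measure ℝ} {η : ℝ} {hB : Base ν η} {s m : ℕ} {r d : ℝ} {Ψ : ℝ[X]}
    {t : ℕ → ℝ[X]} (hF : Fam hB s m r d Ψ t) (hr : 0 < r) (hd0 : 0 < d) (hd : d ≤ r / 4) {τ : ℝ}
    (hτ : 0 < τ) (i : Fin m ⊕ Fin m) :
    τ * (Ψ.eval (1 - η) * (((2 * r) ^ 2) ^ (m - 1) * d)) ≤
      |(frame (1 - η) r d s m Ψ t τ (Sum.inr (Sum.inr i))).eval (node (1 - η) r d m i)| := by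
  have hη := hB.hη
  have hy0 : (1 - 2 * η) + η ≤ 1 - η := by linarith
  have hΨ0 := (RB_bounds hη hF.hRB hF.hlc hy0).1
  rcases i with k | k
  · have hmem : nd (1 - η) r k ∈ Icc (nd (1 - η) r k - r) (nd (1 - η) r k + r) := by
      constructor <;> linarith
    have hΨx := (RB_growth hη hF.hRB hF.hlc hy0 (nd_mem hr k hmem).1).1
    have hW := Wk_lower hr hd0 hd k hmem
    simp only [frame, eval_mul, eval_C, eval_sub, eval_X, node]
    have e : nd (1 - η) r k - (nd (1 - η) r k + d) = -d := by ring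
    rw [e, abs_mul, abs_mul, abs_mul, abs_neg, abs_of_pos hτ, abs_of_pos hd0,
      abs_of_pos (lt_of_lt_of_le hΨ0 hΨx)]
    apply mul_le_mul_of_nonneg_left _ hτ.le
    apply mul_le_mul hΨx _ (by positivity) (by linarith)
    exact mul_le_mul_of_nonneg_right hW hd0.le
  · have hmem : nd (1 - η) r k + d ∈ Icc (nd (1 - η) r k - r) (nd (1 - η) r k + r) := by
      constructor <;> linarith
    have hΨx := (RB_growth hη hF.hRB hF.hlc hy0 (nd_mem hr k hmem).1).1
    have hW := Wk_lower hr hd0 hd k hmem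
    simp only [frame, eval_mul, eval_C, eval_sub, eval_X, node]
    have e : nd (1 - η) r k + d - nd (1 - η) r k = d := by ring
    rw [e, abs_mul, abs_mul, abs_mul, abs_of_pos hτ, abs_of_pos hd0,
      abs_of_pos (lt_of_lt_of_le hΨ0 hΨx)]
    apply mul_le_mul_of_nonneg_left _ hτ.le
    apply mul_le_mul hΨx _ (by positivity) (by linarith)
    exact mul_le_mul_of_nonneg_right hW hd0.le

/-- Lower bound for the value of Psi. -/
theorem Psi_lower {ν : Measure ℝ} {η : ℝ} {hB : Base ν η} {s m : ℕ} {r d : ℝ} {Ψ : ℝ[X]}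
    {t : ℕ → ℝ[X]} (hF : Fam hB s m r d Ψ t) (hs : 1 ≤ s) (hr : 0 < r) (hd0 : 0 < d)
    (hd : d ≤ r / 4) (hcl : 4 * r * m ≤ η) :
    ((1 - η) ^ s) ^ 2 ≤ (Ψ.eval (1 - η)) ^ 2 * (((1 - 2 * η) ^ s) ^ 2 * II hB.hU 1) := by
  have hη := hB.hη
  have hη1 := hB.hη1
  have hy0 : (1 - 2 * η) + η ≤ 1 - η := by linarith
  have hΨ0 := (RB_bounds hη hF.hRB hF.hlc hy0).1
  have h := extremal hB hs hF.hd hΨ0 hF.h1 hF.h2 (X ^ s) (by rw [natDegree_X_pow])
  rw [eval_pow, eval_X] at h
  refine h.trans (mul_le_mul_of_nonneg_left ?_ (sq_nonneg _))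
  have e1 : II hB.hU (Wp (1 - η) r d m * X ^ s * (Wp (1 - η) r d m * X ^ s)) ≤
      II hB.hU ((((1 - 2 * η) ^ s) ^ 2) • (1 : ℝ[X])) := by
    apply hB.II_mono
    intro u hu
    simp only [eval_mul, eval_pow, eval_X, eval_smul, eval_one, smul_eq_mul, mul_one]
    have hW : |(Wp (1 - η) r d m).eval u| ≤ 1 := by
      unfold Wp
      rw [eval_prod, Finset.abs_prod]
      apply Finset.prod_le_one (fun _ _ => abs_nonneg _)
      intro k _
      rw [eval_qp]
      unfold qd
      have hmem : nd (1 - η) r k ∈ Icc (nd (1 - η) r k - r) (nd (1 - η) r k + r) := by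
        constructor <;> linarith
      have hmem' : nd (1 - η) r k + d ∈ Icc (nd (1 - η) r k - r) (nd (1 - η) r k + r) := by
        constructor <;> linarith
      have c1 := nd_mem hr k hmem
      have c2 := nd_mem hr k hmem'
      have d1 : |u - nd (1 - η) r k| ≤ 1 := by
        rw [abs_le]; constructor <;> linarith [hu.1, hu.2, c1.1, c1.2]
      have d2 : |u - (nd (1 - η) r k + d)| ≤ 1 := by
        rw [abs_le]; constructor <;> linarith [hu.1, hu.2, c2.1, c2.2]
      calc |(u - nd (1 - η) r k) * (u - (nd (1 - η) r k + d))| ≤ 1 * 1 := am d1 d2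
        _ = 1 := one_mul 1
    have hu2 : |u ^ s| ≤ (1 - 2 * η) ^ s := by
      rw [abs_pow, abs_of_nonneg hu.1]
      exact pow_le_pow_left₀ hu.1 hu.2 s
    have h3 : |(Wp (1 - η) r d m).eval u * u ^ s| ≤ 1 * (1 - 2 * η) ^ s := am hW hu2
    rw [one_mul] at h3
    calc (Wp (1 - η) r d m).eval u * u ^ s * ((Wp (1 - η) r d m).eval u * u ^ s)
        = |(Wp (1 - η) r d m).eval u * u ^ s| ^ 2 := by rw [sq_abs]; ring
      _ ≤ ((1 - 2 * η) ^ s) ^ 2 := pow_le_pow_left₀ (abs_nonneg _) h3 2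
  rw [map_smul, smul_eq_mul] at e1
  exact e1

/-- Cauchy-Schwarz in additive form. -/
theorem II_mul_le {ν : Measure ℝ} {η : ℝ} (hB : Base ν η) (p q : ℝ[X]) {lam : ℝ} (hlam : 0 < lam) :
    |II hB.hU (p * q)| ≤ (lam * II hB.hU (p * p) + lam⁻¹ * II hB.hU (q * q)) / 2 := by
  have key : ∀ p q : ℝ[X], II hB.hU (p * q) ≤
      (lam * II hB.hU (p * p) + lam⁻¹ * II hB.hU (q * q)) / 2 := by
    intro p q
    have h := hB.II_mono (f := p * q) (g := (lam / 2) • (p * p) + (lam⁻¹ / 2) • (q * q)) (by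
      intro u _
      simp only [eval_mul, eval_add, eval_smul, smul_eq_mul]
      have h1 : 0 ≤ (lam * p.eval u - q.eval u) ^ 2 * lam⁻¹ := by positivity
      have h2 : (lam * p.eval u - q.eval u) ^ 2 * lam⁻¹ =
          lam * (p.eval u * p.eval u) + lam⁻¹ * (q.eval u * q.eval u) -
            2 * (p.eval u * q.eval u) := by
        field_simp
        ring
      rw [h2] at h1
      linarith)
    rw [map_add, map_smul, map_smul, smul_eq_mul, smul_eq_mul] at h
    linarith
  rw [abs_le]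
  constructor
  · have h := key (-p) q
    have e : -p * -p = p * p := by ring
    rw [e, neg_mul, map_neg] at h
    linarith
  · exact key p q

/-- Norm of the local frame members with respect to the base measure. -/
theorem frame_norm {ν : Measure ℝ} {η : ℝ} {hB : Base ν η} {s m : ℕ} {r d : ℝ} {Ψ : ℝ[X]}
    {t : ℕ → ℝ[X]} (hF : Fam hB s m r d Ψ t) (hr : 0 < r) (hd0 : 0 < d) (hd : d ≤ r / 4) {τ : ℝ}
    (i : Fin m ⊕ Fin m) :
    II hB.hU (frame (1 - η) r d s m Ψ t τ (Sum.inr (Sum.inr i)) *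
      frame (1 - η) r d s m Ψ t τ (Sum.inr (Sum.inr i))) ≤ (τ / η) ^ 2 := by
  have hη := hB.hη
  have key : ∀ (k : Fin m) (c z : ℝ), 1 - η ≤ z →
      (∀ u, qd (1 - η) r d k u = (u - c) * (u - z)) →
      II hB.hU (C τ * (Ψ * (Wk (1 - η) r d m k * (X - C c))) *
        (C τ * (Ψ * (Wk (1 - η) r d m k * (X - C c))))) ≤ (τ / η) ^ 2 := by
    intro k c z hz hq
    have h := hB.II_mono (f := C τ * (Ψ * (Wk (1 - η) r d m k * (X - C c))) *
        (C τ * (Ψ * (Wk (1 - η) r d m k * (X - C c)))))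
      (g := ((τ / η) ^ 2) • (Wp (1 - η) r d m * Ψ * (Wp (1 - η) r d m * Ψ))) (by
      intro u hu
      have hW := congrArg (fun p => eval u p) (Wp_eq (1 - η) r d m k)
      simp only [eval_mul, eval_qp] at hW
      simp only [eval_mul, eval_C, eval_sub, eval_X, eval_smul, smul_eq_mul, hW, hq]
      have h1 : 1 ≤ ((u - z) / η) ^ 2 := by
        have : 1 ≤ (z - u) / η := by rw [le_div_iff₀ hη]; linarith [hu.2]
        have e : (u - z) / η = -((z - u) / η) := by ring
        rw [e, neg_sq]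
        nlinarith
      have h2 : 0 ≤ (τ * (Ψ.eval u * ((Wk (1 - η) r d m k).eval u * (u - c)))) ^ 2 := sq_nonneg _
      calc τ * (Ψ.eval u * ((Wk (1 - η) r d m k).eval u * (u - c))) *
          (τ * (Ψ.eval u * ((Wk (1 - η) r d m k).eval u * (u - c))))
          = (τ * (Ψ.eval u * ((Wk (1 - η) r d m k).eval u * (u - c)))) ^ 2 * 1 := by ring
        _ ≤ (τ * (Ψ.eval u * ((Wk (1 - η) r d m k).eval u * (u - c)))) ^ 2 * ((u - z) / η) ^ 2 :=
            mul_le_mul_of_nonneg_left h1 h2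
        _ = _ := by ring)
    rw [map_smul, hF.h1, smul_eq_mul, mul_one] at h
    exact h
  rcases i with k | k
  · have hmem : nd (1 - η) r k ∈ Icc (nd (1 - η) r k - r) (nd (1 - η) r k + r) := by
      constructor <;> linarith
    exact key k (nd (1 - η) r k + d) (nd (1 - η) r k) (nd_mem hr k hmem).1
      (fun u => by unfold qd; ring)
  · have hmem : nd (1 - η) r k + d ∈ Icc (nd (1 - η) r k - r) (nd (1 - η) r k + r) := by
      constructor <;> linarith
    exact key k (nd (1 - η) r k) (nd (1 - η) r k + d) (nd_mem hr k hmem).1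
      (fun u => by unfold qd; ring)

theorem frame_cross {ν : Measure ℝ} {η : ℝ} {hB : Base ν η} {s m : ℕ} {r d : ℝ} {Ψ : ℝ[X]}
    {t : ℕ → ℝ[X]} (hF : Fam hB s m r d Ψ t) (hr : 0 < r) (hd0 : 0 < d) (hd : d ≤ r / 4) {τ : ℝ}
    (hτ : 0 < τ) (hτη : τ ≤ η) (i : Fin m ⊕ Fin m) (a : Unit ⊕ (Fin s ⊕ (Fin m ⊕ Fin m))) :
    |II hB.hU (frame (1 - η) r d s m Ψ t τ (Sum.inr (Sum.inr i)) *
      frame (1 - η) r d s m Ψ t τ a)| ≤ τ / η := by
  have hη := hB.hη
  have hτη1 : τ / η ≤ 1 := by rw [div_le_one hη]; exact hτη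
  have hτη0 : 0 < τ / η := by positivity
  have ha : II hB.hU (frame (1 - η) r d s m Ψ t τ a * frame (1 - η) r d s m Ψ t τ a) ≤ 1 := by
    rcases a with u | (j | k)
    · exact hF.h1.le
    · have := hF.hto j j
      rw [if_pos rfl] at this
      exact this.le
    · refine (frame_norm hF hr hd0 hd k).trans ?_
      nlinarith
  have h1 := II_mul_le hB (frame (1 - η) r d s m Ψ t τ (Sum.inr (Sum.inr i)))
    (frame (1 - η) r d s m Ψ t τ a) (lam := (τ / η)⁻¹) (by positivity)
  have h2 := frame_norm hF hr hd0 hd (τ := τ) i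
  refine h1.trans ?_
  rw [inv_inv]
  have e1 : (τ / η)⁻¹ * II hB.hU (frame (1 - η) r d s m Ψ t τ (Sum.inr (Sum.inr i)) *
      frame (1 - η) r d s m Ψ t τ (Sum.inr (Sum.inr i))) ≤ (τ / η)⁻¹ * (τ / η) ^ 2 :=
    mul_le_mul_of_nonneg_left h2 (by positivity)
  have e2 : (τ / η)⁻¹ * (τ / η) ^ 2 = τ / η := by field_simp
  have e3 : τ / η * II hB.hU (frame (1 - η) r d s m Ψ t τ a * frame (1 - η) r d s m Ψ t τ a) ≤
      τ / η * 1 := mul_le_mul_of_nonneg_left ha hτη0.le
  linarith

/-- The masses. -/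
noncomputable def mass (y0 r d : ℝ) (s m : ℕ) (Ψ : ℝ[X]) (t : ℕ → ℝ[X]) (τ : ℝ)
    (i : Fin m ⊕ Fin m) : ℝ :=
  (((frame y0 r d s m Ψ t τ (Sum.inr (Sum.inr i))).eval (node y0 r d m i)) ^ 2)⁻¹

theorem gram_zero {ν : Measure ℝ} {η : ℝ} {hB : Base ν η} {s m : ℕ} {r d : ℝ} {Ψ : ℝ[X]}
    {t : ℕ → ℝ[X]} (hF : Fam hB s m r d Ψ t) (hr : 0 < r) (hd0 : 0 < d) (hd : d ≤ r / 4) {τ : ℝ}
    (hτ : 0 < τ) (hτη : τ ≤ η) (a b : Unit ⊕ (Fin s ⊕ (Fin m ⊕ Fin m))) :
    |II hB.hU (frame (1 - η) r d s m Ψ t τ a * frame (1 - η) r d s m Ψ t τ b) +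
      ∑ i, mass (1 - η) r d s m Ψ t τ i *
        (frame (1 - η) r d s m Ψ t τ a * frame (1 - η) r d s m Ψ t τ b).eval (node (1 - η) r d m i)
      - (if a = b then 1 else 0)| ≤ τ / η := by
  classical
  have hη := hB.hη
  have hτη0 : 0 < τ / η := by positivity
  have hy0 : (1 - 2 * η) + η ≤ 1 - η := by linarith
  have hΨ0 := (RB_bounds hη hF.hRB hF.hlc hy0).1
  have hself : ∀ i, (frame (1 - η) r d s m Ψ t τ (Sum.inr (Sum.inr i))).eval
      (node (1 - η) r d m i) ≠ 0 := by
    intro i h0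
    have h := frame_self hF hr hd0 hd hτ i
    rw [h0, abs_zero] at h
    have : 0 < τ * (Ψ.eval (1 - η) * (((2 * r) ^ 2) ^ (m - 1) * d)) := by positivity
    linarith
  by_cases hloc : ∃ i, a = Sum.inr (Sum.inr i) ∨ b = Sum.inr (Sum.inr i)
  · have hcross : |II hB.hU (frame (1 - η) r d s m Ψ t τ a * frame (1 - η) r d s m Ψ t τ b)| ≤
        τ / η := by
      obtain ⟨i, hi | hi⟩ := hloc
      · rw [hi]; exact frame_cross hF hr hd0 hd hτ hτη i b
      · rw [hi, mul_comm]; exact frame_cross hF hr hd0 hd hτ hτη i a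
    have hsum : ∑ i, mass (1 - η) r d s m Ψ t τ i *
        (frame (1 - η) r d s m Ψ t τ a * frame (1 - η) r d s m Ψ t τ b).eval (node (1 - η) r d m i)
        = if a = b then 1 else 0 := by
      by_cases hab : a = b
      · obtain ⟨i, hi⟩ : ∃ i, a = Sum.inr (Sum.inr i) := by
          obtain ⟨i, hi | hi⟩ := hloc
          · exact ⟨i, hi⟩
          · exact ⟨i, by rw [hab, hi]⟩
        rw [if_pos hab, ← hab, hi, Finset.sum_eq_single i]
        · rw [eval_mul]
          unfold mass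
          have := hself i
          field_simp
        · intro l _ hl
          rw [eval_mul, frame_node (Sum.inr (Sum.inr i)) l (by
            intro h; apply hl; exact (Sum.inr_injective (Sum.inr_injective h)).symm)]
          ring
        · intro h; exact absurd (Finset.mem_univ _) h
      · rw [if_neg hab]
        apply Finset.sum_eq_zero
        intro i _
        rw [eval_mul]
        by_cases ha : a = Sum.inr (Sum.inr i)
        · have hb : b ≠ Sum.inr (Sum.inr i) := fun hb => hab (ha.trans hb.symm)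
          rw [frame_node b i hb]; ring
        · rw [frame_node a i ha]; ring
    rw [hsum]
    have e : ∀ x y : ℝ, x + y - y = x := fun x y => by ring
    rw [e]
    exact hcross
  · push Not at hloc
    have hsum : ∑ i, mass (1 - η) r d s m Ψ t τ i *
        (frame (1 - η) r d s m Ψ t τ a * frame (1 - η) r d s m Ψ t τ b).eval (node (1 - η) r d m i)
        = 0 := by
      apply Finset.sum_eq_zero
      intro i _
      rw [eval_mul, frame_node a i (hloc i).1]
      ring
    rw [hsum, add_zero]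
    have hval : II hB.hU (frame (1 - η) r d s m Ψ t τ a * frame (1 - η) r d s m Ψ t τ b) =
        if a = b then 1 else 0 := by
      rcases a with u | (j | k)
      · rcases b with u' | (j' | k')
        · rw [if_pos rfl]; exact hF.h1
        · rw [if_neg (by simp)]
          exact hF.h2 (t j') (by rw [hF.htd]; exact j'.2)
        · exact absurd rfl (hloc k').2
      · rcases b with u' | (j' | k')
        · rw [if_neg (by simp), mul_comm]
          exact hF.h2 (t j) (by rw [hF.htd]; exact j.2)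
        · have h := hF.hto j j'
          show II hB.hU (Wp (1 - η) r d m * ((X - C (1 - η)) * t j) *
            (Wp (1 - η) r d m * ((X - C (1 - η)) * t j'))) = _
          rw [h]
          by_cases hjj : (j : ℕ) = (j' : ℕ)
          · rw [if_pos hjj, if_pos (by rw [Fin.ext hjj])]
          · rw [if_neg hjj, if_neg]
            intro h'
            apply hjj
            have := Sum.inl_injective (Sum.inr_injective h')
            rw [this]
        · exact absurd rfl (hloc k').2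
      · exact absurd rfl (hloc k).1
    rw [hval, sub_self, abs_zero]
    exact hτη0.le

end Pool.Agent.Helper553.Orth
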