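import Pool.Agent.Helper553.Orth.Orthog

set_option autoImplicit false
open MeasureTheory ProbabilityTheory Filter Topology Set Polynomial
open scoped ENNReal NNReal

namespace Pool.Agent.Helper553.Orth

theorem prod_bounds {c η : ℝ} (hη : 0 < η) {x : ℝ} (hx : c + η ≤ x) (s : Multiset ℝ) :
    (∀ z ∈ s, z ≤ c) →
    0 < ((s.map (fun z => X - C z)).prod : ℝ[X]).eval x ∧
    0 ≤ (derivative ((s.map (fun z => X - C z)).prod : ℝ[X])).eval x ∧
    (derivative ((s.map (fun z => X - C z)).prod : ℝ[X])).eval x ≤
      (Multiset.card s / η) * ((s.map (fun z => X - C z)).prod : ℝ[X]).eval x ∧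
    0 ≤ (derivative (derivative ((s.map (fun z => X - C z)).prod : ℝ[X]))).eval x ∧
    (derivative (derivative ((s.map (fun z => X - C z)).prod : ℝ[X]))).eval x ≤
      (Multiset.card s / η) ^ 2 * ((s.map (fun z => X - C z)).prod : ℝ[X]).eval x := by
  induction s using Multiset.induction_on with
  | empty => intro _; simp
  | cons z s ih =>
    intro hs
    obtain ⟨h1, h2, h3, h4, h5⟩ := ih (fun w hw => hs w (Multiset.mem_cons_of_mem hw))
    have hz := hs z (Multiset.mem_cons_self z s)
    have hu : η ≤ x - z := by linarith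
    rw [Multiset.map_cons, Multiset.prod_cons, Multiset.card_cons]
    simp only [derivative_mul, derivative_sub, derivative_X, derivative_C, sub_zero, one_mul,
      derivative_add, eval_add, eval_mul, eval_sub, eval_X, eval_C]
    set P := ((s.map (fun z => X - C z)).prod : ℝ[X]).eval x with hP
    set P1 := (derivative ((s.map (fun z => X - C z)).prod : ℝ[X])).eval x with hP1
    set P2 := (derivative (derivative ((s.map (fun z => X - C z)).prod : ℝ[X]))).eval x with hP2
    set u := x - z with hu'
    set k : ℝ := (Multiset.card s : ℝ) with hk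
    have hk0 : 0 ≤ k := by positivity
    have hu0 : 0 < u := lt_of_lt_of_le hη hu
    have hcast : ((Multiset.card s + 1 : ℕ) : ℝ) = k + 1 := by push_cast; rfl
    rw [hcast]
    rw [div_mul_eq_mul_div, le_div_iff₀ hη] at h3
    rw [div_pow, div_mul_eq_mul_div, le_div_iff₀ (by positivity)] at h5
    refine ⟨by positivity, by positivity, ?_, by positivity, ?_⟩
    · rw [div_mul_eq_mul_div, le_div_iff₀ hη]
      have e1 : P * η ≤ P * u := mul_le_mul_of_nonneg_left hu h1.le
      have e2 : u * (P1 * η) ≤ u * (k * P) := mul_le_mul_of_nonneg_left h3 hu0.le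
      nlinarith
    · rw [div_pow, div_mul_eq_mul_div, le_div_iff₀ (by positivity)]
      have e1 : u * (P2 * η ^ 2) ≤ u * (k ^ 2 * P) := mul_le_mul_of_nonneg_left h5 hu0.le
      have e2 : (P1 * η) * η ≤ (k * P) * u := mul_le_mul h3 hu hη.le (by positivity)
      have e3 : 0 ≤ u * P := by positivity
      nlinarith

theorem prod_growth {c η : ℝ} (hη : 0 < η) {x y : ℝ} (hx : c + η ≤ x) (hxy : x ≤ y)
    (s : Multiset ℝ) :
    (∀ z ∈ s, z ≤ c) →
    ((s.map (fun z => X - C z)).prod : ℝ[X]).eval x ≤ ((s.map (fun z => X - C z)).prod : ℝ[X]).eval y ∧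
    ((s.map (fun z => X - C z)).prod : ℝ[X]).eval y ≤
      ((s.map (fun z => X - C z)).prod : ℝ[X]).eval x * (1 + (y - x) / η) ^ (Multiset.card s) := by
  induction s using Multiset.induction_on with
  | empty => intro _; simp
  | cons z s ih =>
    intro hs
    have hs' : ∀ w ∈ s, w ≤ c := fun w hw => hs w (Multiset.mem_cons_of_mem hw)
    obtain ⟨h1, h2⟩ := ih hs'
    have hpos := (prod_bounds hη hx s hs').1
    have hz := hs z (Multiset.mem_cons_self z s)
    have hu : η ≤ x - z := by linarith
    rw [Multiset.map_cons, Multiset.prod_cons, Multiset.card_cons]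
    simp only [eval_mul, eval_sub, eval_X, eval_C]
    set P := ((s.map (fun z => X - C z)).prod : ℝ[X]).eval x with hP
    set Q := ((s.map (fun z => X - C z)).prod : ℝ[X]).eval y with hQ
    constructor
    · exact mul_le_mul (by linarith) h1 hpos.le (by linarith)
    · have e0 : 0 ≤ (y - x) / η := div_nonneg (by linarith) hη.le
      have e1 : y - z ≤ (x - z) * (1 + (y - x) / η) := by
        have e2 : (y - x) ≤ (x - z) * ((y - x) / η) := by
          calc y - x = η * ((y - x) / η) := by field_simp
            _ ≤ (x - z) * ((y - x) / η) := mul_le_mul_of_nonneg_right hu e0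
        linarith
      calc (y - z) * Q ≤ ((x - z) * (1 + (y - x) / η)) *
            (P * (1 + (y - x) / η) ^ (Multiset.card s)) :=
            mul_le_mul e1 h2 (le_trans hpos.le h1) (by nlinarith)
        _ = (x - z) * P * (1 + (y - x) / η) ^ (Multiset.card s + 1) := by ring

/-- Bounds for a polynomial with real roots at most c at a point at distance eta to the right. -/
theorem RB_bounds {c η : ℝ} (hη : 0 < η) {p : ℝ[X]} (hp : RB c p) (hlc : 0 < p.leadingCoeff)
    {x : ℝ} (hx : c + η ≤ x) :
    0 < p.eval x ∧ 0 ≤ (derivative p).eval x ∧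
    (derivative p).eval x ≤ (p.natDegree / η) * p.eval x ∧
    0 ≤ (derivative (derivative p)).eval x ∧
    (derivative (derivative p)).eval x ≤ (p.natDegree / η) ^ 2 * p.eval x := by
  obtain ⟨s, hs1, hs2, hs3⟩ := RB_prod c p.natDegree p hp rfl
  obtain ⟨h1, h2, h3, h4, h5⟩ := prod_bounds hη hx s hs1
  rw [hs2] at h3 h5
  have e0 : p.eval x = p.leadingCoeff * ((s.map (fun z => X - C z)).prod : ℝ[X]).eval x := by
    conv_lhs => rw [hs3]
    rw [eval_mul, eval_C]
  have e1 : (derivative p).eval x =
      p.leadingCoeff * (derivative ((s.map (fun z => X - C z)).prod : ℝ[X])).eval x := by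
    conv_lhs => rw [hs3]
    rw [derivative_C_mul, eval_mul, eval_C]
  have e2 : (derivative (derivative p)).eval x =
      p.leadingCoeff * (derivative (derivative ((s.map (fun z => X - C z)).prod : ℝ[X]))).eval x := by
    conv_lhs => rw [hs3]
    rw [derivative_C_mul, derivative_C_mul, eval_mul, eval_C]
  rw [e0, e1, e2]
  refine ⟨by positivity, by positivity, ?_, by positivity, ?_⟩
  · calc p.leadingCoeff * _ ≤ p.leadingCoeff * _ := mul_le_mul_of_nonneg_left h3 hlc.le
      _ = _ := by ring
  · calc p.leadingCoeff * _ ≤ p.leadingCoeff * _ := mul_le_mul_of_nonneg_left h5 hlc.le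
      _ = _ := by ring

theorem RB_growth {c η : ℝ} (hη : 0 < η) {p : ℝ[X]} (hp : RB c p) (hlc : 0 < p.leadingCoeff)
    {x y : ℝ} (hx : c + η ≤ x) (hxy : x ≤ y) :
    p.eval x ≤ p.eval y ∧ p.eval y ≤ p.eval x * (1 + (y - x) / η) ^ p.natDegree := by
  obtain ⟨s, hs1, hs2, hs3⟩ := RB_prod c p.natDegree p hp rfl
  obtain ⟨h1, h2⟩ := prod_growth hη hx hxy s hs1
  rw [hs2] at h2
  have e0 : ∀ x, p.eval x = p.leadingCoeff * ((s.map (fun z => X - C z)).prod : ℝ[X]).eval x := by
    intro x
    conv_lhs => rw [hs3]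
    rw [eval_mul, eval_C]
  rw [e0, e0]
  constructor
  · exact mul_le_mul_of_nonneg_left h1 hlc.le
  · calc p.leadingCoeff * _ ≤ p.leadingCoeff * _ := mul_le_mul_of_nonneg_left h2 hlc.le
      _ = _ := by ring

end Pool.Agent.Helper553.Orth
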