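import Pool.Agent.Helper553.Orth.Dom

set_option autoImplicit false
open MeasureTheory ProbabilityTheory Filter Topology Set Polynomial
open scoped ENNReal NNReal

namespace Pool.Agent.Helper553.Orth

variable {ι : Type} [Fintype ι]

/-- Number of distinct real roots. -/
noncomputable def nr (P : ℝ[X]) : ℕ := P.roots.toFinset.card

/-- Linear combination of the polynomials of a family. -/
noncomputable def rp (φ : ι → ℝ[X]) (x : ι → ℝ) : ℝ[X] := ∑ i, C (x i) * φ i

theorem rp_eval (φ : ι → ℝ[X]) (x : ι → ℝ) (t : ℝ) :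
    (rp φ x).eval t = ∑ i, x i * (φ i).eval t := by
  simp [rp, eval_finsetSum]

theorem exists_pos_lb {α : Type} (s : Finset α) (g : α → ℝ) (h : ∀ a ∈ s, 0 < g a) :
    ∃ ε : ℝ, 0 < ε ∧ ∀ a ∈ s, ε ≤ g a := by
  classical
  induction s using Finset.induction_on with
  | empty => exact ⟨1, one_pos, by simp⟩
  | insert a s ha ih =>
    obtain ⟨ε, hε, hs⟩ := ih (fun b hb => h b (Finset.mem_insert_of_mem hb))
    refine ⟨min ε (g a), lt_min hε (h a (Finset.mem_insert_self _ _)), ?_⟩
    intro b hb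
    rcases Finset.mem_insert.mp hb with rfl | hb
    · exact min_le_right _ _
    · exact (min_le_left _ _).trans (hs b hb)

theorem exists_rat_sep {k : ℕ} (x : Fin k → ℝ) (hx : Function.Injective x) :
    ∃ f : Fin k → ℚ × ℚ, (∀ i, x i ∈ Icc ((f i).1 : ℝ) ((f i).2 : ℝ)) ∧
      ∀ i j, i ≠ j → Disjoint (Icc ((f i).1 : ℝ) ((f i).2 : ℝ)) (Icc ((f j).1 : ℝ) ((f j).2 : ℝ)) := by
  obtain ⟨ε, hε, hs⟩ := exists_pos_lb (Finset.univ.filter (fun p : Fin k × Fin k => p.1 ≠ p.2))
    (fun p => |x p.1 - x p.2|) (by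
      intro p hp
      rw [Finset.mem_filter] at hp
      rw [abs_pos, sub_ne_zero]
      exact fun h => hp.2 (hx h))
  have h1 : ∀ i, ∃ q : ℚ, x i - ε / 2 < q ∧ (q : ℝ) < x i := fun i => exists_rat_btwn (by linarith)
  have h2 : ∀ i, ∃ q : ℚ, x i < q ∧ (q : ℝ) < x i + ε / 2 := fun i => exists_rat_btwn (by linarith)
  choose a ha using h1
  choose b hb using h2
  refine ⟨fun i => (a i, b i), fun i => ⟨(ha i).2.le, (hb i).1.le⟩, ?_⟩
  intro i j hij
  rw [Set.disjoint_left]
  rintro t ⟨ht1, ht2⟩ ⟨ht3, ht4⟩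
  have h3 := hs (i, j) (Finset.mem_filter.mpr ⟨Finset.mem_univ _, hij⟩)
  simp only at h3 ht1 ht2 ht3 ht4
  have := ha i; have := hb i; have := ha j; have := hb j
  have h4 : |x i - x j| < ε := by
    rw [abs_lt]; constructor <;> linarith
  linarith

theorem measurable_hasRoot (φ : ι → ℝ[X]) (a b : ℝ) :
    MeasurableSet {x : ι → ℝ | ∃ t ∈ Icc a b, (rp φ x).eval t = 0} := by
  have h : {x : ι → ℝ | ∃ t ∈ Icc a b, (rp φ x).eval t = 0} =
      Prod.snd '' {p : Icc a b × (ι → ℝ) | ∑ i, p.2 i * (φ i).eval (p.1 : ℝ) = 0} := by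
    ext x
    simp only [mem_ofPred_eq, mem_image, Prod.exists, exists_eq_right]
    constructor
    · rintro ⟨t, ht, h0⟩
      rw [rp_eval] at h0
      exact ⟨⟨t, ht⟩, h0⟩
    · rintro ⟨⟨t, ht⟩, h0⟩
      refine ⟨t, ht, ?_⟩
      rw [rp_eval]; exact h0
  rw [h]
  have : CompactSpace (Icc a b) := isCompact_iff_compactSpace.mp isCompact_Icc
  apply IsClosed.measurableSet
  apply isClosedMap_snd_of_compactSpace
  apply isClosed_eq _ continuous_const
  fun_prop

theorem measurable_zero (φ : ι → ℝ[X]) : MeasurableSet {x : ι → ℝ | rp φ x = 0} := by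
  have h : {x : ι → ℝ | rp φ x = 0} = ⋂ n : ℕ, {x | ∑ i, x i * (φ i).coeff n = 0} := by
    ext x
    simp only [mem_ofPred_eq, mem_iInter]
    rw [Polynomial.ext_iff]
    simp [rp, finsetSum_coeff]
  rw [h]
  apply MeasurableSet.iInter
  intro n
  apply measurableSet_eq_fun _ measurable_const
  fun_prop

theorem measurable_nr (φ : ι → ℝ[X]) : Measurable (fun x : ι → ℝ => nr (rp φ x)) := by
  classical
  apply measurable_of_Ici
  intro k
  rcases Nat.eq_zero_or_pos k with rfl | hk
  · have : (fun x : ι → ℝ => nr (rp φ x)) ⁻¹' Ici 0 = univ := by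
      ext x; simp
    rw [this]; exact MeasurableSet.univ
  have h : (fun x : ι → ℝ => nr (rp φ x)) ⁻¹' Ici k = {x : ι → ℝ | rp φ x = 0}ᶜ ∩
      ⋃ f : Fin k → ℚ × ℚ, ⋃ (_ : ∀ i j, i ≠ j →
        Disjoint (Icc ((f i).1 : ℝ) ((f i).2 : ℝ)) (Icc ((f j).1 : ℝ) ((f j).2 : ℝ))),
        ⋂ i, {x : ι → ℝ | ∃ t ∈ Icc ((f i).1 : ℝ) ((f i).2 : ℝ), (rp φ x).eval t = 0} := by
    ext x
    simp only [mem_preimage, mem_Ici, mem_inter_iff, mem_compl_iff, mem_ofPred_eq, mem_iUnion,
      mem_iInter]
    constructor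
    · intro hx
      have h0 : rp φ x ≠ 0 := by
        intro h0
        simp only [nr, h0, roots_zero, Multiset.toFinset_zero, Finset.card_empty] at hx
        omega
      refine ⟨h0, ?_⟩
      obtain ⟨s, hs, hcard⟩ := Finset.exists_subset_card_eq hx
      let e := (s.equivFinOfCardEq hcard).symm
      obtain ⟨f, hf1, hf2⟩ := exists_rat_sep (fun i : Fin k => ((e i : s) : ℝ))
        (fun i j hij => e.injective (Subtype.ext hij))
      refine ⟨f, hf2, fun i => ⟨(e i : s), hf1 i, ?_⟩⟩
      have := hs (e i).2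
      rw [Multiset.mem_toFinset, mem_roots h0] at this
      exact this
    · rintro ⟨h0, f, hf, hr⟩
      choose t ht hroot using hr
      have hinj : Function.Injective t := by
        intro i j hij
        by_contra hne
        have := (Set.disjoint_left.mp (hf i j hne)) (ht i)
        rw [hij] at this
        exact this (ht j)
      have hsub : Finset.univ.image t ⊆ (rp φ x).roots.toFinset := by
        intro u hu
        obtain ⟨i, _, rfl⟩ := Finset.mem_image.mp hu
        rw [Multiset.mem_toFinset, mem_roots h0]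
        exact hroot i
      have := Finset.card_le_card hsub
      rw [Finset.card_image_of_injective _ hinj, Finset.card_univ, Fintype.card_fin] at this
      exact this
  rw [h]
  apply (measurable_zero φ).compl.inter
  apply MeasurableSet.iUnion; intro f
  apply MeasurableSet.iUnion; intro _
  apply MeasurableSet.iInter; intro i
  exact measurable_hasRoot φ _ _

end Pool.Agent.Helper553.Orth
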