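import Pool.Agent.Helper553.Orth.Frame

set_option autoImplicit false
open MeasureTheory ProbabilityTheory Filter Topology Set Polynomial
open scoped ENNReal NNReal

namespace Pool.Agent.Helper553.Orth

/-! ### Orthogonal polynomials of a positive functional -/

/-- Monic orthogonal polynomials of a linear functional. -/
noncomputable def oq (L : ℝ[X] →ₗ[ℝ] ℝ) (n : ℕ) : ℝ[X] :=
  X ^ n - ∑ k : Fin n, C (L (X ^ n * oq L k) / L (oq L k * oq L k)) * oq L k
termination_by n
decreasing_by exact k.2

theorem oq_eq (L : ℝ[X] →ₗ[ℝ] ℝ) (n : ℕ) : oq L n =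
    X ^ n - ∑ k : Fin n, C (L (X ^ n * oq L k) / L (oq L k * oq L k)) * oq L k := by
  rw [oq]

theorem oq_monic (L : ℝ[X] →ₗ[ℝ] ℝ) (n : ℕ) : (oq L n).Monic ∧ (oq L n).natDegree = n := by
  induction n using Nat.strong_induction_on with
  | _ n ih =>
    have hlt : (∑ k : Fin n, C (L (X ^ n * oq L k) / L (oq L k * oq L k)) * oq L k).degree <
        (X ^ n : ℝ[X]).degree := by
      rw [degree_X_pow]
      apply lt_of_le_of_lt (degree_sum_le _ _)
      rw [Finset.sup_lt_iff (by exact WithBot.bot_lt_coe _)]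
      intro k _
      rw [← smul_eq_C_mul]
      apply lt_of_le_of_lt (degree_smul_le _ _)
      rw [degree_eq_natDegree (ih k k.2).1.ne_zero, (ih k k.2).2]
      exact_mod_cast k.2
    rw [oq_eq]
    refine ⟨(monic_X_pow n).sub_of_left hlt, ?_⟩
    apply natDegree_eq_of_degree_eq_some
    rw [degree_sub_eq_left_of_degree_lt hlt, degree_X_pow]

/-- Positivity of the functional. -/
def PosF (L : ℝ[X] →ₗ[ℝ] ℝ) : Prop := ∀ p : ℝ[X], p ≠ 0 → 0 < L (p * p)

theorem oq_orth (L : ℝ[X] →ₗ[ℝ] ℝ) (hL : PosF L) (n : ℕ) : ∀ m < n, L (oq L n * oq L m) = 0 := by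
  induction n using Nat.strong_induction_on with
  | _ n ih =>
    intro m hm
    rw [oq_eq L n, sub_mul, map_sub, Finset.sum_mul, map_sum]
    rw [Finset.sum_eq_single (⟨m, hm⟩ : Fin n)]
    · rw [mul_assoc, ← smul_eq_C_mul, map_smul, smul_eq_mul]
      rw [div_mul_cancel₀]
      · ring
      · exact (hL _ (oq_monic L m).1.ne_zero).ne'
    · intro k _ hk
      rw [mul_assoc, ← smul_eq_C_mul, map_smul, smul_eq_mul]
      rcases lt_trichotomy (k : ℕ) m with h | h | h
      · have h5 := ih m hm k h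
        rw [mul_comm] at h5
        rw [h5, mul_zero]
      · exact absurd (Fin.ext h) hk
      · rw [ih k k.2 m h, mul_zero]
    · intro h
      exact absurd (Finset.mem_univ _) h

/-- A family with the k-th member of degree k spans. -/
theorem exists_coeffs (p : ℕ → ℝ[X]) (hp : ∀ k, p k ≠ 0) (hd : ∀ k, (p k).natDegree = k) (n : ℕ) :
    ∀ f : ℝ[X], f.natDegree ≤ n → ∃ c : ℕ → ℝ, f = ∑ k ∈ Finset.range (n + 1), C (c k) * p k := by
  induction n with
  | zero =>
    intro f hf
    have h0 : (p 0).natDegree = 0 := hd 0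
    obtain ⟨a, ha⟩ := natDegree_eq_zero.mp h0
    obtain ⟨b, hb⟩ := natDegree_eq_zero.mp (Nat.le_zero.mp hf)
    have ha0 : a ≠ 0 := by
      intro h
      apply hp 0
      rw [← ha, h, C_0]
    refine ⟨fun _ => b / a, ?_⟩
    rw [zero_add, Finset.sum_range_one, ← ha, ← hb, ← C_mul, div_mul_cancel₀ _ ha0]
  | succ n ih =>
    intro f hf
    have hlc : (p (n + 1)).leadingCoeff ≠ 0 := leadingCoeff_ne_zero.mpr (hp _)
    have hlc' : (p (n + 1)).coeff (n + 1) ≠ 0 := by
      have := hlc
      rwa [leadingCoeff, hd] at this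
    set a := f.coeff (n + 1) / (p (n + 1)).coeff (n + 1) with ha
    have hg : (f - C a * p (n + 1)).natDegree ≤ n := by
      rw [natDegree_le_iff_coeff_eq_zero]
      intro N hN
      rw [coeff_sub, coeff_C_mul]
      rcases Nat.lt_or_ge (n + 1) N with h | h
      · rw [coeff_eq_zero_of_natDegree_lt (lt_of_le_of_lt hf h),
          coeff_eq_zero_of_natDegree_lt (by rw [hd]; exact h)]
        ring
      · have : N = n + 1 := by omega
        rw [this, ha, div_mul_cancel₀ _ hlc']
        ring
    obtain ⟨c, hc⟩ := ih _ hg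
    refine ⟨fun k => if k = n + 1 then a else c k, ?_⟩
    rw [Finset.sum_range_succ]
    have : ∑ x ∈ Finset.range (n + 1), C (if x = n + 1 then a else c x) * p x =
        ∑ x ∈ Finset.range (n + 1), C (c x) * p x := by
      apply Finset.sum_congr rfl
      intro x hx
      have := Finset.mem_range.mp hx
      rw [if_neg (by omega)]
    beta_reduce
    rw [this, if_pos rfl, ← hc]
    ring

theorem oq_orth_poly (L : ℝ[X] →ₗ[ℝ] ℝ) (hL : PosF L) (n : ℕ) (hn : 1 ≤ n) (f : ℝ[X])
    (hf : f.natDegree < n) : L (oq L n * f) = 0 := by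
  obtain ⟨c, hc⟩ := exists_coeffs (oq L) (fun k => (oq_monic L k).1.ne_zero)
    (fun k => (oq_monic L k).2) (n - 1) f (by omega)
  rw [hc, Finset.mul_sum, map_sum]
  apply Finset.sum_eq_zero
  intro k hk
  have := Finset.mem_range.mp hk
  rw [← mul_assoc, mul_comm _ (C (c k)), mul_assoc, ← smul_eq_C_mul, map_smul,
    oq_orth L hL n k (by omega), smul_zero]

/-- Nonzero, with only real roots, all at most c. -/
def RB (c : ℝ) (p : ℝ[X]) : Prop := p ≠ 0 ∧ ∀ z : ℂ, aeval z p = 0 → z.im = 0 ∧ z.re ≤ c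

theorem oq_RB (L : ℝ[X] →ₗ[ℝ] ℝ) (hL : PosF L) (c : ℝ)
    (hc : ∀ z : ℝ, c < z → ∀ q : ℝ[X], q ≠ 0 → 0 < L ((C z - X) * (q * q))) (n : ℕ) :
    RB c (oq L n) := by
  refine ⟨(oq_monic L n).1.ne_zero, ?_⟩
  intro z hz
  have hq0 := (oq_monic L n).1.ne_zero
  by_cases him : z.im = 0
  · refine ⟨him, ?_⟩
    by_contra hcon
    push Not at hcon
    have hzr : ((z.re : ℝ) : ℂ) = z := by
      apply Complex.ext <;> simp [him]
    have hroot : (oq L n).IsRoot z.re := by
      have : aeval ((algebraMap ℝ ℂ) z.re) (oq L n) = 0 := by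
        rw [Complex.coe_algebraMap, hzr]; exact hz
      rw [aeval_algebraMap_apply] at this
      have h2 : aeval z.re (oq L n) = 0 := (algebraMap ℝ ℂ).injective (by rw [this, map_zero])
      rwa [coe_aeval_eq_eval] at h2
    obtain ⟨q, hq⟩ := dvd_iff_isRoot.mpr hroot
    have hqne : q ≠ 0 := by
      intro h; rw [h, mul_zero] at hq; exact hq0 hq
    have hdeg : q.natDegree + 1 = n := by
      have h1 := congrArg natDegree hq
      rw [(oq_monic L n).2, natDegree_mul (X_sub_C_ne_zero _) hqne, natDegree_X_sub_C] at h1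
      omega
    have h1 := oq_orth_poly L hL n (by omega) q (by omega)
    have h2 := hc z.re hcon q hqne
    have h3 : oq L n * q = -((C z.re - X) * (q * q)) := by
      rw [hq]; ring
    rw [h3, map_neg] at h1
    linarith
  · exfalso
    obtain ⟨q, hq⟩ := quadratic_dvd_of_aeval_eq_zero_im_ne_zero (oq L n) hz him
    have hqne : q ≠ 0 := by
      intro h; rw [h, mul_zero] at hq; exact hq0 hq
    have hmon : (X ^ 2 - C (2 * z.re) * X + C (‖z‖ ^ 2) : ℝ[X]).natDegree = 2 := by
      compute_degree!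
    have hquad0 : (X ^ 2 - C (2 * z.re) * X + C (‖z‖ ^ 2) : ℝ[X]) ≠ 0 := by
      intro h; rw [h, natDegree_zero] at hmon; omega
    have hdeg : q.natDegree + 2 = n := by
      have h1 := congrArg natDegree hq
      rw [(oq_monic L n).2, natDegree_mul hquad0 hqne, hmon] at h1
      omega
    have h1 := oq_orth_poly L hL n (by omega) q (by omega)
    have h3 : oq L n * q = ((X - C z.re) * q) * ((X - C z.re) * q) + C (z.im ^ 2) * (q * q) := by
      rw [hq]
      have h4 : ‖z‖ ^ 2 = z.re ^ 2 + z.im ^ 2 := by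
        rw [← Complex.normSq_eq_norm_sq, Complex.normSq_apply]; ring
      rw [h4]
      simp only [map_add, map_mul, map_pow, map_ofNat]
      ring
    rw [h3, map_add, ← smul_eq_C_mul, map_smul, smul_eq_mul] at h1
    have h5 := hL ((X - C z.re) * q) (mul_ne_zero (X_sub_C_ne_zero _) hqne)
    have h6 := hL q hqne
    have h7 : 0 < z.im ^ 2 := by positivity
    nlinarith [mul_pos h7 h6]

theorem RB_prod (c : ℝ) (n : ℕ) : ∀ p : ℝ[X], RB c p → p.natDegree = n →
    ∃ s : Multiset ℝ, (∀ z ∈ s, z ≤ c) ∧ Multiset.card s = n ∧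
      p = C p.leadingCoeff * (s.map (fun z => X - C z)).prod := by
  induction n with
  | zero =>
    intro p hp hd
    refine ⟨0, by simp, by simp, ?_⟩
    rw [Multiset.map_zero, Multiset.prod_zero, mul_one, leadingCoeff, hd]
    exact eq_C_of_natDegree_eq_zero hd
  | succ n ih =>
    intro p hp hd
    have hdeg : 0 < (p.map (algebraMap ℝ ℂ)).degree := by
      rw [degree_map, degree_eq_natDegree hp.1, hd]
      exact_mod_cast Nat.succ_pos n
    obtain ⟨z, hz⟩ := Complex.exists_root hdeg
    have hz' : aeval z p = 0 := by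
      rw [IsRoot, eval_map_algebraMap] at hz; exact hz
    obtain ⟨him, hre⟩ := hp.2 z hz'
    have hzr : ((z.re : ℝ) : ℂ) = z := by
      apply Complex.ext <;> simp [him]
    have hroot : p.IsRoot z.re := by
      have : aeval ((algebraMap ℝ ℂ) z.re) p = 0 := by
        rw [Complex.coe_algebraMap, hzr]; exact hz'
      rw [aeval_algebraMap_apply] at this
      have h2 : aeval z.re p = 0 := (algebraMap ℝ ℂ).injective (by rw [this, map_zero])
      rwa [coe_aeval_eq_eval] at h2
    obtain ⟨q, hq⟩ := dvd_iff_isRoot.mpr hroot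
    have hqne : q ≠ 0 := by
      intro h; rw [h, mul_zero] at hq; exact hp.1 hq
    have hqd : q.natDegree = n := by
      have h1 := congrArg natDegree hq
      rw [hd, natDegree_mul (X_sub_C_ne_zero _) hqne, natDegree_X_sub_C] at h1
      omega
    have hqRB : RB c q := by
      refine ⟨hqne, fun w hw => hp.2 w ?_⟩
      rw [hq, map_mul, hw, mul_zero]
    obtain ⟨s, hs1, hs2, hs3⟩ := ih q hqRB hqd
    refine ⟨z.re ::ₘ s, ?_, by rw [Multiset.card_cons, hs2], ?_⟩
    · intro w hw
      rcases Multiset.mem_cons.mp hw with rfl | hw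
      · exact hre
      · exact hs1 w hw
    · have hlc : p.leadingCoeff = q.leadingCoeff := by
        rw [hq, leadingCoeff_mul, leadingCoeff_X_sub_C, one_mul]
      rw [hlc, Multiset.map_cons, Multiset.prod_cons]
      conv_lhs => rw [hq, hs3]
      ring

end Pool.Agent.Helper553.Orth
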