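import Pool.Agent.Helper553.Orth.Smear

set_option autoImplicit false
open MeasureTheory ProbabilityTheory Filter Topology Set Polynomial
open scoped ENNReal NNReal

namespace Pool.Agent.Helper553.Orth

theorem pr_one {Λ : ℝ} (hΛ : 1000 ≤ Λ) (k : ℕ) : 1 ≤ Λ ^ k := one_le_pow₀ (by linarith)

theorem pr_self {Λ : ℝ} (hΛ : 1000 ≤ Λ) {k : ℕ} (hk : 1 ≤ k) : Λ ≤ Λ ^ k :=
  le_self_pow₀ (by linarith) (by omega)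

theorem pr1 {Λ : ℝ} (hΛ : 1000 ≤ Λ) : (Λ ^ 16)⁻¹ ≤ (Λ ^ 6)⁻¹ / 4 := by
  have h0 : 0 < Λ := by linarith
  rw [div_eq_mul_inv, ← mul_inv]
  apply inv_anti₀ (by positivity)
  have e1 : Λ ^ 16 = Λ ^ 6 * Λ ^ 10 := by rw [← pow_add]
  rw [e1]
  apply mul_le_mul_of_nonneg_left _ (by positivity)
  have := pr_self hΛ (k := 10) (by norm_num)
  linarith

theorem pr2a {Λ η U : ℝ} (hΛ : 1000 ≤ Λ) (hη : 0 < η) (hiη : 1 / η ≤ Λ) (hU0 : 0 ≤ U)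
    (hU : 4 * U ≤ Λ) : 4 * (Λ ^ 6)⁻¹ * U / η ≤ (Λ ^ 3)⁻¹ := by
  have h0 : 0 < Λ := by linarith
  have e1 : 4 * (Λ ^ 6)⁻¹ * U / η = (4 * U) * (1 / η) * (Λ ^ 6)⁻¹ := by ring
  rw [e1, ← div_eq_mul_inv, div_le_iff₀ (by positivity)]
  have e2 : (Λ ^ 3)⁻¹ * Λ ^ 6 = Λ ^ 3 := by field_simp
  rw [e2]
  calc 4 * U * (1 / η) ≤ Λ * Λ := mul_le_mul hU hiη (by positivity) h0.le
    _ = Λ ^ 2 * 1 := by ring
    _ ≤ Λ ^ 2 * Λ := mul_le_mul_of_nonneg_left (by linarith) (by positivity)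
    _ = Λ ^ 3 := by ring

theorem pr2 {Λ η U : ℝ} {s : ℕ} (hΛ : 1000 ≤ Λ) (hη : 0 < η) (hiη : 1 / η ≤ Λ) (hU0 : 0 ≤ U)
    (hU : 4 * U ≤ Λ) (hs : 1000 * (s : ℝ) ≤ Λ) : (1 + 4 * (Λ ^ 6)⁻¹ * U / η) ^ s ≤ 2 := by
  have h0 : 0 < Λ := by linarith
  have hx := pr2a hΛ hη hiη hU0 hU
  have hx0 : 0 ≤ 4 * (Λ ^ 6)⁻¹ * U / η := by positivity
  have h3 : (s : ℝ) * (Λ ^ 3)⁻¹ ≤ 1 / 2 := by
    rw [← div_eq_mul_inv, div_le_iff₀ (by positivity)]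
    have h4 := pr_self hΛ (k := 3) (by norm_num)
    have h5 : (0 : ℝ) ≤ s := Nat.cast_nonneg s
    linarith
  have h2 := Real.log_two_gt_d9
  calc (1 + 4 * (Λ ^ 6)⁻¹ * U / η) ^ s
      ≤ (Real.exp ((Λ ^ 3)⁻¹)) ^ s := by
        apply pow_le_pow_left₀ (by linarith)
        have := Real.add_one_le_exp ((Λ ^ 3)⁻¹)
        linarith
    _ = Real.exp ((s : ℝ) * (Λ ^ 3)⁻¹) := by
        rw [← Real.exp_nat_mul]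
    _ ≤ Real.exp (Real.log 2) := by
        apply Real.exp_le_exp.mpr
        linarith
    _ = 2 := Real.exp_log (by norm_num)

theorem pr3 {Λ η T ε : ℝ} (hΛ : 1000 ≤ Λ) (hη : 0 < η) (hiη : 1 / η ≤ Λ) (hT0 : 0 ≤ T)
    (hT : T ≤ Λ) (hε : 0 < ε) (hεΛ : 1 ≤ ε * Λ) : T / η * (Λ ^ 6)⁻¹ ≤ ε := by
  have h0 : 0 < Λ := by linarith
  rw [← div_eq_mul_inv, div_le_iff₀ (by positivity)]
  calc T / η = T * (1 / η) := by ring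
    _ ≤ Λ * Λ := mul_le_mul hT hiη (by positivity) h0.le
    _ = 1 * (Λ * Λ) := by ring
    _ ≤ (ε * Λ) * (Λ * Λ) := mul_le_mul_of_nonneg_right hεΛ (by positivity)
    _ = ε * Λ ^ 3 := by ring
    _ ≤ ε * Λ ^ 6 := mul_le_mul_of_nonneg_left (pow_le_pow_right₀ (by linarith) (by norm_num)) hε.le

theorem pr4 {Λ η T U ε : ℝ} (hΛ : 1000 ≤ Λ) (hη : 0 < η) (hiη : 1 / η ≤ Λ) (hT0 : 0 ≤ T)
    (hT : 8 * T ≤ Λ) (hU0 : 0 ≤ U) (hU : U ≤ Λ) (hε : 0 < ε) (hεΛ : 1 ≤ ε * Λ) :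
    2 * T * Λ / η * (4 * (Λ ^ 6)⁻¹ * U) ≤ ε := by
  have h0 : 0 < Λ := by linarith
  have e1 : 2 * T * Λ / η * (4 * (Λ ^ 6)⁻¹ * U) =
      (8 * T) * U * Λ * (1 / η) * (Λ ^ 6)⁻¹ := by ring
  rw [e1, ← div_eq_mul_inv, div_le_iff₀ (by positivity)]
  calc (8 * T) * U * Λ * (1 / η) ≤ Λ * Λ * Λ * Λ := by
        apply mul_le_mul _ hiη (by positivity) (by positivity)
        apply mul_le_mul_of_nonneg_right _ h0.le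
        exact mul_le_mul hT hU hU0 h0.le
    _ = 1 * Λ ^ 4 := by ring
    _ ≤ (ε * Λ) * Λ ^ 4 := mul_le_mul_of_nonneg_right hεΛ (by positivity)
    _ = ε * Λ ^ 5 := by ring
    _ ≤ ε * Λ ^ 6 := mul_le_mul_of_nonneg_left (pow_le_pow_right₀ (by linarith) (by norm_num)) hε.le

theorem pr5 {Λ U ε : ℝ} (hΛ : 1000 ≤ Λ) (hU : U ≤ Λ) (hε : 0 < ε)
    (hεΛ : 1 ≤ ε * Λ) : (Λ ^ 16)⁻¹ * (U * Λ) ≤ ε * (Λ ^ 6)⁻¹ := by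
  have h0 : 0 < Λ := by linarith
  have e1 : (Λ ^ 16)⁻¹ * (U * Λ) = (U * Λ) / Λ ^ 16 := by rw [div_eq_mul_inv, mul_comm]
  rw [e1, div_le_iff₀ (by positivity)]
  have e2 : ε * (Λ ^ 6)⁻¹ * Λ ^ 16 = ε * Λ ^ 10 := by field_simp
  rw [e2]
  calc U * Λ ≤ Λ * Λ := mul_le_mul_of_nonneg_right hU h0.le
    _ = 1 * Λ ^ 2 := by ring
    _ ≤ (ε * Λ) * Λ ^ 2 := mul_le_mul_of_nonneg_right hεΛ (by positivity)
    _ = ε * Λ ^ 3 := by ring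
    _ ≤ ε * Λ ^ 10 := mul_le_mul_of_nonneg_left (pow_le_pow_right₀ (by linarith) (by norm_num)) hε.le

theorem pr6 {Λ T U pb : ℝ} (hΛ : 1000 ≤ Λ) (hT0 : 0 ≤ T) (hU0 : 0 ≤ U)
    (h1 : 18 * (T + 2 * U) + 16 ≤ Λ) (h2 : 3 * U ≤ Λ) (hpb : 0 < pb) (hpbΛ : 1 ≤ pb * Λ) :
    (18 * (T + 2 * U) + 16) * ((Λ ^ 16)⁻¹ * (U * (3 * Λ / (Λ ^ 6)⁻¹))) ≤ pb / 2 := by
  have h0 : 0 < Λ := by linarith
  have e1 : (Λ ^ 16)⁻¹ * (U * (3 * Λ / (Λ ^ 6)⁻¹)) = (3 * U) / Λ ^ 9 := by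
    field_simp
  rw [e1]
  calc (18 * (T + 2 * U) + 16) * (3 * U / Λ ^ 9)
      ≤ Λ * (Λ / Λ ^ 9) := by
        apply mul_le_mul h1 _ (by positivity) h0.le
        exact div_le_div_of_nonneg_right h2 (by positivity)
    _ = 1 / Λ ^ 7 := by field_simp
    _ ≤ pb / 2 := by
        rw [div_le_div_iff₀ (by positivity) (by norm_num)]
        have e4 : 2 ≤ Λ ^ 6 := by linarith [pr_self hΛ (k := 6) (by norm_num)]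
        calc 1 * 2 ≤ (pb * Λ) * Λ ^ 6 := mul_le_mul hpbΛ e4 (by norm_num) (by positivity)
          _ = pb * Λ ^ 7 := by ring

theorem pr7 {Λ T U pA : ℝ} (hΛ : 1000 ≤ Λ) (hT : T + 2 * U ≤ 3 * Λ) (hpA : 24 ≤ Λ * pA) :
    (T + 2 * U) * (1 / Λ ^ 2) ≤ pA / 8 := by
  have h0 : 0 < Λ := by linarith
  rw [mul_one_div, div_le_div_iff₀ (by positivity) (by norm_num)]
  calc (T + 2 * U) * 8 ≤ 24 * Λ := by linarith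
    _ ≤ (Λ * pA) * Λ := mul_le_mul_of_nonneg_right hpA h0.le
    _ = pA * Λ ^ 2 := by ring

theorem pr8 {Λ η : ℝ} (hΛ : 1000 ≤ Λ) (hηΛ : 1 ≤ η * Λ) : (Λ ^ 16)⁻¹ ≤ η := by
  have h0 : 0 < Λ := by linarith
  have h1 : (Λ ^ 16)⁻¹ ≤ Λ⁻¹ := inv_anti₀ h0 (pr_self hΛ (k := 16) (by norm_num))
  have h2 : Λ⁻¹ ≤ η := by
    rw [inv_le_iff_one_le_mul₀ h0]; linarith
  exact h1.trans h2

theorem pr9 {Λ η Y : ℝ} (hΛ : 1000 ≤ Λ) (hη : 0 < η) (hiη : 1 / η ≤ Λ) (hY : 0 < Y) (hYΛ : Y ≤ Λ) :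
    (Λ ^ 16)⁻¹ / η < 1 / (8 * Y ^ 2) := by
  have h0 : 0 < Λ := by linarith
  have e1 : (Λ ^ 16)⁻¹ / η = (1 / η) * (Λ ^ 16)⁻¹ := by ring
  rw [e1, ← div_eq_mul_inv, div_lt_div_iff₀ (by positivity) (by positivity)]
  have e3 : Y ^ 2 ≤ Λ ^ 2 := pow_le_pow_left₀ hY.le hYΛ 2
  calc 1 / η * (8 * Y ^ 2) ≤ Λ * (8 * Λ ^ 2) := by
        apply mul_le_mul hiη (by linarith) (by positivity) h0.le
    _ < Λ * (Λ * Λ ^ 2) := by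
        apply mul_lt_mul_of_pos_left _ h0
        apply mul_lt_mul_of_pos_right _ (by positivity)
        linarith
    _ = Λ ^ 4 := by ring
    _ ≤ Λ ^ 16 := pow_le_pow_right₀ (by linarith) (by norm_num)
    _ = 1 * Λ ^ 16 := by rw [one_mul]

theorem pr10 {Λ η U : ℝ} (hΛ : 1000 ≤ Λ) (hη : 0 < η) (hηΛ : 1 ≤ η * Λ) (hU : 4 * U ≤ Λ) :
    4 * (Λ ^ 6)⁻¹ * U ≤ η := by
  have h0 : 0 < Λ := by linarith
  have e1 : 4 * (Λ ^ 6)⁻¹ * U = (4 * U) / Λ ^ 6 := by rw [div_eq_mul_inv]; ring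
  rw [e1, div_le_iff₀ (by positivity)]
  calc 4 * U ≤ Λ := by linarith
    _ = 1 * Λ := by ring
    _ ≤ (η * Λ) * Λ := mul_le_mul_of_nonneg_right hηΛ h0.le
    _ = η * Λ ^ 2 := by ring
    _ ≤ η * Λ ^ 6 := mul_le_mul_of_nonneg_left (pow_le_pow_right₀ (by linarith) (by norm_num)) hη.le

theorem pr11 {K c t : ℝ} (hK : 0 ≤ K) (hc : 0 < c) (ht : 1 ≤ t) (h : 1536 * K / c ≤ t) :
    2 * K * (t ^ 4 + 2 * t ^ 3) ≤ c / 256 * (t ^ 3) ^ 2 := by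
  have ht34 : t ^ 3 ≤ t ^ 4 := pow_le_pow_right₀ ht (by norm_num)
  rw [div_le_iff₀ hc] at h
  have h1 : t * c ≤ t ^ 2 * c := by
    apply mul_le_mul_of_nonneg_right _ hc.le
    exact le_self_pow₀ ht (by norm_num)
  have e2 : t ^ 4 + 2 * t ^ 3 ≤ 3 * t ^ 4 := by linarith
  have t4 : 0 ≤ t ^ 4 / 256 := by positivity
  calc 2 * K * (t ^ 4 + 2 * t ^ 3) ≤ 2 * K * (3 * t ^ 4) :=
        mul_le_mul_of_nonneg_left e2 (by positivity)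
    _ = (1536 * K) * (t ^ 4 / 256) := by ring
    _ ≤ (t ^ 2 * c) * (t ^ 4 / 256) :=
        mul_le_mul_of_nonneg_right (h.trans h1) t4
    _ = c / 256 * (t ^ 3) ^ 2 := by ring

theorem pr12 {C ρ q : ℝ} (hρ : 1 < ρ) (hq : 0 < q) (A : ℕ) :
    ∀ᶠ t : ℕ in atTop, (C * (t : ℝ) ^ 4) ^ A < q * ρ ^ t := by
  have h1 := (tendsto_pow_const_div_const_pow_of_one_lt (4 * A) hρ).const_mul (C ^ A)
  rw [mul_zero] at h1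
  filter_upwards [h1.eventually (gt_mem_nhds hq)] with t ht
  have hρt : 0 < ρ ^ t := pow_pos (by linarith) t
  rw [← mul_div_assoc, div_lt_iff₀ hρt] at ht
  rw [mul_pow, ← pow_mul]
  exact ht

theorem pr13 {η q ε0 : ℝ} (hη : 0 < η) (hη1 : η ≤ 1 / 4) {A : ℕ} {Λ : ℝ} (hΛ : 0 ≤ Λ)
    (hq0 : 0 < q) (hq1 : q ≤ 1) (hqε : q < ε0) {t : ℕ} (ht : 1 ≤ t)
    (h : Λ ^ A < q * (((1 - η) / (1 - 2 * η)) ^ 2) ^ t) :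
    Λ ^ (A * t ^ 3) * ((1 - 2 * η) ^ (t ^ 4)) ^ 2 < ε0 * ((1 - η) ^ (t ^ 4)) ^ 2 := by
  have hc0 : 0 < 1 - 2 * η := by linarith
  have hc1 : 0 < 1 - η := by linarith
  obtain ⟨ρ, hρ⟩ : ∃ ρ : ℝ, ρ = ((1 - η) / (1 - 2 * η)) ^ 2 := ⟨_, rfl⟩
  have hρ0 : 0 < ρ := by rw [hρ]; exact pow_pos (div_pos hc1 hc0) 2
  rw [← hρ] at h
  have ht3N : 1 ≤ t ^ 3 := Nat.one_le_pow _ _ (by omega)
  have e3 : Λ ^ (A * t ^ 3) ≤ q * ρ ^ (t ^ 4) := by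
    calc Λ ^ (A * t ^ 3) = (Λ ^ A) ^ (t ^ 3) := by rw [pow_mul]
      _ ≤ (q * ρ ^ t) ^ (t ^ 3) := pow_le_pow_left₀ (pow_nonneg hΛ _) h.le _
      _ = q ^ (t ^ 3) * ρ ^ (t ^ 4) := by
          have e : t * t ^ 3 = t ^ 4 := by ring
          rw [mul_pow, ← pow_mul, e]
      _ ≤ q * ρ ^ (t ^ 4) := by
          apply mul_le_mul_of_nonneg_right _ (pow_nonneg hρ0.le _)
          exact pow_le_of_le_one hq0.le hq1 (by omega)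
  have e4 : ρ ^ (t ^ 4) * ((1 - 2 * η) ^ (t ^ 4)) ^ 2 = ((1 - η) ^ (t ^ 4)) ^ 2 := by
    rw [hρ, ← pow_mul, mul_comm 2 (t ^ 4), pow_mul, ← mul_pow, div_pow,
      div_mul_cancel₀ _ (pow_pos hc0 _).ne']
  calc Λ ^ (A * t ^ 3) * ((1 - 2 * η) ^ (t ^ 4)) ^ 2
      ≤ (q * ρ ^ (t ^ 4)) * ((1 - 2 * η) ^ (t ^ 4)) ^ 2 :=
        mul_le_mul_of_nonneg_right e3 (pow_nonneg (pow_nonneg hc0.le _) _)
    _ = q * ((1 - η) ^ (t ^ 4)) ^ 2 := by rw [mul_assoc, e4]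
    _ < ε0 * ((1 - η) ^ (t ^ 4)) ^ 2 :=
        mul_lt_mul_of_pos_right hqε (pow_pos (pow_pos hc1 _) _)

theorem pr14 {C a Λ : ℝ} (ha : 0 < a) (h : 1 / a ≤ C) (hΛ : C ≤ Λ) : 1 ≤ a * Λ := by
  have := h.trans hΛ
  rw [div_le_iff₀ ha] at this
  linarith

theorem exists_params {pA pb B0 : ℝ} (hC : Cst pA pb B0) {η : ℝ} (hη : 0 < η) (hη1 : η ≤ 1 / 4)
    {M0 ε0 K : ℝ} (hε0 : 0 < ε0) (hK : 0 ≤ K) (A : ℕ) :
    ∃ (s m : ℕ) (G r d ε Λ : ℝ), Par η (B0 + 1) ε pA pb s m G r d ∧ d ≤ η ∧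
      d / η < 1 / (8 * ((s : ℝ) + 2 * m + 1) ^ 2) ∧ 4 * r * m ≤ η ∧
      2 * K * (s + 2 * m) ≤ pA ^ 3 * pb / 256 * m ^ 2 ∧
      1000 ≤ Λ ∧ M0 ≤ Λ ∧ G = Λ ∧ r = (Λ ^ 6)⁻¹ ∧ d = (Λ ^ 16)⁻¹ ∧ 2 * (m : ℝ) ≤ Λ ∧
      Λ ^ (A * m) * ((1 - 2 * η) ^ s) ^ 2 < ε0 * ((1 - η) ^ s) ^ 2 := by
  have hpA := hC.hpA
  have hpb := hC.hpb
  have hB0 := hC.hB0
  obtain ⟨ε, hεdef⟩ : ∃ ε : ℝ, ε = 1 / (100 * (B0 + 2)) := ⟨_, rfl⟩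
  have hε : 0 < ε := by rw [hεdef]; positivity
  have i1 : 0 < 1 / ε := by positivity
  have i2 : 0 < 1 / η := by positivity
  have i3 : 0 < 1 / pb := by positivity
  have i4 : 0 < 24 / pA := by positivity
  have i5 : 0 ≤ |M0| := abs_nonneg _
  have i6 : M0 ≤ |M0| := le_abs_self _
  obtain ⟨C, hCdef⟩ : ∃ C : ℝ, C = 1000 + 1 / ε + 1 / η + 1 / pb + 24 / pA + |M0| := ⟨_, rfl⟩
  have hC1 : 1000 ≤ C := by linarith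
  have hCε : 1 / ε ≤ C := by linarith
  have hCη : 1 / η ≤ C := by linarith
  have hCpb : 1 / pb ≤ C := by linarith
  have hCpA : 24 / pA ≤ C := by linarith
  have hCM : M0 ≤ C := by linarith
  clear hCdef
  have hc0 : 0 < 1 - 2 * η := by linarith
  have hρ1 : 1 < ((1 - η) / (1 - 2 * η)) ^ 2 := by
    have h1 : 1 < (1 - η) / (1 - 2 * η) := by rw [lt_div_iff₀ hc0]; linarith
    exact one_lt_pow₀ h1 (by norm_num)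
  obtain ⟨q, hq0, hq1, hqε⟩ : ∃ q : ℝ, 0 < q ∧ q ≤ 1 ∧ q < ε0 := by
    refine ⟨min (1 / 2) (ε0 / 2), by positivity, ?_, ?_⟩
    · exact (min_le_left _ _).trans (by norm_num)
    · exact lt_of_le_of_lt (min_le_right _ _) (by linarith)
  have hc : 0 < pA ^ 3 * pb := by positivity
  have hev1 := pr12 (C := C) hρ1 hq0 A
  have hev2 : ∀ᶠ t : ℕ in atTop, 1536 * K / (pA ^ 3 * pb) + 1 ≤ (t : ℝ) :=
    tendsto_natCast_atTop_atTop.eventually_ge_atTop _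
  obtain ⟨t, ht1, ht2⟩ := (hev1.and hev2).exists
  have hK0 : 0 ≤ 1536 * K / (pA ^ 3 * pb) := by positivity
  have ht : (1 : ℝ) ≤ t := by linarith
  have htK : 1536 * K / (pA ^ 3 * pb) ≤ t := by linarith
  have htN : 1 ≤ t := by exact_mod_cast ht
  have ht4 : 1 ≤ (t : ℝ) ^ 4 := one_le_pow₀ ht
  have ht3 : 1 ≤ (t : ℝ) ^ 3 := one_le_pow₀ ht
  have ht34 : (t : ℝ) ^ 3 ≤ (t : ℝ) ^ 4 := pow_le_pow_right₀ ht (by norm_num)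
  have hΛC' : C * 1 ≤ C * (t : ℝ) ^ 4 := mul_le_mul_of_nonneg_left ht4 (by linarith)
  have hs1000' : 1000 * (t : ℝ) ^ 4 ≤ C * (t : ℝ) ^ 4 :=
    mul_le_mul_of_nonneg_right hC1 (by linarith)
  have hK11 := pr11 hK hc ht htK
  obtain ⟨Λ, hΛ⟩ : ∃ Λ : ℝ, Λ = C * (t : ℝ) ^ 4 := ⟨_, rfl⟩
  rw [← hΛ] at ht1 hΛC' hs1000'
  clear hΛ hev1 hev2
  have hΛC : C ≤ Λ := by linarith
  have hΛ1 : 1000 ≤ Λ := hC1.trans hΛC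
  have hεΛ := pr14 hε hCε hΛC
  have hηΛ := pr14 hη hCη hΛC
  have hpbΛ := pr14 hpb hCpb hΛC
  have hiη : 1 / η ≤ Λ := hCη.trans hΛC
  have hpAΛ : 24 ≤ Λ * pA := by
    have := hCpA.trans hΛC
    rwa [div_le_iff₀ hpA] at this
  have hexp := pr13 hη hη1 (A := A) (by linarith : (0 : ℝ) ≤ Λ) hq0 hq1 hqε htN ht1
  have c4 : ((t ^ 4 : ℕ) : ℝ) = (t : ℝ) ^ 4 := by push_cast; rfl
  have c3 : ((t ^ 3 : ℕ) : ℝ) = (t : ℝ) ^ 3 := by push_cast; rfl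
  clear ht1
  obtain ⟨s, hs⟩ : ∃ s : ℕ, s = t ^ 4 := ⟨_, rfl⟩
  obtain ⟨m, hm⟩ : ∃ m : ℕ, m = t ^ 3 := ⟨_, rfl⟩
  rw [← hs] at c4 hexp
  rw [← hm] at c3 hexp
  rw [← c4, ← c3] at hK11
  rw [← c4] at ht4 ht34 hs1000'
  rw [← c3] at ht3 ht34
  clear hs hm
  have hs1 : 1 ≤ s := by exact_mod_cast ht4
  have hm1 : 1 ≤ m := by exact_mod_cast ht3
  refine ⟨s, m, Λ, (Λ ^ 6)⁻¹, (Λ ^ 16)⁻¹, ε, Λ, ?_, pr8 hΛ1 hηΛ, ?_, pr10 hΛ1 hη hηΛ (by linarith),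
    hK11, hΛ1, hCM.trans hΛC, rfl, rfl, rfl, by linarith, hexp⟩
  · have h6 : 0 < Λ ^ 6 := by positivity
    have h16 : 0 < Λ ^ 16 := by positivity
    refine ⟨by linarith, hε, ?_, hs1, hm1, by linarith, inv_pos.mpr h6, inv_pos.mpr h16, pr1 hΛ1,
      pr2 hΛ1 hη hiη (by linarith) (by linarith) hs1000',
      pr3 hΛ1 hη hiη (by linarith) (by linarith) hε hεΛ,
      pr4 hΛ1 hη hiη (by linarith) (by linarith) (by linarith) (by linarith) hε hεΛ,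
      pr5 hΛ1 (by linarith) hε hεΛ,
      pr6 hΛ1 (by linarith) (by linarith) (by linarith) (by linarith) hpb hpbΛ,
      pr7 hΛ1 (by linarith) hpAΛ⟩
    rw [hεdef]
    have : B0 + 1 + 1 = B0 + 2 := by ring
    rw [this]
    apply le_of_eq
    field_simp
  · exact pr9 hΛ1 hη hiη (by linarith) (by linarith)

end Pool.Agent.Helper553.Orth
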