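import Pool.Agent.Helper553.Orth.Gram

set_option autoImplicit false
open MeasureTheory ProbabilityTheory Filter Topology Set Polynomial
open scoped ENNReal NNReal

namespace Pool.Agent.Helper553.Orth

/-- Normalised indicator of a short interval. -/
noncomputable def bump (a h : ℝ) : ℝ → ℝ := (Icc a (a + h)).indicator (fun _ => h⁻¹)

theorem bump_nonneg {a h : ℝ} (hh : 0 < h) (x : ℝ) : 0 ≤ bump a h x :=
  indicator_nonneg (fun _ _ => by positivity) x

theorem bump_integrable (a h : ℝ) : Integrable (bump a h) m01 :=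
  (integrable_const _).indicator measurableSet_Icc

theorem bump_integral {a h : ℝ} (ha : 0 ≤ a) (hh : 0 < h) (hah : a + h ≤ 1) :
    ∫ x, bump a h x ∂m01 = 1 := by
  unfold bump
  rw [integral_indicator measurableSet_Icc]
  unfold m01
  rw [Measure.restrict_restrict measurableSet_Icc,
    inter_eq_self_of_subset_left (Icc_subset_Icc ha hah), setIntegral_const]
  rw [measureReal_def, Real.volume_Icc]
  have : a + h - a = h := by ring
  rw [this, ENNReal.toReal_ofReal hh.le, smul_eq_mul]
  field_simp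

theorem bump_tendsto {a : ℝ} (ha : 0 ≤ a) (ha1 : a < 1) (p : ℝ[X]) :
    Tendsto (fun h => ∫ x, bump a h x * p.eval x ∂m01) (𝓝[>] 0) (𝓝 (p.eval a)) := by
  rw [Metric.tendsto_nhdsWithin_nhds]
  intro ε hε
  obtain ⟨δ, hδ, hδp⟩ := Metric.continuous_iff.mp p.continuous a (ε / 2) (by positivity)
  refine ⟨min δ (1 - a), lt_min hδ (by linarith), ?_⟩
  intro h hh hdist
  rw [mem_Ioi] at hh
  rw [Real.dist_eq, sub_zero, abs_of_pos hh] at hdist
  have h1 : h < δ := lt_of_lt_of_le hdist (min_le_left _ _)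
  have h2 : a + h ≤ 1 := by have := lt_of_lt_of_le hdist (min_le_right _ _); linarith
  have hint := integrable_mul_poly (bump_integrable a h) p
  have e1 : ∫ x, bump a h x * p.eval x ∂m01 - p.eval a =
      ∫ x, bump a h x * (p.eval x - p.eval a) ∂m01 := by
    have e2 : ∫ x, bump a h x * (p.eval x - p.eval a) ∂m01 =
        ∫ x, bump a h x * p.eval x ∂m01 - ∫ x, bump a h x * p.eval a ∂m01 := by
      rw [← integral_sub hint ((bump_integrable a h).mul_const _)]
      apply integral_congr_ae
      apply Eventually.of_forall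
      intro x
      ring
    rw [e2, integral_mul_const, bump_integral ha hh h2, one_mul]
  rw [Real.dist_eq, e1]
  have e3 : ‖∫ x, bump a h x * (p.eval x - p.eval a) ∂m01‖ ≤ ∫ x, bump a h x * (ε / 2) ∂m01 := by
    apply norm_integral_le_of_norm_le ((bump_integrable a h).mul_const _)
    apply Eventually.of_forall
    intro x
    rw [norm_mul, Real.norm_of_nonneg (bump_nonneg hh x)]
    by_cases hx : x ∈ Icc a (a + h)
    · apply mul_le_mul_of_nonneg_left _ (bump_nonneg hh x)
      have := hδp x (by rw [Real.dist_eq, abs_of_nonneg (by linarith [hx.1])]; linarith [hx.2])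
      rw [Real.dist_eq] at this
      exact this.le
    · have : bump a h x = 0 := indicator_of_notMem hx _
      rw [this, zero_mul, zero_mul]
  rw [integral_mul_const, bump_integral ha hh h2, one_mul, Real.norm_eq_abs] at e3
  linarith

theorem smear {f : ℝ → ℝ} (hf : Integrable f m01) (hf0 : 0 ≤ᵐ[m01] f) {κ ι : Type} [Fintype κ]
    [Fintype ι] (a : κ → ℝ) (ha : ∀ i, 0 ≤ a i ∧ a i < 1) (w : κ → ℝ) (hw : ∀ i, 0 ≤ w i)
    (P : ι → ι → ℝ[X]) (T : ι → ι → ℝ) (β : ℝ)
    (hclose : ∀ i j, |∫ x, f x * (P i j).eval x ∂m01 + ∑ k, w k * (P i j).eval (a k) - T i j| < β) :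
    ∃ g : ℝ → ℝ, Integrable g m01 ∧ 0 ≤ᵐ[m01] g ∧ ∫ x, |g x - f x| ∂m01 ≤ ∑ k, w k ∧
      ∀ i j, |∫ x, g x * (P i j).eval x ∂m01 - T i j| < β := by
  let G : ℝ → ℝ → ℝ := fun h x => f x + ∑ k, w k * bump (a k) h x
  have hGint : ∀ h, Integrable (G h) m01 := by
    intro h
    exact hf.add (integrable_finsetSum _ (fun k _ => (bump_integrable (a k) h).const_mul _))
  have hval : ∀ h (p : ℝ[X]), ∫ x, G h x * p.eval x ∂m01 =
      ∫ x, f x * p.eval x ∂m01 + ∑ k, w k * ∫ x, bump (a k) h x * p.eval x ∂m01 := by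
    intro h p
    have e1 : ∀ x, G h x * p.eval x = f x * p.eval x + ∑ k, w k * (bump (a k) h x * p.eval x) := by
      intro x
      simp only [G]
      rw [add_mul, Finset.sum_mul]
      congr 1
      apply Finset.sum_congr rfl
      intro k _
      ring
    simp_rw [e1]
    rw [integral_add (integrable_mul_poly hf p) (integrable_finsetSum _
      (fun k _ => (integrable_mul_poly (bump_integrable (a k) h) p).const_mul _)),
      integral_finsetSum _ (fun k _ => (integrable_mul_poly (bump_integrable (a k) h) p).const_mul _)]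
    congr 1
    apply Finset.sum_congr rfl
    intro k _
    rw [integral_const_mul]
  have hlim : ∀ i j, ∀ᶠ h in 𝓝[>] (0 : ℝ), |∫ x, G h x * (P i j).eval x ∂m01 - T i j| < β := by
    intro i j
    have ht : Tendsto (fun h => |∫ x, G h x * (P i j).eval x ∂m01 - T i j|) (𝓝[>] 0)
        (𝓝 |∫ x, f x * (P i j).eval x ∂m01 + ∑ k, w k * (P i j).eval (a k) - T i j|) := by
      simp_rw [hval]
      apply Tendsto.abs
      apply Tendsto.sub_const
      apply Tendsto.const_add
      apply tendsto_finsetSum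
      intro k _
      exact (bump_tendsto (ha k).1 (ha k).2 (P i j)).const_mul _
    exact ht.eventually (gt_mem_nhds (hclose i j))
  have hlim' : ∀ᶠ h in 𝓝[>] (0 : ℝ), ∀ i j, |∫ x, G h x * (P i j).eval x ∂m01 - T i j| < β := by
    rw [eventually_all]; intro i
    rw [eventually_all]; intro j
    exact hlim i j
  have hsmall : ∀ᶠ h in 𝓝[>] (0 : ℝ), ∀ k, a k + h ≤ 1 := by
    rw [eventually_all]; intro k
    have : ∀ᶠ h in 𝓝 (0 : ℝ), a k + h < 1 := by
      have h1 : Tendsto (fun h : ℝ => a k + h) (𝓝 0) (𝓝 (a k + 0)) := tendsto_const_nhds.add tendsto_id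
      rw [add_zero] at h1
      exact h1.eventually (gt_mem_nhds (ha k).2)
    exact (this.filter_mono nhdsWithin_le_nhds).mono (fun h hh => hh.le)
  have hpos : ∀ᶠ h in 𝓝[>] (0 : ℝ), 0 < h := eventually_mem_nhdsWithin
  obtain ⟨h, h1, h2, h3⟩ := (hlim'.and (hsmall.and hpos)).exists
  refine ⟨G h, hGint h, ?_, ?_, h1⟩
  · filter_upwards [hf0] with x hx
    exact add_nonneg hx (Finset.sum_nonneg (fun k _ => mul_nonneg (hw k) (bump_nonneg h3 x)))
  · have e1 : ∀ x, |G h x - f x| = ∑ k, w k * bump (a k) h x := by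
      intro x
      simp only [G]
      rw [add_sub_cancel_left, abs_of_nonneg]
      exact Finset.sum_nonneg (fun k _ => mul_nonneg (hw k) (bump_nonneg h3 x))
    simp_rw [e1]
    rw [integral_finsetSum _ (fun k _ => (bump_integrable (a k) h).const_mul _)]
    apply le_of_eq
    apply Finset.sum_congr rfl
    intro k _
    rw [integral_const_mul, bump_integral (ha k).1 h3 (h2 k), mul_one]

end Pool.Agent.Helper553.Orth
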