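import Pool.Agent.Helper553.Orth.Family

set_option autoImplicit false
open MeasureTheory ProbabilityTheory Filter Topology Set Polynomial
open scoped ENNReal NNReal

namespace Pool.Agent.Helper553.Orth

/-- The frame. -/
noncomputable def frame (y0 r d : ℝ) (s m : ℕ) (Ψ : ℝ[X]) (t : ℕ → ℝ[X]) (τ : ℝ) :
    Unit ⊕ (Fin s ⊕ (Fin m ⊕ Fin m)) → ℝ[X]
  | Sum.inl _ => Wp y0 r d m * Ψ
  | Sum.inr (Sum.inl j) => Wp y0 r d m * ((X - C y0) * t j)
  | Sum.inr (Sum.inr (Sum.inl k)) => C τ * (Ψ * (Wk y0 r d m k * (X - C (nd y0 r k + d))))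
  | Sum.inr (Sum.inr (Sum.inr k)) => C τ * (Ψ * (Wk y0 r d m k * (X - C (nd y0 r k))))

/-- The polynomial Q. -/
noncomputable def Qy {s m : ℕ} (t : ℕ → ℝ[X]) (y : Fin s ⊕ (Fin m ⊕ Fin m) → ℝ) : ℝ[X] :=
  ∑ j : Fin s, C (y (Sum.inl j)) * t j

theorem rp_frame (y0 r d : ℝ) (s m : ℕ) (Ψ : ℝ[X]) (t : ℕ → ℝ[X]) (τ b : ℝ)
    (y : Fin s ⊕ (Fin m ⊕ Fin m) → ℝ) :
    rp (frame y0 r d s m Ψ t τ) (Sum.elim (fun _ : Unit => b) y) =
      Pp y0 r d Ψ (Qy t y) (fun k => y (Sum.inr (Sum.inl k))) (fun k => y (Sum.inr (Sum.inr k))) b τ := by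
  have e1 : rp (frame y0 r d s m Ψ t τ) (Sum.elim (fun _ : Unit => b) y) =
      C b * (Wp y0 r d m * Ψ) + (∑ j : Fin s, C (y (Sum.inl j)) * (Wp y0 r d m * ((X - C y0) * t j)) +
        (∑ k : Fin m, C (y (Sum.inr (Sum.inl k))) *
            (C τ * (Ψ * (Wk y0 r d m k * (X - C (nd y0 r k + d))))) +
          ∑ k : Fin m, C (y (Sum.inr (Sum.inr k))) *
            (C τ * (Ψ * (Wk y0 r d m k * (X - C (nd y0 r k))))))) := by
    unfold rp
    rw [Fintype.sum_sum_type, Fintype.sum_sum_type, Fintype.sum_sum_type, Fintype.sum_unique]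
    rfl
  have e2 : Wp y0 r d m * ((X - C y0) * Qy t y) =
      ∑ j : Fin s, C (y (Sum.inl j)) * (Wp y0 r d m * ((X - C y0) * t j)) := by
    unfold Qy
    rw [Finset.mul_sum, Finset.mul_sum]
    apply Finset.sum_congr rfl
    intro j _
    ring
  have e3 : C τ * (Ψ * ∑ k : Fin m, Wk y0 r d m k * lp y0 r d (fun k => y (Sum.inr (Sum.inl k)))
      (fun k => y (Sum.inr (Sum.inr k))) k) =
      ∑ k : Fin m, C (y (Sum.inr (Sum.inl k))) *
            (C τ * (Ψ * (Wk y0 r d m k * (X - C (nd y0 r k + d))))) +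
          ∑ k : Fin m, C (y (Sum.inr (Sum.inr k))) *
            (C τ * (Ψ * (Wk y0 r d m k * (X - C (nd y0 r k))))) := by
    rw [Finset.mul_sum, Finset.mul_sum, ← Finset.sum_add_distrib]
    apply Finset.sum_congr rfl
    intro k _
    unfold lp
    ring
  rw [e1]
  unfold Pp Zp
  rw [e2, e3]

/-- Bound for the members of the second family on the cluster. -/
theorem t_bound {ν : Measure ℝ} {η : ℝ} (hB : Base ν η) {W Ψ : ℝ[X]} {t : ℕ → ℝ[X]} {s : ℕ}
    (hs : 1 ≤ s) (hd : Ψ.natDegree = s) (hRB : RB (1 - 2 * η) Ψ) (hlc : 0 < Ψ.leadingCoeff)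
    (h1 : II hB.hU (W * Ψ * (W * Ψ)) = 1)
    (h2 : ∀ f : ℝ[X], f.natDegree < s → II hB.hU (W * Ψ * (W * ((X - C (1 - η)) * f))) = 0)
    (htd : ∀ j, (t j).natDegree = j) (htRB : ∀ j, RB (1 - 2 * η) (t j))
    (htlc : ∀ j, 0 < (t j).leadingCoeff)
    (hto : ∀ i j, II hB.hU (W * ((X - C (1 - η)) * t i) * (W * ((X - C (1 - η)) * t j))) =
        if i = j then 1 else 0)
    {L : ℝ} (hgrow : (1 + L / η) ^ s ≤ 2) (j : ℕ) (hj : j ≤ s) {x : ℝ}
    (hx : x ∈ Icc (1 - η) (1 - η + L)) :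
    |(t j).eval x| ≤ 2 / η * Ψ.eval x ∧ |(derivative (t j)).eval x| ≤ 2 / η * (s / η) * Ψ.eval x ∧
    |(derivative (derivative (t j))).eval x| ≤ 2 / η * (s / η) ^ 2 * Ψ.eval x := by
  have hη := hB.hη
  have hy0 : (1 - 2 * η) + η ≤ 1 - η := by linarith
  have hyx : (1 - 2 * η) + η ≤ x := by linarith [hx.1]
  obtain ⟨p1, p2, p3, p4, p5⟩ := RB_bounds hη (htRB j) (htlc j) hyx
  rw [htd j] at p3 p5
  obtain ⟨q1, q2⟩ := RB_growth hη (htRB j) (htlc j) hy0 hx.1
  rw [htd j] at q2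
  have hΨ0 := (RB_bounds hη hRB hlc hy0).1
  have hΨx := (RB_growth hη hRB hlc hy0 hx.1).1
  have hty0 := (RB_bounds hη (htRB j) (htlc j) hy0).1
  -- value at the left end point
  have hext := extremal hB hs hd hΨ0 h1 h2 (t j) (by rw [htd j]; exact hj)
  have hnorm : II hB.hU (W * t j * (W * t j)) ≤ (1 / η) ^ 2 := by
    have e1 : II hB.hU (W * t j * (W * t j)) ≤
        II hB.hU (((1 / η) ^ 2) • (W * ((X - C (1 - η)) * t j) * (W * ((X - C (1 - η)) * t j)))) := by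
      apply hB.II_mono
      intro u hu
      simp only [eval_smul, eval_mul, eval_sub, eval_X, eval_C, smul_eq_mul]
      have e2 : 1 ≤ (1 / η) ^ 2 * ((u - (1 - η)) * (u - (1 - η))) := by
        have e3 : η ≤ (1 - η) - u := by linarith [hu.2]
        have e4 : 1 ≤ (1 / η) * ((1 - η) - u) := by
          rw [one_div, inv_mul_eq_div, le_div_iff₀ hη]; linarith
        nlinarith
      have e5 : 0 ≤ W.eval u * (t j).eval u * (W.eval u * (t j).eval u) := mul_self_nonneg _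
      calc W.eval u * (t j).eval u * (W.eval u * (t j).eval u)
          = 1 * (W.eval u * (t j).eval u * (W.eval u * (t j).eval u)) := by ring
        _ ≤ ((1 / η) ^ 2 * ((u - (1 - η)) * (u - (1 - η)))) *
            (W.eval u * (t j).eval u * (W.eval u * (t j).eval u)) :=
            mul_le_mul_of_nonneg_right e2 e5
        _ = _ := by ring
    rw [map_smul, hto, if_pos rfl, smul_eq_mul, mul_one] at e1
    exact e1
  have hval : (t j).eval (1 - η) ≤ Ψ.eval (1 - η) * (1 / η) := by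
    have e1 : ((t j).eval (1 - η)) ^ 2 ≤ (Ψ.eval (1 - η) * (1 / η)) ^ 2 := by
      rw [mul_pow]
      exact hext.trans (mul_le_mul_of_nonneg_left hnorm (sq_nonneg _))
    exact (pow_le_pow_iff_left₀ hty0.le (by positivity) two_ne_zero).mp e1
  have hL : 0 ≤ (x - (1 - η)) / η := div_nonneg (by linarith [hx.1]) hη.le
  have hg2 : (1 + (x - (1 - η)) / η) ^ j ≤ 2 := by
    have e1 : (1 + (x - (1 - η)) / η) ^ j ≤ (1 + (x - (1 - η)) / η) ^ s :=
      pow_le_pow_right₀ (by linarith) hj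
    have e2 : (1 + (x - (1 - η)) / η) ^ s ≤ (1 + L / η) ^ s := by
      apply pow_le_pow_left₀ (by linarith)
      have : (x - (1 - η)) / η ≤ L / η := div_le_div_of_nonneg_right (by linarith [hx.2]) hη.le
      linarith
    linarith
  have hmain : (t j).eval x ≤ 2 / η * Ψ.eval x := by
    calc (t j).eval x ≤ (t j).eval (1 - η) * (1 + (x - (1 - η)) / η) ^ j := q2
      _ ≤ (Ψ.eval (1 - η) * (1 / η)) * 2 := mul_le_mul hval hg2 (by positivity) (by positivity)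
      _ = 2 / η * Ψ.eval (1 - η) := by ring
      _ ≤ 2 / η * Ψ.eval x := mul_le_mul_of_nonneg_left hΨx (by positivity)
  have hjs : (j : ℝ) / η ≤ s / η := div_le_div_of_nonneg_right (by exact_mod_cast hj) hη.le
  refine ⟨?_, ?_, ?_⟩
  · rw [abs_of_pos p1]; exact hmain
  · rw [abs_of_nonneg p2]
    calc _ ≤ (j / η) * (t j).eval x := p3
      _ ≤ (s / η) * (2 / η * Ψ.eval x) := mul_le_mul hjs hmain p1.le (by positivity)
      _ = _ := by ring
  · rw [abs_of_nonneg p4]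
    calc _ ≤ (j / η) ^ 2 * (t j).eval x := p5
      _ ≤ (s / η) ^ 2 * (2 / η * Ψ.eval x) :=
          mul_le_mul (pow_le_pow_left₀ (by positivity) hjs 2) hmain p1.le (by positivity)
      _ = _ := by ring

/-- Numerical parameters. -/
structure Par (η B ε pA pb : ℝ) (s m : ℕ) (G r d : ℝ) : Prop where
  hB : 1 ≤ B
  hε : 0 < ε
  hεB : ε * (100 * (B + 1)) ≤ 1
  hs : 1 ≤ s
  hm : 1 ≤ m
  hG1 : 1 ≤ G
  hr : 0 < r
  hd0 : 0 < d
  hd : d ≤ r / 4
  hgrow : (1 + 4 * r * m / η) ^ s ≤ 2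
  hlam : (s / η) * r ≤ ε
  hA : (2 * s * G / η) * (4 * r * m) ≤ ε
  hdG : d * (m * G) ≤ ε * r
  hbad : (18 * (s + 2 * m) + 16) * (d * (m * (3 * G / r))) ≤ pb / 2
  hNG : (s + 2 * m) * (1 / G ^ 2) ≤ pA / 8

theorem hyp_of {ν : Measure ℝ} {η : ℝ} (hB : Base ν η) {Ψ : ℝ[X]} {t : ℕ → ℝ[X]} {s m : ℕ}
    {B ε pA pb G r d : ℝ} (hP : Par η B ε pA pb s m G r d)
    (hd : Ψ.natDegree = s) (hRB : RB (1 - 2 * η) Ψ) (hlc : 0 < Ψ.leadingCoeff)
    (h1 : II hB.hU (Wp (1 - η) r d m * Ψ * (Wp (1 - η) r d m * Ψ)) = 1)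
    (h2 : ∀ f : ℝ[X], f.natDegree < s →
      II hB.hU (Wp (1 - η) r d m * Ψ * (Wp (1 - η) r d m * ((X - C (1 - η)) * f))) = 0)
    (htd : ∀ j, (t j).natDegree = j) (htRB : ∀ j, RB (1 - 2 * η) (t j))
    (htlc : ∀ j, 0 < (t j).leadingCoeff)
    (hto : ∀ i j, II hB.hU (Wp (1 - η) r d m * ((X - C (1 - η)) * t i) *
      (Wp (1 - η) r d m * ((X - C (1 - η)) * t j))) = if i = j then 1 else 0)
    (y : Fin s ⊕ (Fin m ⊕ Fin m) → ℝ) (hy : ∀ i, |y i| ≤ G) :
    Hyp m (1 - η) r d B ε G (2 * s * G / η) (s / η) Ψ (Qy t y)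
      (fun k => y (Sum.inr (Sum.inl k))) (fun k => y (Sum.inr (Sum.inr k))) := by
  have hη := hB.hη
  have hG0 : 0 ≤ G := by linarith [hP.hG1]
  have hy0 : (1 - 2 * η) + η ≤ 1 - η := by linarith
  have hgen : ∀ x ∈ Icc (1 - η) (1 - η + 4 * r * m), ∀ (D : ℝ[X] → ℝ[X])
      (_ : D = id ∨ D = derivative ∨ D = fun p => derivative (derivative p)) (cst : ℝ)
      (_ : ∀ j < s, |(D (t j)).eval x| ≤ cst * Ψ.eval x),
      |(D (Qy t y)).eval x| ≤ s * G * cst * Ψ.eval x := by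
    intro x hx D hD cst hcst
    have hDe : (D (Qy t y)).eval x = ∑ j : Fin s, y (Sum.inl j) * (D (t j)).eval x := by
      unfold Qy
      rcases hD with rfl | rfl | rfl
      · simp [eval_finsetSum]
      · simp [eval_finsetSum]
      · simp [eval_finsetSum]
    rw [hDe]
    calc |∑ j : Fin s, y (Sum.inl j) * (D (t j)).eval x|
        ≤ ∑ j : Fin s, |y (Sum.inl j) * (D (t j)).eval x| := Finset.abs_sum_le_sum_abs _ _
      _ ≤ ∑ _j : Fin s, G * (cst * Ψ.eval x) := by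
          apply Finset.sum_le_sum
          intro j _
          exact am (hy _) (hcst j j.2)
      _ = s * G * cst * Ψ.eval x := by
          rw [Finset.sum_const, nsmul_eq_mul, Finset.card_univ, Fintype.card_fin]; ring
  refine ⟨hP.hr, hP.hd0, hP.hd, hP.hm, hP.hB, hP.hε, hP.hεB, by positivity, hP.hlam, by positivity,
    hP.hA, hG0, fun k => hy _, fun k => hy _, ?_, ?_⟩
  · intro x hx
    obtain ⟨p1, p2, p3, p4, p5⟩ := RB_bounds hη hRB hlc (by linarith [hx.1] : (1 - 2 * η) + η ≤ x)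
    rw [hd] at p3 p5
    refine ⟨p1, ?_, ?_⟩
    · rw [abs_of_nonneg p2]; exact p3
    · rw [abs_of_nonneg p4]; exact p5
  · intro x hx
    have hb := fun j (hj : j < s) => t_bound hB hP.hs hd hRB hlc h1 h2 htd htRB htlc hto hP.hgrow
      j hj.le hx
    refine ⟨?_, ?_, ?_⟩
    · have := hgen x hx id (Or.inl rfl) (2 / η) (fun j hj => (hb j hj).1)
      refine this.trans (le_of_eq ?_)
      ring
    · have := hgen x hx (fun p => derivative p) (Or.inr (Or.inl rfl)) (2 / η * (s / η))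
        (fun j hj => (hb j hj).2.1)
      refine this.trans (le_of_eq ?_)
      ring
    · have := hgen x hx (fun p => derivative (derivative p)) (Or.inr (Or.inr rfl))
        (2 / η * (s / η) ^ 2) (fun j hj => (hb j hj).2.2)
      refine this.trans (le_of_eq ?_)
      ring

end Pool.Agent.Helper553.Orth
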