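import Pool.Agent.Helper553.Orth.Params

set_option autoImplicit false
open MeasureTheory ProbabilityTheory Filter Topology Set Polynomial
open scoped ENNReal NNReal

namespace Pool.Agent.Helper553.Orth

/-- Cutting off the density near the right end point. -/
noncomputable def cut (F : ℝ → ℝ) (η : ℝ) : ℝ → ℝ :=
  (Icc (0 : ℝ) (1 - 2 * η)).indicator (fun x => F x + η)

theorem cut_integrable {F : ℝ → ℝ} (hF : Integrable F m01) (η : ℝ) : Integrable (cut F η) m01 :=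
  (hF.add (integrable_const _)).indicator measurableSet_Icc

theorem cut_nonneg {F : ℝ → ℝ} (hF0 : 0 ≤ᵐ[m01] F) {η : ℝ} (hη : 0 ≤ η) : 0 ≤ᵐ[m01] cut F η := by
  filter_upwards [hF0] with x hx
  unfold cut
  by_cases h : x ∈ Icc (0 : ℝ) (1 - 2 * η)
  · rw [indicator_of_mem h]
    exact add_nonneg hx hη
  · rw [indicator_of_notMem h]
    exact le_refl _

theorem cut_base {F : ℝ → ℝ} (hF : Integrable F m01) (hF0 : 0 ≤ᵐ[m01] F) {η : ℝ} (hη : 0 < η)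
    (hη1 : η ≤ 1 / 4) : Base (dens (cut F η)) η := by
  apply dens_base (cut_integrable hF η) (cut_nonneg hF0 hη.le) hη hη1
  · filter_upwards [hF0] with x hx hx'
    unfold cut
    rw [indicator_of_mem hx']
    have : (0 : ℝ) ≤ F x := hx
    linarith
  · apply Eventually.of_forall
    intro x hx
    exact indicator_of_notMem hx _

theorem cut_tendsto {F : ℝ → ℝ} (hF : Integrable F m01) :
    Tendsto (fun n : ℕ => ∫ x, |cut F (1 / ((n : ℝ) + 4)) x - F x| ∂m01) atTop (𝓝 0) := by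
  have h0 : ∫ _x, (0 : ℝ) ∂m01 = 0 := integral_zero _ _
  rw [← h0]
  apply tendsto_integral_of_dominated_convergence (fun x => |F x| + 1)
  · intro n
    exact ((cut_integrable hF _).sub hF).abs.aestronglyMeasurable
  · exact hF.abs.add (integrable_const _)
  · intro n
    apply Eventually.of_forall
    intro x
    rw [Real.norm_eq_abs, abs_abs]
    unfold cut
    have hn : (0 : ℝ) ≤ n := Nat.cast_nonneg n
    have h1 : 1 / ((n : ℝ) + 4) ≤ 1 := by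
      rw [div_le_one (by positivity)]; linarith
    have h2 : 0 < 1 / ((n : ℝ) + 4) := by positivity
    by_cases h : x ∈ Icc (0 : ℝ) (1 - 2 * (1 / ((n : ℝ) + 4)))
    · rw [indicator_of_mem h, add_sub_cancel_left, abs_of_pos h2]
      have := abs_nonneg (F x)
      linarith
    · rw [indicator_of_notMem h, zero_sub, abs_neg]
      linarith
  · have hne : ∀ᵐ x ∂m01, x ≠ 1 := by
      unfold m01
      exact ae_restrict_of_ae (Measure.ae_ne volume 1)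
    filter_upwards [m01_ae, hne] with x hx hx1
    have hx1' : x < 1 := lt_of_le_of_ne hx.2 hx1
    have hlim : Tendsto (fun n : ℕ => 1 / ((n : ℝ) + 4)) atTop (𝓝 0) := by
      have h1 : Tendsto (fun n : ℕ => (n : ℝ) + 4) atTop atTop :=
        tendsto_atTop_add_const_right _ _ tendsto_natCast_atTop_atTop
      have h2 := h1.inv_tendsto_atTop
      refine h2.congr (fun n => ?_)
      rw [Pi.inv_apply, one_div]
    have hev : ∀ᶠ n : ℕ in atTop, 1 / ((n : ℝ) + 4) < (1 - x) / 2 :=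
      hlim.eventually (gt_mem_nhds (by linarith))
    refine hlim.congr' ?_
    filter_upwards [hev] with n hn
    unfold cut
    have hn0 : (0 : ℝ) ≤ n := Nat.cast_nonneg n
    have h2 : 0 < 1 / ((n : ℝ) + 4) := by positivity
    rw [indicator_of_mem (by constructor <;> linarith [hx.1]), add_sub_cancel_left, abs_of_pos h2]

theorem exists_cut {F : ℝ → ℝ} (hF : Integrable F m01) {ε0 : ℝ} (hε0 : 0 < ε0) :
    ∃ η : ℝ, 0 < η ∧ η ≤ 1 / 4 ∧ ∫ x, |cut F η x - F x| ∂m01 < ε0 := by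
  obtain ⟨n, hn⟩ := ((cut_tendsto hF).eventually (gt_mem_nhds hε0)).exists
  refine ⟨1 / ((n : ℝ) + 4), by positivity, ?_, hn⟩
  have hn0 : (0 : ℝ) ≤ n := Nat.cast_nonneg n
  rw [div_le_div_iff₀ (by positivity) (by norm_num)]
  linarith

theorem node_lt {η r d : ℝ} (hη1 : η ≤ 1 / 4) (hr : 0 < r) (hd0 : 0 < d) (hd : d ≤ r / 4) {m : ℕ}
    (hcl : 4 * r * m ≤ η) (i : Fin m ⊕ Fin m) :
    0 ≤ node (1 - η) r d m i ∧ node (1 - η) r d m i < 1 := by
  have key : ∀ k : Fin m, ∀ x, x ∈ Icc (nd (1 - η) r k) (nd (1 - η) r k + d) → 0 ≤ x ∧ x < 1 := by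
    intro k x hx
    unfold nd at hx
    have h1 : (0 : ℝ) ≤ (k : ℕ) := by positivity
    have h2 : ((k : ℕ) : ℝ) + 1 ≤ m := by exact_mod_cast k.2
    have h3 : 0 ≤ 4 * r * (k : ℕ) := by positivity
    have h4 : 4 * r * (((k : ℕ) : ℝ) + 1) ≤ 4 * r * m := mul_le_mul_of_nonneg_left h2 (by positivity)
    constructor
    · linarith [hx.1]
    · have := hx.2
      have e : 4 * r * (((k : ℕ) : ℝ) + 1) = 4 * r * (k : ℕ) + 4 * r := by ring
      linarith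
  rcases i with k | k
  · exact key k _ ⟨le_refl _, by simp only [node]; linarith⟩
  · exact key k _ ⟨by simp only [node]; linarith, le_refl _⟩

theorem natDegree_frame {ν : Measure ℝ} {η : ℝ} {hB : Base ν η} {s m : ℕ} {r d : ℝ} {Ψ : ℝ[X]}
    {t : ℕ → ℝ[X]} (hF : Fam hB s m r d Ψ t) (τ : ℝ)
    (i : Unit ⊕ (Fin s ⊕ (Fin m ⊕ Fin m))) :
    (frame (1 - η) r d s m Ψ t τ i).natDegree ≤ s + 2 * m := by
  have hW := natDegree_Wp (1 - η) r d m
  have hΨ := hF.hd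
  have loc : ∀ (k : Fin m) (c : ℝ),
      (C τ * (Ψ * (Wk (1 - η) r d m k * (X - C c)))).natDegree ≤ s + 2 * m := by
    intro k c
    have hm : 1 ≤ m := by have := k.2; omega
    have h1 := natDegree_Wk (1 - η) r d m k
    have h2 : (Wk (1 - η) r d m k * (X - C c)).natDegree ≤ 2 * (m - 1) + 1 := by
      refine natDegree_mul_le.trans ?_
      rw [natDegree_X_sub_C]; omega
    have h3 : (Ψ * (Wk (1 - η) r d m k * (X - C c))).natDegree ≤ s + (2 * (m - 1) + 1) :=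
      natDegree_mul_le.trans (by rw [hΨ]; omega)
    have h4 := natDegree_C_mul_le τ (Ψ * (Wk (1 - η) r d m k * (X - C c)))
    omega
  rcases i with u | (j | (k | k))
  · show (Wp (1 - η) r d m * Ψ).natDegree ≤ _
    refine natDegree_mul_le.trans ?_
    omega
  · show (Wp (1 - η) r d m * ((X - C (1 - η)) * t j)).natDegree ≤ _
    have h1 : ((X - C (1 - η)) * t j).natDegree ≤ 1 + (j : ℕ) := by
      refine natDegree_mul_le.trans ?_
      rw [natDegree_X_sub_C, hF.htd]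
    have hj := j.2
    refine natDegree_mul_le.trans ?_
    omega
  · exact loc k _
  · exact loc k _

theorem mass_aux {Λ τ q d r : ℝ} {m : ℕ} (hm : 1 ≤ m) (hΛ : 1000 ≤ Λ)
    (hτ : (Λ ^ 18)⁻¹ ≤ τ) (hr : r = (Λ ^ 6)⁻¹) (hd : d = (Λ ^ 16)⁻¹)
    (hq : q = (2 * r) ^ 2) :
    Λ ^ 2 ≤ Λ ^ (94 * m) * (τ * (q ^ (m - 1) * d)) ^ 2 := by
  have h0 : 0 < Λ := by linarith
  have hq1 : (Λ ^ 12)⁻¹ ≤ q := by
    rw [hq, hr]
    have e : (2 * (Λ ^ 6)⁻¹) ^ 2 = 4 * (Λ ^ 12)⁻¹ := by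
      rw [mul_pow, inv_pow, ← pow_mul]; norm_num
    rw [e]
    have : 0 < (Λ ^ 12)⁻¹ := by positivity
    linarith
  have hqm : (Λ ^ (12 * m))⁻¹ ≤ q ^ (m - 1) := by
    calc (Λ ^ (12 * m))⁻¹ ≤ (Λ ^ (12 * (m - 1)))⁻¹ := by
          apply inv_anti₀ (by positivity)
          apply pow_le_pow_right₀ (by linarith)
          omega
      _ = ((Λ ^ 12)⁻¹) ^ (m - 1) := by rw [inv_pow, ← pow_mul]
      _ ≤ q ^ (m - 1) := pow_le_pow_left₀ (by positivity) hq1 _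
  have h1 : (Λ ^ (34 + 12 * m))⁻¹ ≤ τ * (q ^ (m - 1) * d) := by
    have e : (Λ ^ (34 + 12 * m))⁻¹ = (Λ ^ 18)⁻¹ * ((Λ ^ (12 * m))⁻¹ * (Λ ^ 16)⁻¹) := by
      rw [← mul_inv, ← mul_inv, ← pow_add, ← pow_add]
      congr 2
      ring
    rw [e, ← hd]
    have hd0 : 0 ≤ d := by rw [hd]; positivity
    apply mul_le_mul hτ _ (by positivity) (le_trans (by positivity) hτ)
    exact mul_le_mul_of_nonneg_right hqm hd0
  have h2 : ((Λ ^ (34 + 12 * m))⁻¹) ^ 2 ≤ (τ * (q ^ (m - 1) * d)) ^ 2 :=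
    pow_le_pow_left₀ (by positivity) h1 2
  calc Λ ^ 2 ≤ Λ ^ (94 * m) * ((Λ ^ (34 + 12 * m))⁻¹) ^ 2 := by
        rw [inv_pow, ← pow_mul, ← div_eq_mul_inv, le_div_iff₀ (by positivity), ← pow_add]
        apply pow_le_pow_right₀ (by linarith)
        omega
    _ ≤ _ := mul_le_mul_of_nonneg_left h2 (by positivity)

theorem mass_sum {ν : Measure ℝ} {η : ℝ} {hB : Base ν η} {s m : ℕ} {r d : ℝ} {Ψ : ℝ[X]}
    {t : ℕ → ℝ[X]} (hF : Fam hB s m r d Ψ t) (hs : 1 ≤ s) (hm : 1 ≤ m) (hr0 : 0 < r) (hd0 : 0 < d)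
    (hdr : d ≤ r / 4) (hcl : 4 * r * m ≤ η) {τ Λ ε0 : ℝ} (hτ0 : 0 < τ)
    (hΛ : 1000 ≤ Λ) (hM : II hB.hU 1 ≤ Λ) (hτ : (Λ ^ 18)⁻¹ ≤ τ) (hr : r = (Λ ^ 6)⁻¹)
    (hd : d = (Λ ^ 16)⁻¹) (hmΛ : 2 * (m : ℝ) ≤ Λ)
    (hexp : Λ ^ (94 * m) * ((1 - 2 * η) ^ s) ^ 2 < ε0 * ((1 - η) ^ s) ^ 2) :
    ∑ i, mass (1 - η) r d s m Ψ t τ i < ε0 := by
  have hη := hB.hη
  have hη1 := hB.hη1
  have h0 : 0 < Λ := by linarith
  have hy0 : (1 - 2 * η) + η ≤ 1 - η := by linarith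
  have hσ := (RB_bounds hη hF.hRB hF.hlc hy0).1
  have hPL := Psi_lower hF hs hr0 hd0 hdr hcl
  obtain ⟨σ, hσdef⟩ : ∃ σ : ℝ, σ = Ψ.eval (1 - η) := ⟨_, rfl⟩
  rw [← hσdef] at hσ hPL
  obtain ⟨q, hq⟩ : ∃ q : ℝ, q = (2 * r) ^ 2 := ⟨_, rfl⟩
  have hqpos : 0 < q := by rw [hq]; positivity
  obtain ⟨L, hL⟩ : ∃ L : ℝ, L = τ * (q ^ (m - 1) * d) := ⟨_, rfl⟩
  have hLpos : 0 < L := by rw [hL]; positivity
  have hmass : ∀ i, mass (1 - η) r d s m Ψ t τ i ≤ ((σ * L) ^ 2)⁻¹ := by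
    intro i
    have h := frame_self hF hr0 hd0 hdr hτ0 i
    rw [← hσdef, ← hq] at h
    unfold mass
    apply inv_anti₀ (by positivity)
    rw [← sq_abs ((frame (1 - η) r d s m Ψ t τ (Sum.inr (Sum.inr i))).eval
      (node (1 - η) r d m i))]
    apply pow_le_pow_left₀ (by positivity)
    refine le_trans (le_of_eq ?_) h
    rw [hL]; ring
  have hsum : ∑ i, mass (1 - η) r d s m Ψ t τ i ≤ 2 * m * ((σ * L) ^ 2)⁻¹ := by
    refine (Finset.sum_le_sum (fun i _ => hmass i)).trans ?_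
    rw [Finset.sum_const, Finset.card_univ, Fintype.card_sum, Fintype.card_fin, nsmul_eq_mul]
    push_cast
    apply le_of_eq
    ring
  refine lt_of_le_of_lt hsum ?_
  have haux := mass_aux hm hΛ hτ hr hd hq
  rw [← hL] at haux
  have hA : 0 < ((1 - η) ^ s) ^ 2 := by
    have : 0 < 1 - η := by linarith
    positivity
  rw [← div_eq_mul_inv, div_lt_iff₀ (by positivity)]
  obtain ⟨A, hAdef⟩ : ∃ A : ℝ, A = ((1 - η) ^ s) ^ 2 := ⟨_, rfl⟩
  obtain ⟨B, hBdef⟩ : ∃ B : ℝ, B = ((1 - 2 * η) ^ s) ^ 2 := ⟨_, rfl⟩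
  rw [← hAdef] at hPL hexp hA
  rw [← hBdef] at hPL hexp
  have hB0 : 0 ≤ B := by rw [hBdef]; positivity
  obtain ⟨P, hPdef⟩ : ∃ P : ℝ, P = Λ ^ (94 * m) := ⟨_, rfl⟩
  rw [← hPdef] at haux hexp
  -- 2 m A ≤ 2 m σ² B M ≤ Λ² σ² B ≤ P L² σ² B < ε0 A L² σ²
  have hM0 : 0 ≤ II hB.hU 1 := by
    by_contra hcon
    push Not at hcon
    have : σ ^ 2 * (B * II hB.hU 1) ≤ 0 :=
      mul_nonpos_of_nonneg_of_nonpos (sq_nonneg _) (mul_nonpos_of_nonneg_of_nonpos hB0 hcon.le)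
    linarith
  have s1 : 2 * (m : ℝ) * A ≤ 2 * m * (σ ^ 2 * (B * II hB.hU 1)) :=
    mul_le_mul_of_nonneg_left hPL (by positivity)
  have s2 : 2 * (m : ℝ) * (σ ^ 2 * (B * II hB.hU 1)) = (2 * m * II hB.hU 1) * (σ ^ 2 * B) := by ring
  have s3 : 2 * (m : ℝ) * II hB.hU 1 ≤ Λ ^ 2 := by
    rw [sq]
    exact mul_le_mul hmΛ hM hM0 h0.le
  have s4 : (2 * (m : ℝ) * II hB.hU 1) * (σ ^ 2 * B) ≤ (P * L ^ 2) * (σ ^ 2 * B) :=
    mul_le_mul_of_nonneg_right (s3.trans haux) (by positivity)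
  have s5 : (P * L ^ 2) * (σ ^ 2 * B) = (P * B) * (L ^ 2 * σ ^ 2) := by ring
  have s6 : (P * B) * (L ^ 2 * σ ^ 2) < (ε0 * A) * (L ^ 2 * σ ^ 2) :=
    mul_lt_mul_of_pos_right hexp (by positivity)
  have s7 : (2 * (m : ℝ)) * A < (ε0 * (σ * L) ^ 2) * A := by
    calc (2 * (m : ℝ)) * A ≤ (P * B) * (L ^ 2 * σ ^ 2) := by rw [← s5]; exact s1.trans (s2 ▸ s4)
      _ < (ε0 * A) * (L ^ 2 * σ ^ 2) := s6
      _ = (ε0 * (σ * L) ^ 2) * A := by ring
  exact lt_of_mul_lt_mul_right s7 hA.le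

theorem VarGe.mono {ι : Type} [Fintype ι] {φ : ι → ℝ[X]} {v w : ℝ} (h : VarGe φ v) (hw : w ≤ v) :
    VarGe φ w := fun c => (ENNReal.ofReal_le_ofReal hw).trans (h c)

/-- Stage: near every density there is one whose degree n random polynomial, for some n, has a
number of real roots of variance at least K n, robustly. -/
theorem stage_final {F : ℝ → ℝ} (hF : Integrable F m01) (hF0 : 0 ≤ᵐ[m01] F) {ε0 K : ℝ}
    (hε0 : 0 < ε0) (hK : 0 ≤ K) :
    ∃ (s m : ℕ) (φ : Unit ⊕ (Fin s ⊕ (Fin m ⊕ Fin m)) → ℝ[X]) (g : ℝ → ℝ),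
      Integrable g m01 ∧ 0 ≤ᵐ[m01] g ∧ ∫ x, |g x - F x| ∂m01 < ε0 ∧ 1 ≤ s ∧
      (∀ i, (φ i).natDegree ≤ s + 2 * m) ∧ VarGe φ (2 * K * (s + 2 * m)) ∧
      ∀ i j, |∫ x, g x * (φ i * φ j).eval x ∂m01 - (if i = j then 1 else 0)| <
        1 / (8 * ((s : ℝ) + 2 * m + 1) ^ 2) := by
  obtain ⟨pA, pb, B0, hC⟩ := exists_cst
  obtain ⟨η, hη, hη1, hcut⟩ := exists_cut hF (half_pos hε0)
  have hB := cut_base hF hF0 hη hη1
  obtain ⟨s, m, G, r, d, ε, Λ, hP, hdη, hgram, hcl, hvar, hΛ, hM, hG, hr, hd, hmΛ, hexp⟩ :=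
    exists_params hC hη hη1 (M0 := II hB.hU 1) (half_pos hε0) hK 94
  obtain ⟨Ψ, t, hFam⟩ := exists_fam hB s m hP.hs r d
  obtain ⟨τ, hτ, hV⟩ := var_alt hB hC hP hFam
  have hd0 := hP.hd0
  have hr0 := hP.hr
  have hG1 := hP.hG1
  have hΛ0 : 0 < Λ := by linarith
  have hτ0 : 0 < τ := by
    rcases hτ with h | h
    · rw [h]; exact hd0
    · rw [h]; positivity
  have hτd : τ ≤ d := by
    rcases hτ with h | h
    · exact h.le
    · rw [h]; exact div_le_self hd0.le (by linarith)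
  have hτlow : (Λ ^ 18)⁻¹ ≤ τ := by
    have e1 : (Λ ^ 18)⁻¹ ≤ d / (10 * G) := by
      rw [hG, hd, div_eq_mul_inv, ← mul_inv]
      apply inv_anti₀ (by positivity)
      calc Λ ^ 16 * (10 * Λ) = Λ ^ 17 * 10 := by ring
        _ ≤ Λ ^ 17 * Λ := mul_le_mul_of_nonneg_left (by linarith) (by positivity)
        _ = Λ ^ 18 := by ring
    rcases hτ with h | h
    · rw [h]
      exact e1.trans (div_le_self hd0.le (by linarith))
    · rw [h]; exact e1
  have hmass := mass_sum hFam hP.hs hP.hm hr0 hd0 hP.hd hcl hτ0 hΛ hM hτlow hr hd hmΛ hexp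
  have hci := cut_integrable hF η
  have hc0 := cut_nonneg hF0 hη.le
  have hg0 := gram_zero hFam hr0 hd0 hP.hd hτ0 (hτd.trans hdη)
  have hτη : τ / η < 1 / (8 * ((s : ℝ) + 2 * m + 1) ^ 2) :=
    lt_of_le_of_lt (div_le_div_of_nonneg_right hτd hη.le) hgram
  obtain ⟨g, hg1, hg2, hg3, hg4⟩ := smear hci hc0 (node (1 - η) r d m)
    (node_lt hη1 hr0 hd0 hP.hd hcl) (mass (1 - η) r d s m Ψ t τ)
    (fun i => by unfold mass; positivity)
    (fun i j => frame (1 - η) r d s m Ψ t τ i * frame (1 - η) r d s m Ψ t τ j)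
    (fun i j => if i = j then 1 else 0) (1 / (8 * ((s : ℝ) + 2 * m + 1) ^ 2))
    (fun i j => by
      refine lt_of_le_of_lt ?_ hτη
      have h := hg0 i j
      rw [← ip_eq, dens_ip hci hc0] at h
      exact h)
  refine ⟨s, m, frame (1 - η) r d s m Ψ t τ, g, hg1, hg2, ?_, hP.hs, natDegree_frame hFam τ,
    hV.mono hvar, hg4⟩
  have htri : ∫ x, |g x - F x| ∂m01 ≤
      ∫ x, |g x - cut F η x| ∂m01 + ∫ x, |cut F η x - F x| ∂m01 := by
    have i1 : Integrable (fun x => |g x - cut F η x|) m01 := (hg1.sub hci).abs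
    have i2 : Integrable (fun x => |cut F η x - F x|) m01 := (hci.sub hF).abs
    have i3 : Integrable (fun x => |g x - F x|) m01 := (hg1.sub hF).abs
    rw [← integral_add i1 i2]
    apply integral_mono i3 (i1.add i2)
    intro x
    have := abs_add_le (g x - cut F η x) (cut F η x - F x)
    rw [sub_add_sub_cancel] at this
    exact this
  linarith

end Pool.Agent.Helper553.Orth
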