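import Pool.Agent.Helper553.Orth.Typ

set_option autoImplicit false
open MeasureTheory ProbabilityTheory Filter Topology Set Polynomial
open scoped ENNReal NNReal

namespace Pool.Agent.Helper553.Orth

/-- All properties of the family of polynomials used in the construction. -/
structure Fam {ν : Measure ℝ} {η : ℝ} (hB : Base ν η) (s m : ℕ) (r d : ℝ) (Ψ : ℝ[X]) (t : ℕ → ℝ[X]) :
    Prop where
  hd : Ψ.natDegree = s
  hRB : RB (1 - 2 * η) Ψ
  hlc : 0 < Ψ.leadingCoeff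
  h1 : II hB.hU (Wp (1 - η) r d m * Ψ * (Wp (1 - η) r d m * Ψ)) = 1
  h2 : ∀ f : ℝ[X], f.natDegree < s →
      II hB.hU (Wp (1 - η) r d m * Ψ * (Wp (1 - η) r d m * ((X - C (1 - η)) * f))) = 0
  htd : ∀ j, (t j).natDegree = j
  htRB : ∀ j, RB (1 - 2 * η) (t j)
  htlc : ∀ j, 0 < (t j).leadingCoeff
  hto : ∀ i j, II hB.hU (Wp (1 - η) r d m * ((X - C (1 - η)) * t i) *
      (Wp (1 - η) r d m * ((X - C (1 - η)) * t j))) = if i = j then 1 else 0

theorem Wp_ne (y0 r d : ℝ) (m : ℕ) : Wp y0 r d m ≠ 0 := by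
  unfold Wp qp
  rw [Finset.prod_ne_zero_iff]
  intro k _
  exact mul_ne_zero (X_sub_C_ne_zero _) (X_sub_C_ne_zero _)

theorem exists_fam {ν : Measure ℝ} {η : ℝ} (hB : Base ν η) (s m : ℕ) (hs : 1 ≤ s) (r d : ℝ) :
    ∃ (Ψ : ℝ[X]) (t : ℕ → ℝ[X]), Fam hB s m r d Ψ t := by
  obtain ⟨Ψ, t, a1, a2, a3, a4, a5, a6, a7, a8, a9⟩ :=
    family hB (Wp_ne (1 - η) r d m) s hs
  exact ⟨Ψ, t, a1, a2, a3, a4, a5, a6, a7, a8, a9⟩

theorem natDegree_Qy {s m : ℕ} (hs : 1 ≤ s) {t : ℕ → ℝ[X]} (htd : ∀ j, (t j).natDegree = j)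
    (y : Fin s ⊕ (Fin m ⊕ Fin m) → ℝ) : (Qy t y).natDegree + 1 ≤ s := by
  have : (Qy t y).natDegree ≤ s - 1 := by
    unfold Qy
    apply natDegree_sum_le_of_forall_le
    intro j _
    apply (natDegree_C_mul_le _ _).trans
    rw [htd]
    omega
  omega

/-- The inner estimate: for a typical configuration. -/
theorem inner_typ {ν : Measure ℝ} {η : ℝ} (hB : Base ν η) {s m : ℕ} {pA pb B0 ε G r d : ℝ}
    (hC : Cst pA pb B0) (hP : Par η (B0 + 1) ε pA pb s m G r d) {Ψ : ℝ[X]} {t : ℕ → ℝ[X]}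
    (hF : Fam hB s m r d Ψ t) (k0 : Fin m) (y : Fin s ⊕ (Fin m ⊕ Fin m) → ℝ)
    (hy : y ∈ TypS s m pA B0 G k0) (c1 c2 : ℝ) :
    ENNReal.ofReal (pb / 2 * ((pA * m - pA * m / 8) ^ 2 / 8)) ≤
      ∫⁻ b, ENNReal.ofReal
        (((nr (rp (frame (1 - η) r d s m Ψ t d) (Sum.elim (fun _ : Unit => b) y)) : ℝ) - c1) ^ 2 +
        ((nr (rp (frame (1 - η) r d s m Ψ t (d / (10 * G))) (Sum.elim (fun _ : Unit => b) y)) : ℝ)
          - c2) ^ 2) ∂(gaussianReal 0 1) := by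
  classical
  obtain ⟨hyG, hy0, hyA, hyB⟩ := hy
  have hH := hyp_of hB hP hF.hd hF.hRB hF.hlc hF.h1 hF.h2 hF.htd hF.htRB hF.htlc hF.hto y hyG
  have hpA := hC.hpA
  have hd0 := hP.hd0
  have hr := hP.hr
  have hG1 := hP.hG1
  have hm' : (1 : ℝ) ≤ m := by exact_mod_cast hP.hm
  set τ2 := d / (10 * G) with hτ2
  have hτ2pos : 0 < τ2 := by positivity
  have hτ2d : τ2 ≤ d := by
    rw [hτ2, div_le_iff₀ (by positivity)]
    nlinarith
  have hτ2G : τ2 * G ≤ d / 10 := by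
    rw [hτ2]
    apply le_of_eq
    field_simp
  set δ : ℝ := d * (m * (3 * G / r)) with hδ
  have hδ0 : 0 ≤ δ := by positivity
  have hδle : |d - τ2| * (m * (3 * G / r)) ≤ δ := by
    rw [hδ, abs_of_nonneg (by linarith)]
    apply mul_le_mul_of_nonneg_right _ (by positivity)
    linarith
  obtain ⟨F, hFc, hFe⟩ := outside_eq hH (s := s) hF.hd.le (natDegree_Qy hP.hs hF.htd y) k0 hy0
    hd0.ne' hτ2pos.ne' hδle
  set Bad : Set ℝ := {b : ℝ | ∃ f ∈ F, |b - f| ≤ δ} with hBad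
  have hBadm : MeasurableSet Bad := by
    have : Bad = ⋃ f ∈ F, {b : ℝ | |b - f| ≤ δ} := by
      rw [hBad]; ext b; simp
    rw [this]
    apply Finset.measurableSet_biUnion
    intro f _
    exact measurableSet_le (by fun_prop) measurable_const
  have hBadP : gaussianReal 0 1 Bad ≤ ENNReal.ofReal (pb / 2) := by
    refine (gam_finset F δ hδ0).trans (ENNReal.ofReal_le_ofReal ?_)
    refine le_trans ?_ hP.hbad
    apply mul_le_mul_of_nonneg_right _ hδ0
    have : (F.card : ℝ) ≤ ((18 * (s + 2 * m) + 16 : ℕ) : ℝ) := by exact_mod_cast hFc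
    refine this.trans (le_of_eq ?_)
    push_cast
    ring
  have hdiff : ∀ S : Set ℝ, ENNReal.ofReal pb ≤ gaussianReal 0 1 S →
      ENNReal.ofReal (pb / 2) ≤ gaussianReal 0 1 (S \ Bad) := by
    intro S hS
    have h1 : gaussianReal 0 1 S ≤ gaussianReal 0 1 (S \ Bad) + gaussianReal 0 1 Bad := by
      refine (measure_mono ?_).trans (measure_union_le _ _)
      intro x hx
      by_cases h : x ∈ Bad
      · exact Or.inr h
      · exact Or.inl ⟨hx, h⟩
    have h2 : ENNReal.ofReal pb ≤ gaussianReal 0 1 (S \ Bad) + ENNReal.ofReal (pb / 2) :=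
      hS.trans (h1.trans (add_le_add le_rfl hBadP))
    obtain ⟨q, hq0, hq⟩ : ∃ q : ℝ, 0 ≤ q ∧ gaussianReal 0 1 (S \ Bad) = ENNReal.ofReal q :=
      ⟨_, ENNReal.toReal_nonneg, (ENNReal.ofReal_toReal (measure_ne_top _ _)).symm⟩
    have hpb := hC.hpb
    rw [hq] at h2 ⊢
    rw [← ENNReal.ofReal_add hq0 (by positivity), ENNReal.ofReal_le_ofReal_iff (by positivity)] at h2
    apply ENNReal.ofReal_le_ofReal
    linarith
  have hout : ∀ b, b ∉ Bad → nro (1 - η) (1 - η + 4 * r * m) (Pp (1 - η) r d Ψ (Qy t y)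
      (fun k => y (Sum.inr (Sum.inl k))) (fun k => y (Sum.inr (Sum.inr k))) b d) =
      nro (1 - η) (1 - η + 4 * r * m) (Pp (1 - η) r d Ψ (Qy t y)
      (fun k => y (Sum.inr (Sum.inl k))) (fun k => y (Sum.inr (Sum.inr k))) b τ2) := by
    intro b hb
    apply hFe
    intro f hf
    by_contra hcon
    push Not at hcon
    exact hb ⟨f, hf, hcon⟩
  have hB0 := hC.hB0
  apply inner_bound (S1 := Icc 1 (11 / 10) \ Bad) (S2 := Icc B0 (B0 + 1) \ Bad)
    (measurableSet_Icc.diff hBadm) (measurableSet_Icc.diff hBadm) (hdiff _ hC.h1) (hdiff _ hC.h2)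
  · nlinarith [mul_pos hpA (by linarith : (0 : ℝ) < m)]
  · intro b hb
    rw [rp_frame, rp_frame]
    have h1 := compare_low hH (by linarith) hP.hdG hτ2pos.le hτ2d hτ2G hb.1.1 hb.1.2 (hout b hb.2)
    have h2 : ((Finset.univ.filter (fun k : Fin m => |y (Sum.inr (Sum.inl k)) + 1| ≤ 1 / 10 ∧
        |y (Sum.inr (Sum.inr k)) - 2| ≤ 1 / 10)).card : ℝ) =
        ((Finset.univ.filter (fun k => y ∈ EA s m k)).card : ℝ) := by
      congr 2
      exact Finset.filter_congr (fun k _ => Iff.rfl)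
    have h3 : (nr (Pp (1 - η) r d Ψ (Qy t y)
      (fun k => y (Sum.inr (Sum.inl k))) (fun k => y (Sum.inr (Sum.inr k))) b d) : ℝ) +
      2 * ((Finset.univ.filter (fun k : Fin m => |y (Sum.inr (Sum.inl k)) + 1| ≤ 1 / 10 ∧
        |y (Sum.inr (Sum.inr k)) - 2| ≤ 1 / 10)).card : ℝ) ≤
      nr (Pp (1 - η) r d Ψ (Qy t y)
      (fun k => y (Sum.inr (Sum.inl k))) (fun k => y (Sum.inr (Sum.inr k))) b τ2) := by
      exact_mod_cast h1
    rw [h2] at h3
    linarith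
  · intro b hb
    rw [rp_frame, rp_frame]
    have h1 := compare_high hH hP.hdG hτ2pos.le hτ2d hB0 hb.1.1 hb.1.2 (hout b hb.2)
    have h2 : ((Finset.univ.filter (fun k : Fin m => ¬ (|y (Sum.inr (Sum.inl k))| ≤ B0 / 10 ∧
        |y (Sum.inr (Sum.inr k))| ≤ B0 / 10))).card : ℝ) =
        ((Finset.univ.filter (fun k => y ∈ EB s m B0 k)).card : ℝ) := by
      congr 2
      exact Finset.filter_congr (fun k _ => Iff.rfl)
    have h3 : (nr (Pp (1 - η) r d Ψ (Qy t y)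
      (fun k => y (Sum.inr (Sum.inl k))) (fun k => y (Sum.inr (Sum.inr k))) b τ2) : ℝ) ≤
      nr (Pp (1 - η) r d Ψ (Qy t y)
      (fun k => y (Sum.inr (Sum.inl k))) (fun k => y (Sum.inr (Sum.inr k))) b d) +
      2 * ((Finset.univ.filter (fun k : Fin m => ¬ (|y (Sum.inr (Sum.inl k))| ≤ B0 / 10 ∧
        |y (Sum.inr (Sum.inr k))| ≤ B0 / 10))).card : ℝ) := by
      exact_mod_cast h1
    rw [h2] at h3
    linarith

/-- One of the two frames has large variance. -/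
theorem var_alt {ν : Measure ℝ} {η : ℝ} (hB : Base ν η) {s m : ℕ} {pA pb B0 ε G r d : ℝ}
    (hC : Cst pA pb B0) (hP : Par η (B0 + 1) ε pA pb s m G r d) {Ψ : ℝ[X]} {t : ℕ → ℝ[X]}
    (hF : Fam hB s m r d Ψ t) :
    ∃ τ : ℝ, (τ = d ∨ τ = d / (10 * G)) ∧
      VarGe (frame (1 - η) r d s m Ψ t τ) (pA ^ 3 * pb / 256 * m ^ 2) := by
  classical
  have hm := hP.hm
  let k0 : Fin m := ⟨0, hm⟩
  set κ := Fin s ⊕ (Fin m ⊕ Fin m) with hκ
  set v : ℝ := pA ^ 3 * pb / 256 * m ^ 2 with hv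
  have hpA := hC.hpA
  have hpb := hC.hpb
  by_contra hcon
  push Not at hcon
  have n1 := hcon d (Or.inl rfl)
  have n2 := hcon (d / (10 * G)) (Or.inr rfl)
  unfold VarGe at n1 n2
  push Not at n1 n2
  obtain ⟨c1, h1⟩ := n1
  obtain ⟨c2, h2⟩ := n2
  let F1 : (Unit ⊕ κ → ℝ) → ℝ≥0∞ := fun x =>
    ENNReal.ofReal (((nr (rp (frame (1 - η) r d s m Ψ t d) x) : ℝ) - c1) ^ 2)
  let F2 : (Unit ⊕ κ → ℝ) → ℝ≥0∞ := fun x =>
    ENNReal.ofReal (((nr (rp (frame (1 - η) r d s m Ψ t (d / (10 * G))) x) : ℝ) - c2) ^ 2)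
  have hmeasN : ∀ (τ c : ℝ), Measurable (fun x : Unit ⊕ κ → ℝ =>
      ENNReal.ofReal (((nr (rp (frame (1 - η) r d s m Ψ t τ) x) : ℝ) - c) ^ 2)) := by
    intro τ c
    have h1 : Measurable (fun x : Unit ⊕ κ → ℝ => (nr (rp (frame (1 - η) r d s m Ψ t τ) x) : ℝ)) :=
      (measurable_from_top (f := fun n : ℕ => (n : ℝ))).comp (measurable_nr _)
    exact ENNReal.measurable_ofReal.comp ((h1.sub_const c).pow_const 2)
  have hF1m : Measurable F1 := hmeasN d c1
  have hF2m : Measurable F2 := hmeasN (d / (10 * G)) c2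
  have hsum : ∫⁻ x, F1 x ∂(gpi (Unit ⊕ κ)) + ∫⁻ x, F2 x ∂(gpi (Unit ⊕ κ)) <
      ENNReal.ofReal v + ENNReal.ofReal v := ENNReal.add_lt_add h1 h2
  have hlow : ENNReal.ofReal v + ENNReal.ofReal v ≤
      ∫⁻ x, F1 x ∂(gpi (Unit ⊕ κ)) + ∫⁻ x, F2 x ∂(gpi (Unit ⊕ κ)) := by
    rw [← lintegral_add_left hF1m]
    have hem : Measurable (fun p : ℝ × (κ → ℝ) =>
        (Sum.elim (fun _ : Unit => p.1) p.2 : Unit ⊕ κ → ℝ)) := by
      apply measurable_pi_lambda
      rintro (i | i)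
      · exact measurable_fst
      · exact (measurable_pi_apply i).comp measurable_snd
    have hF12m : Measurable (fun x => F1 x + F2 x) := hF1m.add hF2m
    have hcm : Measurable (fun p : ℝ × (κ → ℝ) =>
        F1 (Sum.elim (fun _ : Unit => p.1) p.2) + F2 (Sum.elim (fun _ : Unit => p.1) p.2)) :=
      hF12m.comp hem
    rw [← map_e, lintegral_map hF12m hem, lintegral_prod_symm' _ hcm]
    set T := TypS s m pA B0 G k0 with hT
    have hTm := typ_meas s m pA B0 G k0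
    have hTP := typ_prob hC hm hP.hG1 hP.hNG k0
    calc ENNReal.ofReal v + ENNReal.ofReal v
        = ENNReal.ofReal (pA / 4 * (pA ^ 2 * pb / 32 * m ^ 2)) := by
          rw [← ENNReal.ofReal_add (by positivity) (by positivity)]
          congr 1
          rw [hv]; ring
      _ ≤ ENNReal.ofReal (pb / 2 * ((pA * m - pA * m / 8) ^ 2 / 8)) * ENNReal.ofReal (pA / 4) := by
          rw [← ENNReal.ofReal_mul (by positivity), mul_comm (pA / 4)]
          apply ENNReal.ofReal_le_ofReal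
          apply mul_le_mul_of_nonneg_right _ (by positivity)
          have e : pb / 2 * ((pA * m - pA * m / 8) ^ 2 / 8) = 49 / 1024 * (pA ^ 2 * pb * m ^ 2) := by
            ring
          rw [e]
          have : 0 ≤ pA ^ 2 * pb * (m : ℝ) ^ 2 := by positivity
          linarith
      _ ≤ ENNReal.ofReal (pb / 2 * ((pA * m - pA * m / 8) ^ 2 / 8)) * gpi κ T :=
          mul_le_mul_right hTP _
      _ = ∫⁻ _y in T, ENNReal.ofReal (pb / 2 * ((pA * m - pA * m / 8) ^ 2 / 8)) ∂(gpi κ) := by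
          rw [setLIntegral_const]
      _ ≤ ∫⁻ y in T, ∫⁻ b, F1 (Sum.elim (fun _ : Unit => b) y) + F2 (Sum.elim (fun _ : Unit => b) y)
            ∂(gaussianReal 0 1) ∂(gpi κ) := by
          apply setLIntegral_mono' hTm
          intro y hy
          have h3 := inner_typ hB hC hP hF k0 y hy c1 c2
          refine h3.trans (le_of_eq ?_)
          apply lintegral_congr
          intro b
          rw [ENNReal.ofReal_add (sq_nonneg _) (sq_nonneg _)]
      _ ≤ _ := setLIntegral_le_lintegral _ _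
  exact absurd hsum (not_lt.mpr hlow)

end Pool.Agent.Helper553.Orth
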